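import Mathlib
import Pool.Agent.X21.Sy.Main

/-!
# Coset lemmas
-/

set_option autoImplicit false
set_option linter.unusedSectionVars false

namespace Pool.Agent.X21.Qd

open Pool.Agent.H302R2 Pool.Agent.X21.Sy Subgroup Equiv Equiv.Perm

universe u v

section hom

variable {G : Type u} [Group G] [Finite G] {θ : G → ℂ}
variable {M : Type v} [CommGroup M] [Fintype M] (φ : M →* G) (κ : M →* M) {g : G}

/-- **Coset lemma**, for one element. -/
theorem coset_one (hθ : IsHeilbronn θ) (hκ : ∀ a, g * φ a * g⁻¹ = φ (κ a)) (a : M)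
    (hsum : ∑ x, θ (φ (a * dl κ x)) = ∑ x, θ (φ (dl κ x))) :
    θ (g * φ a) = θ g := by
  classical
  set D := (φ.comp (dl κ)).range with hD
  have hgN : g ∈ normalizer (D : Set G) :=
    mem_norm_range φ κ hκ (dl κ) (fun x => by rw [dl_apply, dl_apply, map_mul, map_inv])
  have haN : ∀ b : M, φ b ∈ normalizer (D : Set G) := by
    intro b
    rw [mem_normalizer_iff]
    intro x
    constructor
    · rintro ⟨y, rfl⟩
      refine ⟨y, ?_⟩
      rw [MonoidHom.comp_apply, ← map_mul, ← map_inv, ← map_mul, mul_comm b, mul_inv_cancel_right]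
    · rintro ⟨y, hy⟩
      refine ⟨y, ?_⟩
      rw [MonoidHom.comp_apply] at hy ⊢
      have : x = (φ b)⁻¹ * φ (dl κ y) * φ b := by rw [hy]; group
      rw [this, ← map_inv, ← map_mul, ← map_mul, mul_comm b⁻¹, inv_mul_cancel_right]
  obtain ⟨Q, _, _, Θ, π, hΘ, h1, h2⟩ := exists_avg hθ D
  have hc : (Nat.card D : ℂ) ≠ 0 := by exact_mod_cast Nat.card_pos.ne'
  have : Fintype D := Fintype.ofFinite _
  -- values on the coset
  have h3 : ∀ b : M, Θ (π ⟨g * φ b, mul_mem hgN (haN b)⟩) = θ (g * φ b) := by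
    intro b
    rw [h1]
    have : ∀ n : D, θ (g * φ b * n) = θ (g * φ b) := by
      rintro ⟨_, x, rfl⟩
      exact conj_coset φ κ hθ hκ b x
    rw [finsum_congr this, finsum_eq_sum_of_fintype, Finset.sum_const, Finset.card_univ,
      nsmul_eq_mul, ← Nat.card_eq_fintype_card]
    field_simp
  -- values on `A`
  have h4 : ∀ b : M, (Nat.card (φ.comp (dl κ)).ker : ℂ) * ∑ᶠ n : D, θ (φ b * n)
      = ∑ x, θ (φ (b * dl κ x)) := by
    intro b
    have h5 := sum_comp_surj (φ.comp (dl κ)).rangeRestrict
      (MonoidHom.rangeRestrict_surjective _) (fun n : D => θ (φ b * n))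
    rw [MonoidHom.ker_rangeRestrict] at h5
    rw [finsum_eq_sum_of_fintype, ← h5]
    refine Finset.sum_congr rfl fun x _ => ?_
    rw [map_mul]
    rfl
  have hk : (Nat.card (φ.comp (dl κ)).ker : ℂ) ≠ 0 := by exact_mod_cast Nat.card_pos.ne'
  have h6 : Θ (π ⟨φ a, haN a⟩) = Θ 1 := by
    rw [← map_one π, h1, h1]
    congr 1
    apply mul_left_cancel₀ hk
    have h7 := h4 1
    rw [map_one] at h7
    simp only [one_mul] at h7
    simp only [OneMemClass.coe_one, one_mul]
    rw [h4, hsum, h7]
  have hcomm : π ⟨g, hgN⟩ * π ⟨φ a, haN a⟩ = π ⟨φ a, haN a⟩ * π ⟨g, hgN⟩ := by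
    rw [← map_mul, ← map_mul]
    refine h2 _ _ ?_
    change (g * φ a)⁻¹ * (φ a * g) ∈ D
    have h8 : (φ a * g)⁻¹ * (g * φ a) ∈ D := by
      have h9 : φ a * g ∈ normalizer (D : Set G) := mul_mem (haN a) hgN
      have h10 : (g * φ a) * (φ a * g)⁻¹ ∈ D := by
        have : (g * φ a) * (φ a * g)⁻¹ = (φ (dl κ a))⁻¹ := by
          rw [dl_apply, map_mul, map_inv, ← hκ a]; group
        rw [this]
        exact D.inv_mem ⟨a, rfl⟩
      have h11 := (mem_normalizer_iff.1 ((normalizer (D : Set G)).inv_mem h9) _).1 h10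
      have e : (φ a * g)⁻¹ * (g * φ a * (φ a * g)⁻¹) * (φ a * g)⁻¹⁻¹
          = (φ a * g)⁻¹ * (g * φ a) := by group
      rwa [e] at h11
    have h12 := D.inv_mem h8
    have e : ((φ a * g)⁻¹ * (g * φ a))⁻¹ = (g * φ a)⁻¹ * (φ a * g) := by group
    rwa [e] at h12
  have h7 := hΘ.mul_of_comm hcomm h6
  rw [← map_mul] at h7
  have h8 := h3 a
  have h9 := h3 1
  simp only [map_one, mul_one] at h9
  rw [← h8, ← h9]
  exact h7

/-- **Vanishing on the coset** for a sign character `y` not occurring in `θ`. -/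
theorem coset_van (hθ : IsHeilbronn θ) (hκ : ∀ a, g * φ a * g⁻¹ = φ (κ a)) (y : M →* ℤˣ)
    (hy : ∀ a, y (κ a) = y a) (h0 : ∑ x, ((y x : ℤ) : ℂ) * θ (φ x) = 0) :
    ∑ x, ((y x : ℤ) : ℂ) * θ (g * φ x) = 0 := by
  classical
  by_cases htriv : ∀ a, y a = 1
  · -- trivial character: the average over `M` is zero
    have hgN : g ∈ normalizer (φ.range : Set G) := by
      have := mem_norm_range φ κ hκ (MonoidHom.id M) (fun _ => rfl)
      simpa using this
    have h1 := norm_avg hθ φ.range hgN
    have : Fintype φ.range := Fintype.ofFinite _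
    have hk : (Nat.card φ.ker : ℂ) ≠ 0 := by exact_mod_cast Nat.card_pos.ne'
    have h2 : ∀ h : G, (Nat.card φ.ker : ℂ) * ∑ n : φ.range, θ (h * n) = ∑ x, θ (h * φ x) := by
      intro h
      have h5 := sum_comp_surj φ.rangeRestrict
        (MonoidHom.rangeRestrict_surjective _) (fun n : φ.range => θ (h * n))
      rw [MonoidHom.ker_rangeRestrict] at h5
      rw [← h5]
      rfl
    have h3 : ∑ n : φ.range, θ n = 0 := by
      have h4 := h2 1
      simp only [one_mul] at h4
      have h5 : ∑ x, θ (φ x) = 0 := by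
        rw [← h0]
        refine Finset.sum_congr rfl fun x _ => ?_
        rw [htriv x]; simp
      rw [h5] at h4
      exact (mul_eq_zero.mp h4).resolve_left hk
    rw [finsum_eq_sum_of_fintype, finsum_eq_sum_of_fintype, h3, Complex.zero_re] at h1
    have h4 : ∑ n : φ.range, θ (g * n) = 0 := norm_le_zero_iff.mp h1
    have h5 := h2 g
    rw [h4, mul_zero] at h5
    rw [h5]
    refine Finset.sum_congr rfl fun x _ => ?_
    rw [htriv x]; simp
  · push Not at htriv
    obtain ⟨s, hs⟩ := htriv
    have hs1 : y s = -1 := (Int.units_eq_one_or _).resolve_left hs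
    have : Fintype y.ker := Fintype.ofFinite _
    -- sum over the kernel
    have hsplit : ∀ F : M → ℂ, ∑ x, ((y x : ℤ) : ℂ) * F x
        = ∑ x : y.ker, F x - ∑ x : y.ker, F (x * s) := by
      intro F
      have e1 : ∑ x : y.ker, F x = ∑ x ∈ Finset.univ.filter (fun x => y x = 1), F x := by
        rw [← Finset.sum_subtype (Finset.univ.filter fun x => y x = 1)]
        intro x
        simp [MonoidHom.mem_ker]
      have e2 : ∑ x : y.ker, F (x * s) = ∑ x ∈ Finset.univ.filter (fun x => y x = 1), F (x * s) := by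
        rw [← Finset.sum_subtype (Finset.univ.filter fun x => y x = 1) _ (fun x => F (x * s))]
        intro x
        simp [MonoidHom.mem_ker]
      have e3 : ∑ x ∈ Finset.univ.filter (fun x => y x = 1), F (x * s)
          = ∑ x ∈ Finset.univ.filter (fun x => ¬ y x = 1), F x := by
        refine Finset.sum_bij' (fun x _ => x * s) (fun x _ => x * s⁻¹) ?_ ?_ ?_ ?_ ?_
        · intro x hx
          rw [Finset.mem_filter] at hx ⊢
          refine ⟨Finset.mem_univ _, ?_⟩
          rw [map_mul, hx.2, hs1]; decide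
        · intro x hx
          rw [Finset.mem_filter] at hx ⊢
          refine ⟨Finset.mem_univ _, ?_⟩
          have := (Int.units_eq_one_or _).resolve_left hx.2
          rw [map_mul, map_inv, this, hs1]; decide
        · intro x _; simp
        · intro x _; simp
        · intro x _; rfl
      rw [e1, e2, e3, ← Finset.sum_filter_add_sum_filter_not Finset.univ (fun x => y x = 1)
        (fun x => ((y x : ℤ) : ℂ) * F x)]
      have e4 : ∑ x ∈ Finset.univ.filter (fun x => y x = 1), ((y x : ℤ) : ℂ) * F x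
          = ∑ x ∈ Finset.univ.filter (fun x => y x = 1), F x := by
        refine Finset.sum_congr rfl fun x hx => ?_
        rw [(Finset.mem_filter.mp hx).2]; simp
      have e5 : ∑ x ∈ Finset.univ.filter (fun x => ¬ y x = 1), ((y x : ℤ) : ℂ) * F x
          = - ∑ x ∈ Finset.univ.filter (fun x => ¬ y x = 1), F x := by
        rw [← Finset.sum_neg_distrib]
        refine Finset.sum_congr rfl fun x hx => ?_
        rw [(Int.units_eq_one_or _).resolve_left (Finset.mem_filter.mp hx).2]; simp
      rw [e4, e5]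
      ring
    let D := (φ.comp y.ker.subtype).range
    have hmem : ∀ x, x ∈ D ↔ ∃ z, y z = 1 ∧ φ z = x := by
      intro x
      constructor
      · rintro ⟨z, rfl⟩
        exact ⟨z, z.2, rfl⟩
      · rintro ⟨z, hz, rfl⟩
        exact ⟨⟨z, hz⟩, rfl⟩
    have hfin : Finite D := inferInstance
    have hgN : g ∈ normalizer (D : Set G) := by
      have hle : ∀ x ∈ D, g * x * g⁻¹ ∈ D := by
        intro x hx
        obtain ⟨z, hz, rfl⟩ := (hmem x).mp hx
        rw [hκ]
        exact (hmem _).mpr ⟨κ z, by rw [hy, hz], rfl⟩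
      rw [mem_normalizer_iff]
      intro x
      refine ⟨fun hx => hle x hx, fun hx => ?_⟩
      let f : D → D := fun y => ⟨g * y * g⁻¹, hle y y.2⟩
      have hf : Function.Injective f := by
        intro y z h
        have := congrArg Subtype.val h
        simp only [f] at this
        exact Subtype.ext (mul_left_cancel (mul_right_cancel this))
      obtain ⟨y, hy⟩ := (Finite.injective_iff_surjective.mp hf) ⟨g * x * g⁻¹, hx⟩
      have := congrArg Subtype.val hy
      simp only [f] at this
      have h2 := mul_left_cancel (mul_right_cancel this)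
      rw [← h2]; exact y.2
    have haN : ∀ b : M, φ b ∈ normalizer (D : Set G) := by
      intro b
      rw [mem_normalizer_iff]
      intro x
      constructor
      · intro hx
        obtain ⟨z, hz, rfl⟩ := (hmem x).mp hx
        refine (hmem _).mpr ⟨z, hz, ?_⟩
        rw [← map_mul, ← map_inv, ← map_mul, mul_comm b, mul_inv_cancel_right]
      · intro hx
        obtain ⟨z, hz, h⟩ := (hmem _).mp hx
        refine (hmem _).mpr ⟨z, hz, ?_⟩
        have : x = (φ b)⁻¹ * φ z * φ b := by rw [h]; group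
        rw [this, ← map_inv, ← map_mul, ← map_mul, mul_comm b⁻¹, inv_mul_cancel_right]
    obtain ⟨Q, _, _, Θ, π, hΘ, h1, h2⟩ := exists_avg hθ D
    have : Fintype D := Fintype.ofFinite _
    have hcD : (Nat.card D : ℂ) ≠ 0 := by exact_mod_cast Nat.card_pos.ne'
    have hk : (Nat.card (φ.comp y.ker.subtype).ker : ℂ) ≠ 0 := by
      exact_mod_cast Nat.card_pos.ne'
    have h4 : ∀ h : G, (Nat.card (φ.comp y.ker.subtype).ker : ℂ) * ∑ n : D, θ (h * n)
        = ∑ x : y.ker, θ (h * φ x) := by
      intro h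
      have h5 := sum_comp_surj (φ.comp y.ker.subtype).rangeRestrict
        (MonoidHom.rangeRestrict_surjective _) (fun n : D => θ (h * n))
      rw [MonoidHom.ker_rangeRestrict] at h5
      rw [← h5]
      rfl
    have hval : ∀ h : normalizer (D : Set G), Θ (π h) = (Nat.card D : ℂ)⁻¹ *
        ((Nat.card (φ.comp y.ker.subtype).ker : ℂ)⁻¹ * ∑ x : y.ker, θ (h * φ x)) := by
      intro h
      rw [h1, finsum_eq_sum_of_fintype, ← h4, inv_mul_cancel_left₀ hk]
    have hcomm1 : ∀ x : y.ker, φ (x * s) = φ s * φ x := by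
      intro x
      rw [map_mul, ← map_mul, mul_comm, map_mul]
    have h6 : Θ (π ⟨φ s, haN s⟩) = Θ 1 := by
      rw [← map_one π, hval, hval]
      congr 2
      rw [hsplit (fun x => θ (φ x)), sub_eq_zero] at h0
      simp only [OneMemClass.coe_one, one_mul]
      rw [h0]
      exact Finset.sum_congr rfl fun x _ => by rw [hcomm1]
    have hcomm : π ⟨g, hgN⟩ * π ⟨φ s, haN s⟩ = π ⟨φ s, haN s⟩ * π ⟨g, hgN⟩ := by
      rw [← map_mul, ← map_mul]
      refine h2 _ _ ?_
      change (g * φ s)⁻¹ * (φ s * g) ∈ D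
      have e1 : (g * φ s) = φ (κ s) * g := by rw [← hκ s]; group
      have e2 : (g * φ s)⁻¹ * (φ s * g) = g⁻¹ * φ ((κ s)⁻¹ * s) * g := by
        rw [e1, map_mul, map_inv]; group
      rw [e2]
      have h9 : φ ((κ s)⁻¹ * s) ∈ D := (hmem _).mpr ⟨_, by rw [map_mul, map_inv, hy]; simp, rfl⟩
      have h11 := (mem_normalizer_iff.1 ((normalizer (D : Set G)).inv_mem hgN) _).1 h9
      rwa [inv_inv] at h11
    have h7 := hΘ.mul_of_comm hcomm h6
    rw [← map_mul, hval, hval] at h7
    have h8 : ∑ x : y.ker, θ (g * φ s * φ x) = ∑ x : y.ker, θ (g * φ x) := by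
      have h9 := mul_left_cancel₀ (inv_ne_zero hk) (mul_left_cancel₀ (inv_ne_zero hcD) h7)
      exact h9
    rw [hsplit (fun x => θ (g * φ x)), sub_eq_zero, ← h8]
    refine Finset.sum_congr rfl fun x _ => ?_
    rw [hcomm1, mul_assoc]

end hom

section wr

variable {B : Type} [Fintype B] [DecidableEq B] {p : ℕ} [Fact p.Prime]
variable {α : Type*} [Fintype α] [DecidableEq α] {θ : alternatingGroup α → ℂ}

/-- **Coset lemma in wreath coordinates**: the coordinates at the blocks moved by `σ` do not
matter. -/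
theorem wr_moved (hθ : IsHeilbronn θ) (hB : 3 ≤ Fintype.card B ∨ p ≠ 2) (f : B × ZMod p ↪ α)
    {r c : ℂ} (hF : Fml θ f r c) {σ : Perm B} (g : Perm α) (hg : Perm.sign g = 1)
    (hκ : ∀ x : B → ZMod p, g * viaEmbeddingHom f (W 1 x) * g⁻¹
      = viaEmbeddingHom f (W 1 (fun i => x (σ⁻¹ i)))) {a : B → ZMod p}
    (ha : Perm.sign (W (1 : Perm B) a) = 1) (ha0 : ∀ i, σ i = i → a i = 0) :
    ev θ (g * viaEmbeddingHom f (W 1 a)) = ev θ g := by
  classical
  let g' : alternatingGroup α := ⟨g, mem_alternatingGroup.mpr hg⟩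
  have hκ' : ∀ x : Adm B p, g' * ph f x * g'⁻¹ = ph f (ka σ x) := by
    intro x
    apply Subtype.ext
    exact hκ _
  have hval : ∀ x : Adm B p, θ (ph f x)
      = r - p * c * ∑ i, if Multiplicative.toAdd (x : Multiplicative (B → ZMod p)) i = 0
          then (0 : ℂ) else 1 := by
    intro x
    have h : Perm.sign (W 1 (Multiplicative.toAdd (x : Multiplicative (B → ZMod p)))) = 1 := x.2
    rw [ev_ph (θ := θ) f x, hF _ h, wtB_eq]
  have key := coset_one (g := g') (ph f) (ka σ) hθ hκ' ⟨Multiplicative.ofAdd a, ha⟩ ?_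
  · rw [ev_of (mem_alternatingGroup.mpr hg)]
    have hm : g * viaEmbeddingHom f (W 1 a) ∈ alternatingGroup α :=
      mul_mem (mem_alternatingGroup.mpr hg) (via_mem f ha)
    rw [ev_of hm]
    rw [← key]
    rfl
  · have h1 : ∀ b : Adm B p, ∑ x : Adm B p, θ (ph f (b * dl (ka σ) x))
        = (Fintype.card (Adm B p) : ℂ) * r - p * c * ∑ i, ∑ x : Adm B p,
          if Multiplicative.toAdd (b : Multiplicative (B → ZMod p)) i +
            (Multiplicative.toAdd (x : Multiplicative (B → ZMod p)) i
            - Multiplicative.toAdd (x : Multiplicative (B → ZMod p)) (σ⁻¹ i)) = 0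
          then (0 : ℂ) else 1 := by
      intro b
      rw [Finset.sum_congr rfl (fun x _ => hval (b * dl (ka σ) x)), Finset.sum_sub_distrib,
        Finset.sum_const, Finset.card_univ, nsmul_eq_mul, ← Finset.mul_sum, Finset.sum_comm]
      congr 1
      congr 1
      refine Finset.sum_congr rfl fun i _ => Finset.sum_congr rfl fun x _ => ?_
      have : Multiplicative.toAdd ((b * dl (ka σ) x : Adm B p) : Multiplicative (B → ZMod p)) i
          = Multiplicative.toAdd (b : Multiplicative (B → ZMod p)) i +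
            (Multiplicative.toAdd (x : Multiplicative (B → ZMod p)) i
            - Multiplicative.toAdd (x : Multiplicative (B → ZMod p)) (σ⁻¹ i)) := by
        rw [sub_eq_add_neg]
        rfl
      rw [this]
    have h2 := h1 1
    simp only [one_mul] at h2
    rw [h1, h2]
    congr 1
    congr 1
    refine Finset.sum_congr rfl fun i _ => ?_
    have h3 : Multiplicative.toAdd ((1 : Adm B p) : Multiplicative (B → ZMod p)) i = 0 := rfl
    by_cases hi : i = σ⁻¹ i
    · have hσi : σ i = i := by
        nth_rewrite 1 [hi]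
        exact perm_mul_inv_apply σ i
      have h4 : Multiplicative.toAdd ((⟨Multiplicative.ofAdd a, ha⟩ : Adm B p) :
          Multiplicative (B → ZMod p)) i = 0 := ha0 i hσi
      rw [h3, h4]
    · rw [shift_sum hB hi _ (fun z => if z = 0 then (0 : ℂ) else 1)]
      refine Finset.sum_congr rfl fun x _ => ?_
      rw [h3, zero_add]

end wr

end Pool.Agent.X21.Qd
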