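import Mathlib
import Pool.Agent.X21.Qd.A1

/-!
# The formulas on the translations, quadratic range
-/

set_option autoImplicit false
set_option linter.unusedSectionVars false

namespace Pool.Agent.X21.Qd

open Pool.Agent.H302R2 Pool.Agent.X21.Sy Subgroup Equiv Equiv.Perm

section odd

variable {α : Type*} [Fintype α] [DecidableEq α] {θ : alternatingGroup α → ℂ}
variable {p b : ℕ} [Fact p.Prime]

/-- **The formula for odd primes.** -/
theorem fml_odd (hθ : IsHeilbronn θ) {r : ℕ} (hr : θ 1 = r) (hp : p ≠ 2) (hb : 2 ≤ b)
    (hw : ∀ w, 2 ≤ w → w < b → r < b.choose w * (p - 1) ^ w) (hfullw : 2 * r < (p - 1) ^ b)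
    (f : Fin b × ZMod p ↪ α) : ∃ c : ℕ, b * (p - 1) * c ≤ r ∧ Fml θ f r c := by
  classical
  have hpp : p.Prime := Fact.out
  have hp3 : 3 ≤ p := by
    have := hpp.two_le
    omega
  set e : AddChar (ZMod p) ℂ := AddChar.FiniteField.primitiveChar_to_Complex (ZMod p) with he
  have heprim : e.IsPrimitive := AddChar.FiniteField.primitiveChar_to_Complex_isPrimitive (ZMod p)
  have hι : 1 * Nat.card (Adm (Fin b) p) = p ^ b := by rw [one_mul, card_Adm_odd hp]
  choose n hn using exists_n (e := e) hθ f 1 hι
  have hinv := invert heprim hn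
  -- total
  have h0 : ev θ (viaEmbeddingHom f (W 1 (0 : Fin b → ZMod p))) = r := by
    rw [W_one, map_one, ev_of (one_mem _), ← hr]
    rfl
  have htot : ∑ y, n y = r := by
    have h1 := hinv 0
    simp only [Nat.cast_one, one_mul] at h1
    rw [h0] at h1
    simp only [Pi.zero_apply, mul_zero, Finset.sum_const_zero, AddChar.map_zero_eq_one,
      mul_one] at h1
    exact_mod_cast h1.symm
  obtain ⟨us, hus⟩ := exists_odd_unit (p := p) hp
  -- invariance below full weight
  have hwt : ∀ y z : Fin b → ZMod p, wt y = wt z → wt z < b → n y = n z := by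
    intro y z hyz hzb
    obtain ⟨u, σ, huσ⟩ := exists_monomial hyz
    rcases Int.units_eq_one_or (Perm.sign (mono u σ)) with hs | hs
    · exact n_inv hθ f 1 hn u σ huσ hs
    · obtain ⟨i0, hi0⟩ : ∃ i, z i = 0 := by
        by_contra hcon
        push Not at hcon
        have : wt z = b := by
          rw [wt, Finset.filter_true_of_mem (fun i _ => hcon i), Finset.card_univ,
            Fintype.card_fin]
        omega
      refine n_inv hθ f 1 hn (Function.update u i0 (us * u i0)) σ ?_ ?_
      · intro i
        by_cases hi : i = i0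
        · subst hi
          have h2 := huσ i
          rw [hi0] at h2 ⊢
          have h3 : y (σ i) = 0 := by
            rcases mul_eq_zero.mp h2.symm with h4 | h4
            · exact absurd h4 (Units.ne_zero _)
            · exact h4
          rw [h3, mul_zero]
        · rw [Function.update_of_ne hi]
          exact huσ i
      · rw [sign_mono'] at hs ⊢
        have h5 : ∏ i, Perm.sign (Units.mulLeft (Function.update u i0 (us * u i0) i) :
            Perm (ZMod p)) = - ∏ i, Perm.sign (Units.mulLeft (u i) : Perm (ZMod p)) := by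
          rw [← Finset.mul_prod_erase _ _ (Finset.mem_univ i0),
            ← Finset.mul_prod_erase (a := i0) _ (fun i => Perm.sign (Units.mulLeft (u i) :
              Perm (ZMod p))) (Finset.mem_univ i0)]
          rw [Function.update_self]
          have h6 : (Units.mulLeft (us * u i0) : Perm (ZMod p))
              = Units.mulLeft us * Units.mulLeft (u i0) := by
            ext x; simp [mul_assoc]
          rw [h6, Perm.sign_mul, hus]
          have h7 : ∏ i ∈ Finset.univ.erase i0, Perm.sign (Units.mulLeft
              (Function.update u i0 (us * u i0) i) : Perm (ZMod p))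
              = ∏ i ∈ Finset.univ.erase i0, Perm.sign (Units.mulLeft (u i) : Perm (ZMod p)) := by
            refine Finset.prod_congr rfl fun i hi => ?_
            rw [Function.update_of_ne (Finset.mem_erase.mp hi).1]
          rw [h7]
          simp
        rw [h5, mul_neg, hs, neg_neg]
  -- vectors of weight at least two
  have hge2 : ∀ y : Fin b → ZMod p, 2 ≤ wt y → n y = 0 := by
    intro y hy
    by_contra hcon
    have hyb : wt y ≤ b := by
      rw [wt]
      exact (Finset.card_filter_le _ _).trans (by simp)
    rcases Nat.lt_or_ge (wt y) b with hlt | hge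
    · have h2 : (Finset.univ.filter fun z : Fin b → ZMod p => wt z = wt y).card ≤ ∑ z, n z := by
        calc (Finset.univ.filter fun z : Fin b → ZMod p => wt z = wt y).card
            = ∑ z ∈ Finset.univ.filter (fun z : Fin b → ZMod p => wt z = wt y), 1 := by simp
          _ ≤ ∑ z ∈ Finset.univ.filter (fun z : Fin b → ZMod p => wt z = wt y), n z := by
              refine Finset.sum_le_sum fun z hz => ?_
              have := hwt z y (Finset.mem_filter.mp hz).2 hlt
              omega
          _ ≤ ∑ z, n z := Finset.sum_le_sum_of_subset (Finset.filter_subset _ _)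
      rw [htot, card_wt_eq, ZMod.card] at h2
      have h3 := hw (wt y) hy hlt
      omega
    · -- full support
      have hfull : ∀ i, y i ≠ 0 := by
        intro i hi
        have : wt y < b := by
          rw [wt]
          calc (Finset.univ.filter fun i => y i ≠ 0).card < (Finset.univ : Finset (Fin b)).card := by
                apply Finset.card_lt_card
                rw [Finset.ssubset_univ_iff]
                intro h
                have := h ▸ Finset.mem_univ i
                rw [Finset.mem_filter] at this
                exact this.2 hi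
            _ = b := by simp
        omega
      have : Fintype (sgD p b).ker := Fintype.ofFinite _
      let T : (sgD p b).ker → (Fin b → ZMod p) := fun u i => ((u : Fin b → (ZMod p)ˣ) i : ZMod p) * y i
      have hT : Function.Injective T := by
        intro u v huv
        apply Subtype.ext
        funext i
        have h1 := congrFun huv i
        exact Units.ext (mul_right_cancel₀ (hfull i) h1)
      have h2 : Fintype.card (sgD p b).ker ≤ ∑ z, n z := by
        calc Fintype.card (sgD p b).ker = ∑ z ∈ Finset.univ.image T, 1 := by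
              rw [Finset.sum_const, smul_eq_mul, mul_one, Finset.card_image_of_injective _ hT,
                Finset.card_univ]
          _ ≤ ∑ z ∈ Finset.univ.image T, n z := by
              refine Finset.sum_le_sum fun z hz => ?_
              obtain ⟨u, -, rfl⟩ := Finset.mem_image.mp hz
              have h3 : n y = n (T u) := by
                refine n_inv hθ f 1 hn (u : Fin b → (ZMod p)ˣ) 1 (fun i => rfl) ?_
                rw [sign_mono', Perm.sign_one, one_pow, one_mul]
                exact u.2
              omega
          _ ≤ ∑ z, n z := Finset.sum_le_sum_of_subset (Finset.subset_univ _)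
      rw [htot, ← Nat.card_eq_fintype_card] at h2
      have h3 := card_ker_sgD (p := p) (b := b)
      omega
  -- weight one
  have hone : ∀ y z : Fin b → ZMod p, wt y = 1 → wt z = 1 → n y = n z := fun y z hy hz =>
    hwt y z (by rw [hy, hz]) (by omega)
  let y1 : Fin b → ZMod p := Pi.single ⟨0, by omega⟩ 1
  have hy1 : wt y1 = 1 := by
    rw [wt, Finset.card_eq_one]
    refine ⟨⟨0, by omega⟩, ?_⟩
    ext i
    simp only [y1, Finset.mem_filter, Finset.mem_univ, true_and, Finset.mem_singleton]
    by_cases h : i = (⟨0, by omega⟩ : Fin b)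
    · subst h; simp
    · simp [h]
  have hc1 : b * (p - 1) * n y1 ≤ r := by
    have h2 : n y1 * (Finset.univ.filter fun z : Fin b → ZMod p => wt z = 1).card ≤ ∑ z, n z := by
      calc n y1 * (Finset.univ.filter fun z : Fin b → ZMod p => wt z = 1).card
          = ∑ z ∈ Finset.univ.filter (fun z : Fin b → ZMod p => wt z = 1), n y1 := by
            rw [Finset.sum_const, smul_eq_mul, mul_comm]
        _ ≤ ∑ z ∈ Finset.univ.filter (fun z : Fin b → ZMod p => wt z = 1), n z := by
            refine Finset.sum_le_sum fun z hz => ?_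
            have := hone z y1 (Finset.mem_filter.mp hz).2 hy1
            omega
        _ ≤ ∑ z, n z := Finset.sum_le_sum_of_subset (Finset.filter_subset _ _)
    rw [htot, card_wt_eq, ZMod.card, Nat.choose_one_right, pow_one, mul_comm] at h2
    exact h2
  have hformula : ∀ a : Fin b → ZMod p, ev θ (viaEmbeddingHom f (W 1 a))
      = (n 0 : ℂ) - n y1 * b + n y1 * p * (b - wtB a) := by
    intro a
    have h1 := hinv a
    simp only [Nat.cast_one, one_mul] at h1
    rw [h1, ← line_sum heprim (n 0 : ℂ) (n y1 : ℂ) a]
    refine Finset.sum_congr rfl fun y _ => ?_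
    rw [line_of_wt (n0 := (n 0 : ℂ)) (c := (n y1 : ℂ)) (N := fun y => (n y : ℂ)) rfl
      (fun y hy => by rw [hone y y1 hy hy1]) (fun y hy => by rw [hge2 y hy]; simp) y]
  refine ⟨n y1, hc1, fun a _ => ?_⟩
  have h3 := hformula a
  have h4 := hformula 0
  have h5 : wtB (0 : Fin b → ZMod p) = 0 := by simp [wtB]
  rw [h5, h0] at h4
  rw [h3]
  push_cast at h4 ⊢
  linear_combination -h4

end odd

lemma choose_two_big {m : ℕ} (hm : 8 ≤ m) : 2 * m ≤ m.choose 2 := by
  obtain ⟨k, rfl⟩ := Nat.exists_eq_add_of_le hm
  clear hm
  induction k with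
  | zero => decide
  | succ k ih =>
    rw [← add_assoc, Nat.choose_succ_succ' _ 1, Nat.choose_one_right]
    simp only [Nat.reduceAdd]
    omega

lemma choose_three_two {m : ℕ} (hm : 8 ≤ m) : 2 * m.choose 2 ≤ m.choose 3 := by
  obtain ⟨k, rfl⟩ := Nat.exists_eq_add_of_le hm
  clear hm
  induction k with
  | zero => decide
  | succ k ih =>
    rw [← add_assoc, Nat.choose_succ_succ' _ 2, Nat.choose_succ_succ' _ 1, Nat.choose_one_right]
    simp only [Nat.reduceAdd]
    have := choose_two_big (m := 8 + k) (by omega)
    omega

section two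

variable {m : ℕ} [Fact (Nat.Prime 2)]
variable {α : Type*} [Fintype α] [DecidableEq α] {θ : alternatingGroup α → ℂ}

/-- **The formula for the prime two.** -/
theorem fml_two (hθ : IsHeilbronn θ) {r : ℕ} (hr : θ 1 = r) (hm : 8 ≤ m)
    (hrk : r < m.choose 2) (f : Fin m × ZMod 2 ↪ α) : ∃ c : ℕ, m * c ≤ r ∧ Fml θ f r c := by
  classical
  set e : AddChar (ZMod 2) ℂ := AddChar.FiniteField.primitiveChar_to_Complex (ZMod 2) with he
  have heprim : e.IsPrimitive := AddChar.FiniteField.primitiveChar_to_Complex_isPrimitive (ZMod 2)
  have hι : 2 * Nat.card (Adm (Fin m) 2) = 2 ^ m := card_Adm_two (by omega)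
  choose n hn using exists_n (e := e) hθ f 2 hι
  have hinv := invert heprim hn
  have h0 : ev θ (viaEmbeddingHom f (W 1 (0 : Fin m → ZMod 2))) = r := by
    rw [W_one, map_one, ev_of (one_mem _), ← hr]
    rfl
  have htot : ∑ y, n y = 2 * r := by
    have h1 := hinv 0
    rw [h0] at h1
    simp only [Pi.zero_apply, mul_zero, Finset.sum_const_zero, AddChar.map_zero_eq_one,
      mul_one] at h1
    exact_mod_cast h1.symm
  have heven : ∀ a : Fin m → ZMod 2, ev θ (viaEmbeddingHom f (W 1 a)) ≠ 0 → ∑ i, a i = 0 := by
    intro a ha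
    by_contra h
    apply ha
    rw [ev_odd]
    rw [viaEmb_sign]
    intro h2
    exact h ((sign_tr_two a).mp h2)
  have hwt : ∀ y z : Fin m → ZMod 2, wt y = wt z → n y = n z := by
    intro y z hyz
    obtain ⟨u, σ, huσ⟩ := exists_monomial hyz
    exact n_inv hθ f 2 hn u σ huσ (sign_mono (by rw [ZMod.card]; exact even_two) u σ)
  have hadd : ∀ y a : Fin m → ZMod 2, ∑ i, (y + 1) i * a i = ∑ i, y i * a i + ∑ i, a i := by
    intro y a
    rw [← Finset.sum_add_distrib]
    refine Finset.sum_congr rfl fun i _ => ?_
    simp only [Pi.add_apply, Pi.one_apply]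
    ring
  have hcomp : ∀ y : Fin m → ZMod 2, n (y + 1) = n y := by
    intro y
    have hq : (((2 : ℕ) : ℂ) ^ m) ≠ 0 := pow_ne_zero _ (by norm_num)
    have h1 := hn (y + 1)
    have h2 : ∑ a, ((2 : ℕ) * ev θ (viaEmbeddingHom f (W 1 a))) * e (-∑ i, (y + 1) i * a i)
        = ∑ a, ((2 : ℕ) * ev θ (viaEmbeddingHom f (W 1 a))) * e (-∑ i, y i * a i) := by
      refine Finset.sum_congr rfl fun a _ => ?_
      by_cases ha : ev θ (viaEmbeddingHom f (W 1 a)) = 0
      · rw [ha]; ring
      · rw [hadd, heven a ha, add_zero]
    rw [h2, hn] at h1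
    exact_mod_cast (mul_right_cancel₀ hq h1).symm
  -- middle weights
  have hmid : ∀ y : Fin m → ZMod 2, 2 ≤ wt y → wt y + 2 ≤ m → n y = 0 := by
    intro y hy1 hy2
    by_contra hcon
    have hS : ∀ j, (j = wt y ∨ j + wt y = m) → ∀ z : Fin m → ZMod 2, wt z = j → 1 ≤ n z := by
      rintro j (hj | hj) z hz
      · have := hwt z y (by rw [hz, hj])
        omega
      · have h1 := hwt z (y + 1) (by have := wt_compl y; omega)
        have := hcomp y
        omega
    have hcount : ∀ T : Finset (Fin m → ZMod 2), (∀ z ∈ T, 1 ≤ n z) → T.card ≤ 2 * r := by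
      intro T hT
      rw [← htot]
      calc T.card = ∑ z ∈ T, 1 := by simp
        _ ≤ ∑ z ∈ T, n z := Finset.sum_le_sum hT
        _ ≤ ∑ z, n z := Finset.sum_le_sum_of_subset (Finset.subset_univ _)
    rcases eq_or_ne (wt y + wt y) m with h2 | h2
    · have h3 := hcount (Finset.univ.filter fun z => wt z = wt y) (fun z hz =>
        hS (wt y) (Or.inl rfl) z (Finset.mem_filter.mp hz).2)
      rw [card_wt_eq, ZMod.card] at h3
      simp only [Nat.add_one_sub_one, one_pow, mul_one] at h3
      have h4 := choose_three_le (b := m) (wt y) (by omega) (by omega)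
      have h5 := choose_three_two hm
      omega
    · have h3 := hcount ((Finset.univ.filter fun z => wt z = wt y) ∪
        (Finset.univ.filter fun z => wt z = m - wt y)) (fun z hz => by
          rcases Finset.mem_union.mp hz with h | h
          · exact hS (wt y) (Or.inl rfl) z (Finset.mem_filter.mp h).2
          · exact hS (m - wt y) (Or.inr (by omega)) z (Finset.mem_filter.mp h).2)
      rw [Finset.card_union_of_disjoint, card_wt_eq, card_wt_eq, ZMod.card] at h3
      · simp only [Nat.add_one_sub_one, one_pow, mul_one] at h3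
        have h4 := choose_two_le (b := m) (wt y) (by omega) (by omega)
        have h5 := choose_two_le (b := m) (m - wt y) (by omega) (by omega)
        omega
      · rw [Finset.disjoint_left]
        intro z hz hz'
        have e1 := (Finset.mem_filter.mp hz).2
        have e2 := (Finset.mem_filter.mp hz').2
        omega
  let y1 : Fin m → ZMod 2 := Pi.single ⟨0, by omega⟩ 1
  have hy1 : wt y1 = 1 := by
    rw [wt, Finset.card_eq_one]
    refine ⟨⟨0, by omega⟩, ?_⟩
    ext i
    simp only [y1, Finset.mem_filter, Finset.mem_univ, true_and, Finset.mem_singleton]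
    by_cases h : i = (⟨0, by omega⟩ : Fin m)
    · subst h; simp
    · simp [h]
  have hc1 : m * n y1 ≤ r := by
    have h2 : ∑ z ∈ (Finset.univ.filter fun z : Fin m → ZMod 2 => wt z = 1) ∪
        (Finset.univ.filter fun z : Fin m → ZMod 2 => wt z = m - 1), n y1 ≤ ∑ z, n z := by
      refine (Finset.sum_le_sum (g := n) fun z hz => ?_).trans
        (Finset.sum_le_sum_of_subset (Finset.subset_univ _))
      rcases Finset.mem_union.mp hz with h | h
      · have := hwt z y1 (by rw [(Finset.mem_filter.mp h).2, hy1])
        omega
      · have h3 := (Finset.mem_filter.mp h).2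
        have h4 := hwt z (y1 + 1) (by have := wt_compl y1; omega)
        have := hcomp y1
        omega
    rw [htot, Finset.sum_const, smul_eq_mul, Finset.card_union_of_disjoint, card_wt_eq,
      card_wt_eq, ZMod.card] at h2
    · simp only [Nat.add_one_sub_one, one_pow, mul_one, Nat.choose_one_right] at h2
      have h3 : m.choose (m - 1) = m := by
        rw [Nat.choose_symm (by omega), Nat.choose_one_right]
      rw [h3] at h2
      nlinarith
    · rw [Finset.disjoint_left]
      intro z hz hz'
      have e1 := (Finset.mem_filter.mp hz).2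
      have e2 := (Finset.mem_filter.mp hz').2
      omega
  let N : (Fin m → ZMod 2) → ℂ := fun y => if wt y ≤ 1 then (n y : ℂ) else 0
  have hN : ∀ y, N y = lineCoef (n 0 : ℂ) (n y1 : ℂ) y := by
    intro y
    refine line_of_wt ?_ ?_ ?_ y
    · have : wt (0 : Fin m → ZMod 2) = 0 := by simp [wt]
      simp only [N, this]
      simp
    · intro y hy
      simp only [N, hy]
      rw [hwt y y1 (by rw [hy, hy1])]
      simp
    · intro y hy
      simp only [N]
      rw [if_neg (by omega)]
  have hsplit : ∀ y, (n y : ℂ) = N y + N (y + 1) := by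
    intro y
    have h1 := wt_compl y
    simp only [N]
    rcases Nat.lt_or_ge 1 (wt y) with h | h
    · rcases Nat.lt_or_ge 1 (wt (y + 1)) with h' | h'
      · rw [if_neg (by omega), if_neg (by omega), hmid y h (by omega)]
        simp
      · rw [if_neg (by omega), if_pos h', hcomp, zero_add]
    · rw [if_pos h, if_neg (by omega), add_zero]
  have hformula : ∀ a : Fin m → ZMod 2, Perm.sign (W (1 : Perm (Fin m)) a) = 1 →
      ev θ (viaEmbeddingHom f (W 1 a))
      = (n 0 : ℂ) - n y1 * m + n y1 * 2 * (m - wtB a) := by
    intro a ha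
    have ha0 : ∑ i, a i = 0 := (sign_tr_two a).mp ha
    have h1 := hinv a
    have h2 : ∑ y, (n y : ℂ) * e (∑ i, y i * a i) = 2 * ∑ y, N y * e (∑ i, y i * a i) := by
      rw [Finset.sum_congr rfl (fun y _ => by rw [hsplit y, add_mul]), Finset.sum_add_distrib,
        two_mul]
      congr 1
      rw [← Equiv.sum_comp (Equiv.addRight (1 : Fin m → ZMod 2))
        (fun y => N y * e (∑ i, y i * a i))]
      refine Finset.sum_congr rfl fun y _ => ?_
      simp only [Equiv.coe_addRight]
      rw [hadd, ha0, add_zero]
    have h3 := line_sum heprim (n 0 : ℂ) (n y1 : ℂ) a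
    rw [h2, Finset.sum_congr rfl (fun y _ => by rw [hN y]), h3] at h1
    have h4 : (2 : ℂ) ≠ 0 := by norm_num
    apply mul_left_cancel₀ h4
    have h5 : (((2 : ℕ) : ℂ)) = 2 := by norm_num
    rw [h5] at h1
    exact h1
  have hs0 : Perm.sign (W (1 : Perm (Fin m)) (0 : Fin m → ZMod 2)) = 1 := by
    rw [W_one, Perm.sign_one]
  refine ⟨n y1, hc1, fun a ha => ?_⟩
  have h3 := hformula a ha
  have h4 := hformula 0 hs0
  have h5 : wtB (0 : Fin m → ZMod 2) = 0 := by simp [wtB]
  rw [h5, h0] at h4
  rw [h3]
  push_cast at h4 ⊢
  linear_combination -h4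

end two

end Pool.Agent.X21.Qd
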