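import Mathlib
import Pool.Agent.X21.Qd.A2

/-!
# Numerical bounds, independence of the embedding
-/

set_option autoImplicit false
set_option linter.unusedSectionVars false

namespace Pool.Agent.X21.Qd

open Pool.Agent.H302R2 Pool.Agent.X21.Sy Subgroup Equiv Equiv.Perm

section numbers

lemma sq_le_two_pow {b : ℕ} (hb : 4 ≤ b) : b * b ≤ 2 ^ b := by
  obtain ⟨k, rfl⟩ := Nat.exists_eq_add_of_le hb
  clear hb
  induction k with
  | zero => decide
  | succ k ih =>
    rw [← add_assoc, pow_succ]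
    nlinarith

lemma full_aux {q : ℕ} (hq : 3 ≤ q) (k : ℕ) :
    (q * (k + 3) + k) * (q * (k + 3) + k) ≤ 9 * q ^ (k + 2) := by
  induction k with
  | zero => simp; ring_nf; rfl
  | succ k ih =>
    set X := q * (k + 3) + k with hX
    have h1 : q * (k + 1 + 3) + (k + 1) = X + q + 1 := by rw [hX]; ring
    rw [h1]
    have h2 : q ^ (k + 1 + 2) = q ^ (k + 2) * q := by rw [← pow_succ]
    rw [h2]
    have h3 : 3 * q ≤ X := by rw [hX]; nlinarith [Nat.zero_le (q * k)]
    have h4 : 9 * (X + q + 1) ≤ 13 * X := by omega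
    have h5 : (9 * (X + q + 1)) * (9 * (X + q + 1)) ≤ (13 * X) * (13 * X) :=
      Nat.mul_le_mul h4 h4
    have h6 : (X + q + 1) * (X + q + 1) ≤ 3 * (X * X) := by nlinarith
    have h7 : 3 * (X * X) ≤ q * (X * X) := Nat.mul_le_mul_right _ hq
    calc (X + q + 1) * (X + q + 1) ≤ q * (X * X) := h6.trans h7
      _ ≤ q * (9 * q ^ (k + 2)) := Nat.mul_le_mul_left _ ih
      _ = 9 * (q ^ (k + 2) * q) := by ring

variable {n p b r : ℕ}

lemma num_full (hp : 3 ≤ p) (hb : 2 ≤ b) (hn : n + 1 ≤ p * (b + 1)) (hn12 : 12 ≤ n)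
    (h : 18 * r < (n - 2) * (n - 2)) : 2 * r < (p - 1) ^ b := by
  suffices hs : (n - 2) * (n - 2) ≤ 9 * (p - 1) ^ b by omega
  rcases eq_or_ne p 3 with h3 | h3
  · subst h3
    have hb4 : 4 ≤ b := by omega
    have h1 : n - 2 ≤ 3 * b := by omega
    calc (n - 2) * (n - 2) ≤ (3 * b) * (3 * b) := Nat.mul_le_mul h1 h1
      _ = 9 * (b * b) := by ring
      _ ≤ 9 * (3 - 1) ^ b := Nat.mul_le_mul_left _ (sq_le_two_pow hb4)
  · obtain ⟨q, rfl⟩ : ∃ q, p = q + 1 := ⟨p - 1, by omega⟩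
    obtain ⟨k, rfl⟩ : ∃ k, b = k + 2 := ⟨b - 2, by omega⟩
    simp only [Nat.add_sub_cancel]
    have h1 : n - 2 ≤ q * (k + 3) + k := by
      have : (q + 1) * (k + 2 + 1) = q * (k + 3) + k + 3 := by ring
      omega
    exact (Nat.mul_le_mul h1 h1).trans (full_aux (by omega) k)

lemma num_w {w : ℕ} (hp : 3 ≤ p) (hw : 2 ≤ w) (hwb : w < b) (hn : n + 1 ≤ p * (b + 1))
    (h : 18 * r < (n - 2) * (n - 2)) : r < b.choose w * (p - 1) ^ w := by
  obtain ⟨q, rfl⟩ : ∃ q, p = q + 1 := ⟨p - 1, by omega⟩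
  simp only [Nat.add_sub_cancel]
  have h1 : n - 2 + 2 ≤ q * (b + 1) + b := by
    have : (q + 1) * (b + 1) = q * (b + 1) + b + 1 := by ring
    have h0 : 2 ≤ q * (b + 1) := by nlinarith
    omega
  have h2 : 2 * (n - 2) ≤ 3 * (b * q) := by
    have h3 : (b - 2) * 2 ≤ (b - 2) * q := Nat.mul_le_mul_left _ (by omega)
    obtain ⟨k, rfl⟩ : ∃ k, b = k + 2 := ⟨b - 2, by omega⟩
    simp only [Nat.add_sub_cancel] at h3
    nlinarith
  have h4 : (2 * (n - 2)) * (2 * (n - 2)) ≤ (3 * (b * q)) * (3 * (b * q)) := Nat.mul_le_mul h2 h2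
  -- `choose b 2 * q ^ 2 ≤ choose b w * q ^ w`
  have h5 : 2 * b.choose 2 = b * (b - 1) := by
    rw [Nat.choose_two_right, Nat.mul_div_cancel' (even_iff_two_dvd.mp (Nat.even_mul_pred_self b))]
  have h6 : b.choose 2 * q ^ 2 ≤ b.choose w * q ^ w := by
    rcases Nat.lt_or_ge (w + 1) b with h7 | h7
    · exact Nat.mul_le_mul (choose_two_le w hw (by omega)) (Nat.pow_le_pow_right (by omega) hw)
    · have hwb' : b = w + 1 := by omega
      subst hwb'
      obtain ⟨k, rfl⟩ : ∃ k, w = k + 2 := ⟨w - 2, by omega⟩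
      have h8 : (k + 2 + 1).choose (k + 2) = k + 3 := by
        rw [Nat.choose_succ_self_right]
      rw [h8]
      have h9 : q ^ (k + 2) = q ^ k * q ^ 2 := by rw [pow_add]
      rw [h9, ← mul_assoc]
      refine Nat.mul_le_mul_right _ ?_
      have h10 : k + 1 ≤ 2 ^ k := Nat.lt_two_pow_self
      have h11 : 2 ^ k ≤ q ^ k := Nat.pow_le_pow_left (by omega) k
      have h12 : 2 * (k + 2 + 1).choose 2 = (k + 3) * (k + 2) := h5
      have h13 : (k + 3) * (k + 2) ≤ 2 * ((k + 3) * q ^ k) := by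
        have : k + 2 ≤ 2 * q ^ k := by omega
        calc (k + 3) * (k + 2) ≤ (k + 3) * (2 * q ^ k) := Nat.mul_le_mul_left _ this
          _ = 2 * ((k + 3) * q ^ k) := by ring
      omega
  refine lt_of_lt_of_le ?_ h6
  obtain ⟨k, rfl⟩ : ∃ k, b = k + 2 := ⟨b - 2, by omega⟩
  simp only [Nat.add_sub_cancel, Nat.add_succ_sub_one] at h5
  have h7 : 2 * ((k + 2).choose 2 * q ^ 2) = (k + 2) * (k + 1) * (q * q) := by
    rw [← mul_assoc, h5]; ring
  have hk : 1 ≤ k := by omega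
  have h8 : (3 * ((k + 2) * q)) * (3 * ((k + 2) * q)) ≤ 36 * ((k + 2) * (k + 1) * (q * q)) := by
    have h9 : 9 * (k + 2) ≤ 36 * (k + 1) := by omega
    calc (3 * ((k + 2) * q)) * (3 * ((k + 2) * q)) = (9 * (k + 2)) * ((k + 2) * (q * q)) := by ring
      _ ≤ (36 * (k + 1)) * ((k + 2) * (q * q)) := Nat.mul_le_mul_right _ h9
      _ = _ := by ring
  have h9 : 72 * r < 36 * ((k + 2) * (k + 1) * (q * q)) := by
    calc 72 * r < 4 * ((n - 2) * (n - 2)) := by omega
      _ = (2 * (n - 2)) * (2 * (n - 2)) := by ring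
      _ ≤ _ := h4.trans h8
  omega

lemma num_two (hn : n ≤ 2 * b + 1) (hb : 2 ≤ b) (h : 18 * r < (n - 2) * (n - 2)) :
    r < b.choose 2 := by
  have h5 : 2 * b.choose 2 = b * (b - 1) := by
    rw [Nat.choose_two_right, Nat.mul_div_cancel' (even_iff_two_dvd.mp (Nat.even_mul_pred_self b))]
  obtain ⟨k, rfl⟩ : ∃ k, b = k + 2 := ⟨b - 2, by omega⟩
  simp only [Nat.add_succ_sub_one] at h5
  have h1 : n - 2 ≤ 2 * k + 3 := by omega
  have h2 := Nat.mul_le_mul h1 h1
  nlinarith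

lemma num_strip {c : ℕ} (hp : 3 ≤ p) (hpn : 2 * p + 2 ≤ n) (hb : n + 1 ≤ p * (b + 1))
    (hc : b * (p - 1) * c ≤ r) (h : 18 * r < (n - 2) * (n - 2)) : c + 2 < n - p := by
  by_contra hcon
  push Not at hcon
  obtain ⟨q, rfl⟩ : ∃ q, p = q + 1 := ⟨p - 1, by omega⟩
  simp only [Nat.add_sub_cancel] at hc
  obtain ⟨m, hm⟩ : ∃ m, n = q + 1 + m := ⟨n - (q + 1), by omega⟩
  subst hm
  have hm2 : q + 3 ≤ m := by omega
  have hcm : m ≤ c + 2 := by omega
  have h1 : q + 1 + m - 2 = q + m - 1 := by omega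
  rw [h1] at h
  -- `b (q+1) ≥ m + 1`
  have h2 : m + 1 ≤ (q + 1) * b := by
    have : (q + 1) * (b + 1) = (q + 1) * b + q + 1 := by ring
    omega
  have h3 : 2 * (m + 1) ≤ 3 * (b * q) := by nlinarith
  have h4 : b * q * (m - 2) ≤ r := (Nat.mul_le_mul_left _ (by omega)).trans hc
  obtain ⟨s, hs⟩ : ∃ s, m = s + 2 := ⟨m - 2, by omega⟩
  subst hs
  simp only [Nat.add_sub_cancel] at h4
  have h5 : 2 * (s + 2 + 1) * s ≤ 3 * r := by
    calc 2 * (s + 2 + 1) * s ≤ 3 * (b * q) * s := Nat.mul_le_mul_right _ h3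
      _ = 3 * (b * q * s) := by ring
      _ ≤ 3 * r := Nat.mul_le_mul_left _ h4
  have h6 : q + (s + 2) - 1 ≤ 2 * s := by omega
  have h7 := Nat.mul_le_mul h6 h6
  nlinarith

end numbers

section emb

variable {α : Type*} [Fintype α] [DecidableEq α] {θ : alternatingGroup α → ℂ}

lemma exists_perm_emb {X : Type} [Fintype X] (f f' : X ↪ α) : ∃ π : Perm α, ∀ x, π (f x) = f' x := by
  classical
  let e : {y // y ∈ Set.range f} ≃ {y // y ∈ Set.range f'} :=
    (Equiv.ofInjective f f.injective).symm.trans (Equiv.ofInjective f' f'.injective)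
  refine ⟨e.extendSubtype, fun x => ?_⟩
  rw [Equiv.extendSubtype_apply_of_mem e (f x) ⟨x, rfl⟩]
  have : (Equiv.ofInjective f f.injective).symm ⟨f x, ⟨x, rfl⟩⟩ = x :=
    (Equiv.symm_apply_eq _).mpr rfl
  change ((Equiv.ofInjective f' f'.injective)
    ((Equiv.ofInjective f f.injective).symm ⟨f x, ⟨x, rfl⟩⟩) : α) = f' x
  rw [this]
  rfl

lemma via_conj {X : Type} (f f' : X ↪ α) {π : Perm α} (hπ : ∀ x, π (f x) = f' x) (w : Perm X) :
    viaEmbeddingHom f' w = π * viaEmbeddingHom f w * π⁻¹ := by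
  rw [eq_mul_inv_iff_mul_eq]
  ext y
  rw [Perm.mul_apply, Perm.mul_apply]
  by_cases hy : ∃ x, f x = y
  · obtain ⟨x, rfl⟩ := hy
    rw [viaEmb_apply, hπ, hπ, viaEmb_apply]
  · push Not at hy
    rw [viaEmb_notMem f _ hy, viaEmb_notMem]
    intro x hx
    apply hy x
    apply π.injective
    rw [hπ, hx]

/-- conjugacy in `S_n` with an odd element of the centralizer -/
lemma ev_conj' (hθ : IsHeilbronn θ) (c g d : Perm α) (hd : Perm.sign d = -1)
    (hdg : d * g = g * d) : ev θ (c * g * c⁻¹) = ev θ g := by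
  rcases Int.units_eq_one_or (Perm.sign c) with h | h
  · exact ev_conj hθ h g
  · have h1 : c * g * c⁻¹ = (c * d) * g * (c * d)⁻¹ := by
      rw [mul_inv_rev, mul_assoc c d g, hdg]; group
    rw [h1]
    refine ev_conj hθ ?_ g
    rw [map_mul, h, hd]; decide

variable {p : ℕ} [Fact p.Prime]

/-- an odd permutation of one block -/
lemma exists_block_odd (hp2 : 2 ≤ p) {B : Type} [Fintype B] [DecidableEq B] (i : B)
    (f : B × ZMod p ↪ α) : ∃ d : Perm α, Perm.sign d = -1 ∧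
      ∀ (σ : Perm B) (a : B → ZMod p), σ i = i → a i = 0 →
        d * viaEmbeddingHom f (W σ a) = viaEmbeddingHom f (W σ a) * d := by
  have h01 : (0 : ZMod p) ≠ 1 := by
    have : Fact (1 < p) := ⟨by omega⟩
    exact zero_ne_one
  have hne : (i, (0 : ZMod p)) ≠ (i, 1) := by
    intro h; exact h01 (congrArg Prod.snd h)
  refine ⟨viaEmbeddingHom f (Equiv.swap (i, 0) (i, 1)), ?_, ?_⟩
  · rw [viaEmb_sign, Perm.sign_swap hne]
  · intro σ a hσ ha
    rw [← map_mul, ← map_mul]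
    congr 1
    have h1 : W σ a (i, 0) = (i, 0) := by rw [W_apply]; simp [hσ, ha]
    have h2 : W σ a (i, 1) = (i, 1) := by rw [W_apply]; simp [hσ, ha]
    have := Equiv.mul_swap_eq_swap_mul (W σ a) (i, (0 : ZMod p)) (i, 1)
    rw [h1, h2] at this
    exact this.symm

/-- independence of the embedding -/
lemma emb_indep (hθ : IsHeilbronn θ) {B : Type} [Fintype B] [DecidableEq B] (i : B)
    (f f' : B × ZMod p ↪ α) (σ : Perm B) (a : B → ZMod p) (hσ : σ i = i) (ha : a i = 0) :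
    ev θ (viaEmbeddingHom f' (W σ a)) = ev θ (viaEmbeddingHom f (W σ a)) := by
  obtain ⟨π, hπ⟩ := exists_perm_emb f f'
  obtain ⟨d, hd, hdc⟩ := exists_block_odd (Fact.out : p.Prime).two_le i f
  rw [via_conj f f' hπ]
  exact ev_conj' hθ π _ d hd (hdc σ a hσ ha)

/-- extension of embeddings -/
lemma exists_ext {B : Type} [Fintype B] [DecidableEq B] (f : B × ZMod p ↪ α) (b : ℕ)
    (hb : Fintype.card B ≤ b) (hbn : b * p ≤ Fintype.card α) :
    ∃ F : (B ⊕ Fin (b - Fintype.card B)) × ZMod p ↪ α, ∀ i z, F (Sum.inl i, z) = f (i, z) := by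
  classical
  have h1 : Fintype.card (Fin (b - Fintype.card B) × ZMod p)
      ≤ Fintype.card {y // y ∉ Set.range f} := by
    rw [Fintype.card_prod, ZMod.card, Fintype.card_fin]
    have h2 : Fintype.card {y // y ∈ Set.range f} = Fintype.card B * p := by
      rw [← Fintype.card_congr (Equiv.ofInjective f f.injective), Fintype.card_prod, ZMod.card]
    have h3 : Fintype.card {y // y ∉ Set.range f} = Fintype.card α
        - Fintype.card {y // y ∈ Set.range f} := Fintype.card_subtype_compl _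
    rw [h3, h2, Nat.sub_mul]
    omega
  obtain ⟨g⟩ := Function.Embedding.nonempty_of_card_le h1
  refine ⟨⟨fun x => Sum.elim (fun i => f (i, x.2)) (fun j => (g (j, x.2) : α)) x.1, ?_⟩, ?_⟩
  · rintro ⟨i | j, z⟩ ⟨i' | j', z'⟩ h
    · simp only [Sum.elim_inl] at h
      have := f.injective h
      simp only [Prod.mk.injEq] at this
      rw [this.1, this.2]
    · simp only [Sum.elim_inl, Sum.elim_inr] at h
      exact absurd ⟨_, h⟩ (g (j', z')).2
    · simp only [Sum.elim_inl, Sum.elim_inr] at h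
      exact absurd ⟨_, h.symm⟩ (g (j, z)).2
    · simp only [Sum.elim_inr] at h
      have := g.injective (Subtype.ext h)
      simp only [Prod.mk.injEq] at this
      rw [this.1, this.2]
  · intro i z
    rfl

lemma via_ext {B B' : Type} (f : B × ZMod p ↪ α) (F : (B ⊕ B') × ZMod p ↪ α)
    (hF : ∀ i z, F (Sum.inl i, z) = f (i, z)) (σ : Perm B) (a : B → ZMod p) :
    viaEmbeddingHom f (W σ a)
      = viaEmbeddingHom F (W (Equiv.sumCongr σ (1 : Perm B')) (Sum.elim a 0)) := by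
  ext y
  by_cases hy : ∃ x, F x = y
  · obtain ⟨⟨i | j, z⟩, rfl⟩ := hy
    · rw [viaEmb_apply, hF, viaEmb_apply, W_apply, W_apply]
      simp only [Sum.elim_inl]
      change f (σ i, z + a i) = F (Sum.inl (σ i), z + a i)
      rw [hF]
    · rw [viaEmb_apply, W_apply, viaEmb_notMem]
      · simp
      · rintro ⟨i, z'⟩ h
        rw [← hF] at h
        have := congrArg Prod.fst (F.injective h)
        simp at this
  · push Not at hy
    rw [viaEmb_notMem F _ hy, viaEmb_notMem]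
    rintro ⟨i, z⟩ h
    exact hy (Sum.inl i, z) (by rw [hF]; exact h)

lemma Fml_ext {B B' : Type} [Fintype B] [DecidableEq B] [Fintype B'] [DecidableEq B']
    (f : B × ZMod p ↪ α) (F : (B ⊕ B') × ZMod p ↪ α)
    (hF : ∀ i z, F (Sum.inl i, z) = f (i, z)) {r c : ℂ} (h : Fml θ F r c) : Fml θ f r c := by
  intro a ha
  have e1 := via_ext f F hF 1 a
  have e2 : (Equiv.sumCongr (1 : Perm B) (1 : Perm B')) = 1 := by
    ext x; cases x <;> rfl
  rw [e2] at e1
  have hs : Perm.sign (W (1 : Perm (B ⊕ B')) (Sum.elim a 0)) = 1 := by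
    rw [← viaEmb_sign F, ← e1, viaEmb_sign, ha]
  rw [e1, h _ hs]
  congr 2
  rw [wtB, wtB]
  norm_cast
  symm
  refine Finset.card_bij (fun i _ => Sum.inl i) ?_ ?_ ?_
  · intro i hi
    simpa using hi
  · intro i _ j _ hij
    exact Sum.inl_injective hij
  · rintro (i | j) hj
    · exact ⟨i, by simpa using hj, rfl⟩
    · simp at hj

/-- the formula for all systems of blocks of size `p` -/
def PF (θ : alternatingGroup α → ℂ) (p : ℕ) [Fact p.Prime] (r c : ℂ) : Prop :=
  ∀ (B : Type) [Fintype B] [DecidableEq B] (f : B × ZMod p ↪ α), Fml θ f r c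

lemma PF_of (hθ : IsHeilbronn θ) {b r : ℕ} (hb3 : 3 ≤ b ∨ (2 ≤ b ∧ p ≠ 2))
    (hbn : b * p ≤ Fintype.card α) (hbn' : Fintype.card α < p * (b + 1)) {P : ℕ → Prop}
    (h : ∀ f : Fin b × ZMod p ↪ α, ∃ c : ℕ, P c ∧ Fml θ f r c) :
    ∃ c : ℕ, P c ∧ PF θ p r c := by
  classical
  have hpp : p.Prime := Fact.out
  have hp2 := hpp.two_le
  obtain ⟨f₀⟩ : Nonempty (Fin b × ZMod p ↪ α) := by
    apply Function.Embedding.nonempty_of_card_le
    rw [Fintype.card_prod, ZMod.card p, Fintype.card_fin]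
    exact hbn
  obtain ⟨c, hPc, hc⟩ := h f₀
  have h1 : ∀ f : Fin b × ZMod p ↪ α, Fml θ f r c := by
    intro f
    obtain ⟨c', -, hc'⟩ := h f
    -- a vector of small weight
    obtain ⟨a, i, hs, hai, hwa⟩ : ∃ (a : Fin b → ZMod p) (i : Fin b),
        Perm.sign (W (1 : Perm (Fin b)) a) = 1 ∧ a i = 0 ∧ wtB a ≠ 0 := by
      have hone : (1 : ZMod p) ≠ 0 := by
        have : Fact (1 < p) := ⟨by omega⟩
        exact one_ne_zero
      by_cases h2 : p = 2
      · subst h2
        have hb : 3 ≤ b := by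
          rcases hb3 with h | h
          · exact h
          · exact absurd rfl h.2
        have h01 : (⟨0, by omega⟩ : Fin b) ≠ ⟨1, by omega⟩ := by simp
        obtain ⟨e1, -⟩ := W_invol h01 f
        refine ⟨_, ⟨2, by omega⟩, e1, ?_, ?_⟩
        · simp
        · rw [wtB]
          apply Finset.card_ne_zero_of_mem (a := (⟨0, by omega⟩ : Fin b))
          simp
      · have hb : 2 ≤ b := by
          rcases hb3 with h | h
          · omega
          · exact h.1
        refine ⟨Pi.single ⟨0, by omega⟩ 1, ⟨1, by omega⟩, sign_tr_odd h2 _, ?_, ?_⟩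
        · simp
        · rw [wtB]
          apply Finset.card_ne_zero_of_mem (a := (⟨0, by omega⟩ : Fin b))
          simp
    have e1 := hc a hs
    have e2 := hc' a hs
    have e3 := emb_indep hθ i f₀ f 1 a rfl hai
    rw [e1, e2] at e3
    have e4 : (p : ℂ) * wtB a ≠ 0 := by
      rw [mul_ne_zero_iff]
      exact ⟨by exact_mod_cast hpp.ne_zero, by exact_mod_cast hwa⟩
    have e5 : (c' : ℂ) = c := by
      apply mul_left_cancel₀ e4
      linear_combination -e3
    rw [← e5]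
    exact hc'
  refine ⟨c, hPc, ?_⟩
  intro B _ _ f
  have hcard : Fintype.card B ≤ b := by
    have h2 : Fintype.card B * p ≤ Fintype.card α := by
      have := Fintype.card_le_of_embedding f
      rwa [Fintype.card_prod, ZMod.card p] at this
    have h3 : Fintype.card B * p < (b + 1) * p := by rw [mul_comm (b + 1)]; omega
    have := Nat.lt_of_mul_lt_mul_right h3
    omega
  obtain ⟨F, hF⟩ := exists_ext f b hcard hbn
  refine Fml_ext f F hF ?_
  have ε : Fin b ≃ (B ⊕ Fin (b - Fintype.card B)) := by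
    refine (Fintype.equivFinOfCardEq ?_).symm
    rw [Fintype.card_sum, Fintype.card_fin]
    omega
  exact Fml_transport ε F (h1 _)

/-- **All primes**: the constants. -/
theorem exists_PF (hθ : IsHeilbronn θ) {r : ℕ} (hr : θ 1 = r) (hn : 16 ≤ Fintype.card α)
    (hlt : 18 * r < (Fintype.card α - 2) * (Fintype.card α - 2)) (h2p : 2 * p ≤ Fintype.card α) :
    ∃ c : ℕ, (p ≠ 2 → Fintype.card α / p * (p - 1) * c ≤ r) ∧ PF θ p r c := by
  have hpp : p.Prime := Fact.out
  have hp2 := hpp.two_le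
  set n := Fintype.card α with hnn
  have hd1 : n / p * p ≤ n := Nat.div_mul_le_self _ _
  have hd2 : n < p * (n / p + 1) := by
    have := Nat.lt_mul_div_succ n (show 0 < p by omega)
    exact this
  have hb2 : 2 ≤ n / p := (Nat.le_div_iff_mul_le (by omega)).mpr (by omega)
  by_cases h2 : p = 2
  · subst h2
    have hb8 : 8 ≤ n / 2 := by omega
    refine PF_of hθ (b := n / 2) (Or.inl (by omega)) hd1 hd2 ?_
    intro f
    obtain ⟨c, -, hc⟩ := fml_two hθ hr hb8 (num_two (n := n) (by omega) (by omega) hlt) f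
    exact ⟨c, fun h => absurd rfl h, hc⟩
  · have hp3 : 3 ≤ p := by omega
    refine PF_of hθ (b := n / p) (Or.inr ⟨hb2, h2⟩) hd1 hd2 ?_
    intro f
    obtain ⟨c, hc1, hc⟩ := fml_odd hθ hr h2 hb2
      (fun w hw1 hw2 => num_w hp3 hw1 hw2 (by omega) hlt)
      (num_full hp3 hb2 (by omega) (by omega) hlt) f
    exact ⟨c, fun _ => hc1, hc⟩

end emb

end Pool.Agent.X21.Qd
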