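import Mathlib
import Pool.Agent.X21.Qd.A3

/-!
# Stripping cycles of odd prime length
-/

set_option autoImplicit false
set_option linter.unusedSectionVars false

namespace Pool.Agent.X21.Qd

open Pool.Agent.H302R2 Pool.Agent.X21.Sy Subgroup Equiv Equiv.Perm

section part

universe u v w

variable {G : Type u} [Group G] [Finite G] {θ : G → ℂ}
variable {C : Type v} [Group C] [Fintype C] {K : Type w} [Group K] [Finite K]

/-- the part of `θ` where the first factor acts by `l` -/
noncomputable def part (θ : G → ℂ) (φ : C × K →* G) (l : C →* ℂˣ) (k : K) : ℂ :=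
  (Nat.card C : ℂ)⁻¹ * ∑ c : C, θ (φ (c, k)) * (((l c)⁻¹ : ℂˣ) : ℂ)

lemma part_isHeilbronn (hθ : IsHeilbronn θ) (φ : C × K →* G) (l : C →* ℂˣ) :
    IsHeilbronn (part θ φ l) where
  conj k h := by
    unfold part
    congr 1
    refine Finset.sum_congr rfl fun c _ => ?_
    congr 1
    rw [← hθ.conj (φ (c, k)) (φ (1, h)), ← map_inv, ← map_mul, ← map_mul]
    congr 2
    simp
  mult H χ := by
    classical
    have : Fintype H := Fintype.ofFinite _
    have : Fintype K := Fintype.ofFinite _
    obtain ⟨n, hn⟩ := hθ.mult_hom (φ.comp ((MonoidHom.id C).prodMap H.subtype))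
      ((l.comp (MonoidHom.fst C H)) * (χ.comp (MonoidHom.snd C H)))
    refine ⟨n, ?_⟩
    have hC : (Nat.card C : ℂ) ≠ 0 := by exact_mod_cast Nat.card_pos.ne'
    rw [Fintype.sum_prod_type, Finset.sum_comm, Nat.card_prod] at hn
    rw [finsum_eq_sum_of_fintype]
    have h1 : ∀ h : H, part θ φ l h * (((χ h)⁻¹ : ℂˣ) : ℂ)
        = (Nat.card C : ℂ)⁻¹ * ∑ c : C, θ ((φ.comp ((MonoidHom.id C).prodMap H.subtype)) (c, h)) *
          (((((l.comp (MonoidHom.fst C H)) * (χ.comp (MonoidHom.snd C H))) (c, h))⁻¹ : ℂˣ) : ℂ) := by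
      intro h
      unfold part
      rw [mul_assoc, Finset.sum_mul]
      congr 1
      refine Finset.sum_congr rfl fun c _ => ?_
      simp only [MonoidHom.comp_apply, MonoidHom.mul_apply, MonoidHom.coe_fst, MonoidHom.coe_snd,
        mul_inv, Units.val_mul]
      rw [← mul_assoc]
      rfl
    rw [Finset.sum_congr rfl (fun h _ => h1 h), ← Finset.mul_sum, hn]
    push_cast
    field_simp

end part

section strip

variable {α : Type} [Fintype α] [DecidableEq α] {θ : alternatingGroup α → ℂ}
variable {p : ℕ} [Fact p.Prime]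

/-- translations of one block -/
noncomputable def trU (p : ℕ) : Multiplicative (ZMod p) →* Perm (Unit × ZMod p) :=
  (tr Unit p).comp (AddMonoidHom.toMultiplicative
    { toFun := fun z _ => z, map_zero' := rfl, map_add' := fun _ _ => rfl })

lemma trU_apply (z : ZMod p) : trU p (Multiplicative.ofAdd z) = W 1 (fun _ => z) := rfl

lemma via_commute {X Y : Type} (f : X ↪ α) (j : Y ↪ α) (hd : ∀ x y, f x ≠ j y) (w : Perm X)
    (k : Perm Y) : Commute (viaEmbeddingHom f w) (viaEmbeddingHom j k) := by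
  change viaEmbeddingHom f w * viaEmbeddingHom j k = viaEmbeddingHom j k * viaEmbeddingHom f w
  have h1 : ∀ x, viaEmbeddingHom j k (f x) = f x := fun x =>
    viaEmb_notMem j k (fun y h => hd x y h.symm)
  have h2 : ∀ y, viaEmbeddingHom f w (j y) = j y := fun y =>
    viaEmb_notMem f w (fun x h => hd x y h)
  ext y
  rw [Perm.mul_apply, Perm.mul_apply]
  by_cases hy : ∃ x, f x = y
  · obtain ⟨x, rfl⟩ := hy
    rw [h1, viaEmb_apply, h1]
  · push Not at hy
    rw [viaEmb_notMem f _ hy]
    by_cases hy' : ∃ x, j x = y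
    · obtain ⟨x, rfl⟩ := hy'
      rw [viaEmb_apply, h2]
    · push Not at hy'
      rw [viaEmb_notMem j _ hy', viaEmb_notMem f _ hy]

variable {β : Type} [Fintype β] [DecidableEq β]

/-- the translations of the block -/
noncomputable def tU (f : Unit × ZMod p ↪ α) : Multiplicative (ZMod p) →* Perm α :=
  (viaEmbeddingHom f).comp (trU p)

/-- the even permutations of the complement -/
noncomputable def aU (j : β ↪ α) : alternatingGroup β →* Perm α :=
  (viaEmbeddingHom j).comp (alternatingGroup β).subtype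

lemma tU_commute (f : Unit × ZMod p ↪ α) (j : β ↪ α) (hd : ∀ x y, f x ≠ j y)
    (c : Multiplicative (ZMod p)) (k : alternatingGroup β) : Commute (tU f c) (aU j k) := by
  have h1 : tU f c = viaEmbeddingHom f (trU p c) := rfl
  have h2 : aU j k = viaEmbeddingHom j (k : Perm β) := rfl
  rw [h1, h2]
  exact via_commute f j hd _ _

/-- the homomorphism of the product, into the symmetric group -/
noncomputable def phS0 (f : Unit × ZMod p ↪ α) (j : β ↪ α) (hd : ∀ x y, f x ≠ j y) :
    Multiplicative (ZMod p) × alternatingGroup β →* Perm α :=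
  MonoidHom.noncommCoprod (tU f) (aU j) (tU_commute f j hd)

lemma phS0_mem (hp : p ≠ 2) (f : Unit × ZMod p ↪ α) (j : β ↪ α) (hd : ∀ x y, f x ≠ j y)
    (x : Multiplicative (ZMod p) × alternatingGroup β) :
    phS0 f j hd x ∈ alternatingGroup α := by
  obtain ⟨c, k⟩ := x
  obtain ⟨k, hk⟩ := k
  have h0 : phS0 f j hd (c, ⟨k, hk⟩) = viaEmbeddingHom f (W 1 (fun _ => Multiplicative.toAdd c))
    * viaEmbeddingHom j k := rfl
  rw [h0]
  exact mul_mem (via_mem f (sign_tr_odd hp _)) (via_mem j (mem_alternatingGroup.mp hk))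

/-- the homomorphism of the product -/
noncomputable def phS (hp : p ≠ 2) (f : Unit × ZMod p ↪ α) (j : β ↪ α) (hd : ∀ x y, f x ≠ j y) :
    Multiplicative (ZMod p) × alternatingGroup β →* alternatingGroup α :=
  (phS0 f j hd).codRestrict (alternatingGroup α) (phS0_mem hp f j hd)

lemma phS_coe (hp : p ≠ 2) (f : Unit × ZMod p ↪ α) (j : β ↪ α) (hd : ∀ x y, f x ≠ j y)
    (z : ZMod p) (k : alternatingGroup β) :
    (phS hp f j hd (Multiplicative.ofAdd z, k) : Perm α)
      = viaEmbeddingHom f (W 1 (fun _ => z)) * viaEmbeddingHom j (k : Perm _) := rfl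

/-- **Stripping a cycle of odd prime length.** -/
theorem strip (hθ : IsHeilbronn θ) {r : ℂ} (hr : θ 1 = r) (hp : p ≠ 2) (f : Unit × ZMod p ↪ α)
    {c : ℕ} (hv : ∀ z : ZMod p, z ≠ 0 → ev θ (viaEmbeddingHom f (W 1 (fun _ => z))) = r - p * c)
    (hβ : 14 + p ≤ Fintype.card α) (hc : c + 2 + p < Fintype.card α) {h : Perm α}
    (hs : Perm.sign h = 1) (hfix : ∀ x, h (f x) = f x) {z : ZMod p} (hz : z ≠ 0) :
    ev θ (h * viaEmbeddingHom f (W 1 (fun _ => z))) = ev θ h - p * c := by
  classical
  have hpp : p.Prime := Fact.out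
  set e : AddChar (ZMod p) ℂ := AddChar.FiniteField.primitiveChar_to_Complex (ZMod p) with he
  have heprim : e.IsPrimitive := AddChar.FiniteField.primitiveChar_to_Complex_isPrimitive (ZMod p)
  have hcβ : Fintype.card {x // ∀ u, f u ≠ x} = Fintype.card α - p := by
    have h3 : Fintype.card {y // ¬ ∃ u, f u = y} = Fintype.card α
        - Fintype.card {y // ∃ u, f u = y} := Fintype.card_subtype_compl _
    have h4 : Fintype.card {y // ∃ u, f u = y} = p := by
      have h6 : Fintype.card {y // ∃ u, f u = y} = Fintype.card (Unit × ZMod p) :=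
        Fintype.card_congr (Equiv.ofInjective f f.injective).symm
      rw [h6, Fintype.card_prod, ZMod.card]
      simp
    have h5 : Fintype.card {x // ∀ u, f u ≠ x} = Fintype.card {y // ¬ ∃ u, f u = y} :=
      Fintype.card_congr (Equiv.subtypeEquivRight (by simp))
    rw [h5, h3, h4]
  let l : ZMod p → (Multiplicative (ZMod p) →* ℂˣ) := fun j =>
    MonoidHom.toHomUnits
      { toFun := fun a => e (j * Multiplicative.toAdd a)
        map_one' := by simp
        map_mul' := fun a b => by
          rw [← AddChar.map_add_eq_mul, toAdd_mul, mul_add] }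
  have hl : ∀ j a, ((l j a : ℂˣ) : ℂ) = e (j * Multiplicative.toAdd a) := fun j a => rfl
  have hl' : ∀ j a, (((l j a)⁻¹ : ℂˣ) : ℂ) = e (-(j * Multiplicative.toAdd a)) := by
    intro j a
    rw [Units.val_inv_eq_inv_val, hl, AddChar.map_neg_eq_inv]
  let j : {x // ∀ u, f u ≠ x} ↪ α := Function.Embedding.subtype _
  have hd : ∀ x y, f x ≠ j y := fun x y => y.2 x
  let φ := phS hp f j hd
  have hcard : (Nat.card (Multiplicative (ZMod p)) : ℂ) = p := by
    have : Nat.card (Multiplicative (ZMod p)) = p := by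
      rw [Nat.card_congr Multiplicative.toAdd, Nat.card_eq_fintype_card, ZMod.card]
    rw [this]
  have hp0 : (p : ℂ) ≠ 0 := by exact_mod_cast hpp.ne_zero
  have hT : ∀ j, IsHeilbronn (part θ φ (l j)) := fun j => part_isHeilbronn hθ φ (l j)
  have hval1 : ∀ z : ZMod p, z ≠ 0 → θ (φ (Multiplicative.ofAdd z, 1)) = r - p * c := by
    intro z hz
    rw [← hv z hz, ev_of (g := viaEmbeddingHom f (W 1 (fun _ => z)))
      (via_mem f (sign_tr_odd hp _))]
    congr 1
    apply Subtype.ext
    rw [phS_coe, OneMemClass.coe_one, map_one, mul_one]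
  have hval0 : θ (φ (Multiplicative.ofAdd 0, 1)) = r := by
    rw [← hr]
    congr 1
    exact map_one φ
  have hT1 : ∀ j, j ≠ 0 → part θ φ (l j) 1 = c := by
    intro j hj
    unfold part
    rw [hcard, ← Multiplicative.ofAdd.sum_comp,
      ← Finset.add_sum_erase _ _ (Finset.mem_univ (0 : ZMod p)), hval0, hl']
    have h1 : ∑ x ∈ Finset.univ.erase (0 : ZMod p), θ (φ (Multiplicative.ofAdd x, 1)) *
        (((l j (Multiplicative.ofAdd x))⁻¹ : ℂˣ) : ℂ)
        = (r - p * c) * ∑ x ∈ Finset.univ.erase (0 : ZMod p), e (-(j * x)) := by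
      rw [Finset.mul_sum]
      refine Finset.sum_congr rfl fun x hx => ?_
      rw [hval1 x (Finset.mem_erase.mp hx).1, hl']
      rfl
    have h2 : ∑ x ∈ Finset.univ.erase (0 : ZMod p), e (-(j * x)) = -1 := by
      have h3 : ∑ x : ZMod p, e (-(j * x)) = 0 := by
        have h4 := AddChar.sum_mulShift (-j) heprim
        rw [if_neg (by simpa using hj)] at h4
        rw [← Nat.cast_zero (R := ℂ), ← h4]
        refine Finset.sum_congr rfl fun x _ => ?_
        congr 1; ring
      rw [← Finset.add_sum_erase _ _ (Finset.mem_univ (0 : ZMod p))] at h3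
      simp only [mul_zero, neg_zero, AddChar.map_zero_eq_one] at h3
      linear_combination h3
    rw [h1, h2]
    simp only [toAdd_ofAdd, mul_zero, neg_zero, AddChar.map_zero_eq_one]
    field_simp
    ring
  have hconst : ∀ j, j ≠ 0 → ∀ k, part θ φ (l j) k = c := by
    intro j hj k
    rw [alt_sharp (by rw [hcβ]; omega) (hT j) (hT1 j hj) (Or.inr (by rw [hcβ]; omega)) k]
    exact hT1 j hj
  -- inversion
  have hinv : ∀ (z : ZMod p) k, θ (φ (Multiplicative.ofAdd z, k))
      = ∑ j, e (j * z) * part θ φ (l j) k := by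
    intro z k
    have h1 : ∀ j, e (j * z) * part θ φ (l j) k
        = (p : ℂ)⁻¹ * ∑ x : ZMod p, θ (φ (Multiplicative.ofAdd x, k)) * e (j * (z - x)) := by
      intro j
      unfold part
      rw [hcard, ← Multiplicative.ofAdd.sum_comp, mul_left_comm, Finset.mul_sum]
      congr 1
      refine Finset.sum_congr rfl fun x _ => ?_
      rw [hl', mul_left_comm, ← AddChar.map_add_eq_mul]
      congr 2
      simp only [toAdd_ofAdd]
      ring
    rw [Finset.sum_congr rfl (fun j _ => h1 j), ← Finset.mul_sum, Finset.sum_comm]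
    have h2 : ∀ x : ZMod p, ∑ j, θ (φ (Multiplicative.ofAdd x, k)) * e (j * (z - x))
        = if x = z then θ (φ (Multiplicative.ofAdd z, k)) * p else 0 := by
      intro x
      rw [← Finset.mul_sum, AddChar.sum_mulShift _ heprim]
      by_cases hx : x = z
      · subst hx; simp [ZMod.card]
      · have : z - x ≠ 0 := sub_ne_zero.mpr (Ne.symm hx)
        simp [hx, this]
    rw [Finset.sum_congr rfl (fun x _ => h2 x), Finset.sum_ite_eq' Finset.univ z,
      if_pos (Finset.mem_univ _)]
    field_simp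
  have hdiff : ∀ (z : ZMod p) k, θ (φ (Multiplicative.ofAdd z, k)) - θ (φ (Multiplicative.ofAdd 0, k))
      = θ (φ (Multiplicative.ofAdd z, 1)) - θ (φ (Multiplicative.ofAdd 0, 1)) := by
    intro z k
    rw [hinv z k, hinv 0 k, hinv z 1, hinv 0 1, ← Finset.sum_sub_distrib, ← Finset.sum_sub_distrib]
    refine Finset.sum_congr rfl fun j _ => ?_
    by_cases hj : j = 0
    · subst hj; simp
    · rw [hconst j hj k, hconst j hj 1]
  -- the element `h`
  have hmem : ∀ x, (∀ u, f u ≠ h x) ↔ (∀ u, f u ≠ x) := by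
    intro x
    constructor
    · rintro hu u rfl
      exact hu u (hfix u).symm
    · intro hu u h2
      exact hu u (h.injective (by rw [hfix, h2]))
  have hof : viaEmbeddingHom j (h.subtypePerm hmem) = h := by
    ext y
    by_cases hy : ∃ u, f u = y
    · obtain ⟨u, rfl⟩ := hy
      rw [viaEmb_notMem j _ (fun v hv => hd u v hv.symm), hfix]
    · push Not at hy
      have := viaEmb_apply j (h.subtypePerm hmem) ⟨y, hy⟩
      exact this
  have hk : h.subtypePerm hmem ∈ alternatingGroup {x // ∀ u, f u ≠ x} := by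
    rw [mem_alternatingGroup, ← viaEmb_sign j, hof, hs]
  have h1 := hdiff z ⟨_, hk⟩
  rw [hval1 z hz, hval0] at h1
  have h2 : ∀ z, θ (φ (Multiplicative.ofAdd z, ⟨_, hk⟩))
      = ev θ (h * viaEmbeddingHom f (W 1 (fun _ => z))) := by
    intro z
    have h3 : (φ (Multiplicative.ofAdd z, ⟨_, hk⟩) : Perm α)
        = h * viaEmbeddingHom f (W 1 (fun _ => z)) := by
      rw [phS_coe]
      have := (via_commute f j hd (W 1 (fun _ => z)) (h.subtypePerm hmem)).eq
      rw [hof] at this
      simp only [hof]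
      exact this
    rw [← h3, ev_of (φ (Multiplicative.ofAdd z, ⟨_, hk⟩)).2]
  rw [h2, h2] at h1
  have h3 : W (1 : Perm Unit) (fun _ => (0 : ZMod p)) = 1 := W_one
  rw [h3, map_one, mul_one] at h1
  linear_combination h1

end strip

end Pool.Agent.X21.Qd
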