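import Mathlib
import Pool.Agent.X21.Qd.A4

/-!
# Twisted averages; Heilbronn functions on `S_m` with a transposition in the kernel
-/

set_option autoImplicit false
set_option linter.unusedSectionVars false

namespace Pool.Agent.X21.Qd

open Pool.Agent.H302R2 Pool.Agent.X21.Sy Subgroup Equiv Equiv.Perm

section twist

universe u v w

variable {G : Type u} [Group G] [Finite G] {θ : G → ℂ}
variable {M : Type v} [Group M] [Fintype M] {K : Type w} [Group K] [Finite K]

/-- the twisted average over a normalised subgroup -/
noncomputable def twist (θ : G → ℂ) (φM : M →* G) (φK : K →* G) (l : M →* ℂˣ) (k : K) : ℂ :=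
  (Nat.card M : ℂ)⁻¹ * ∑ m : M, θ (φM m * φK k) * (((l m)⁻¹ : ℂˣ) : ℂ)

lemma twist_isHeilbronn (hθ : IsHeilbronn θ) (a : K →* MulAut M) (φM : M →* G) (φK : K →* G)
    (hc : ∀ k m, φK k * φM m * (φK k)⁻¹ = φM (a k m)) (l : M →* ℂˣ)
    (hl : ∀ k m, l (a k m) = l m) : IsHeilbronn (twist θ φM φK l) where
  conj k h := by
    unfold twist
    congr 1
    rw [← Equiv.sum_comp (a h).toEquiv]
    refine Finset.sum_congr rfl fun m _ => ?_
    change θ (φM (a h m) * φK (h * k * h⁻¹)) * (((l (a h m))⁻¹ : ℂˣ) : ℂ) = _
    rw [hl]
    congr 1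
    rw [← hθ.conj (φM m * φK k) (φK h), ← hc, map_mul, map_mul, map_inv]
    congr 1
    group
  mult H χ := by
    classical
    have : Fintype H := Fintype.ofFinite _
    let aH : H →* MulAut M := a.comp H.subtype
    have e1 : ∀ g : H, φM.comp (aH g).toMonoidHom
        = (MulAut.conj ((φK.comp H.subtype) g)).toMonoidHom.comp φM := by
      intro g
      ext m
      change φM (a g m) = φK g * φM m * (φK g)⁻¹
      rw [hc]
    have e2 : ∀ g : H, l.comp (aH g).toMonoidHom = (MulAut.conj (χ g)).toMonoidHom.comp l := by
      intro g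
      refine MonoidHom.ext fun m => ?_
      change l (a g m) = χ g * l m * (χ g)⁻¹
      rw [hl, mul_comm (χ g), mul_inv_cancel_right]
    have : Fintype (M ⋊[aH] H) := Fintype.ofEquiv _ SemidirectProduct.equivProd.symm
    obtain ⟨n, hn⟩ := hθ.mult_hom (SemidirectProduct.lift φM (φK.comp H.subtype) e1)
      (SemidirectProduct.lift l χ e2)
    refine ⟨n, ?_⟩
    have hC : (Nat.card M : ℂ) ≠ 0 := by exact_mod_cast Nat.card_pos.ne'
    rw [Nat.card_congr (SemidirectProduct.equivProd (φ := aH)), Nat.card_prod,
      ← SemidirectProduct.equivProd.symm.sum_comp, Fintype.sum_prod_type, Finset.sum_comm] at hn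
    rw [finsum_eq_sum_of_fintype]
    have h1 : ∀ h : H, twist θ φM φK l h * (((χ h)⁻¹ : ℂˣ) : ℂ)
        = (Nat.card M : ℂ)⁻¹ * ∑ m : M, θ ((SemidirectProduct.lift φM (φK.comp H.subtype) e1)
          (SemidirectProduct.equivProd.symm (m, h))) *
          ((((SemidirectProduct.lift l χ e2)
            (SemidirectProduct.equivProd.symm (m, h)))⁻¹ : ℂˣ) : ℂ) := by
      intro h
      unfold twist
      rw [mul_assoc, Finset.sum_mul]
      congr 1
      refine Finset.sum_congr rfl fun m _ => ?_
      have h2 : (SemidirectProduct.equivProd.symm (m, h) : M ⋊[aH] H)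
          = SemidirectProduct.inl m * SemidirectProduct.inr h := by
        ext <;> simp [SemidirectProduct.equivProd]
      rw [h2, map_mul, map_mul, SemidirectProduct.lift_inl, SemidirectProduct.lift_inr,
        SemidirectProduct.lift_inl, SemidirectProduct.lift_inr, mul_inv, Units.val_mul, mul_assoc]
      rfl
    rw [Finset.sum_congr rfl (fun h _ => h1 h), ← Finset.mul_sum, hn]
    push_cast
    field_simp

end twist

section const

variable {B : Type} [Fintype B] [DecidableEq B] {T : Perm B → ℂ}

/-- a Heilbronn function on `S_m` with the transpositions in the kernel is constant -/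
theorem const_of_swap (hT : IsHeilbronn T) (h5 : 5 ≤ Fintype.card B)
    (hs : ∀ i j, i ≠ j → T (swap i j) = T 1) (σ : Perm B) : T σ = T 1 := by
  classical
  have hT' := hT.comp (alternatingGroup B).subtype
  have hD : HasDoubleSwaps (fun g : alternatingGroup B => T (g : Perm B)) := by
    intro a b c d hab hac had hbc hbd hcd
    refine ⟨?_, ?_⟩
    · rw [mem_alternatingGroup, Perm.sign_mul, Perm.sign_swap hab, Perm.sign_swap hcd]
      decide
    · have hcomm : swap a b * swap c d = swap c d * swap a b := by
        have : Disjoint (swap a b) (swap c d) := by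
          rw [disjoint_iff_disjoint_support, support_swap hab, support_swap hcd]
          simp [hac.symm, had.symm, hbc.symm, hbd.symm, hac, had, hbc, hbd]
        exact this.commute.eq
      have h1 := hT.mul_of_comm hcomm (hs c d hcd)
      change T (swap a b * swap c d) = T 1
      rw [h1, hs a b hab]
  have heven : ∀ g : Perm B, Perm.sign g = 1 → T g = T 1 := by
    intro g hg
    obtain ⟨h1, h2⟩ := InK.all hT' hD h5 hg
    exact h2
  rcases Int.units_eq_one_or (Perm.sign σ) with h | h
  · exact heven σ h
  · obtain ⟨i, j, hij⟩ := Fintype.exists_pair_of_one_lt_card (show 1 < Fintype.card B by omega)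
    rw [← hs i j hij]
    exact index_two hT Perm.sign heven h (Perm.sign_swap hij)

end const

end Pool.Agent.X21.Qd
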