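import Mathlib
import Pool.Agent.X21.Qd.A5

/-!
# Expansion on cosets for the prime two
-/

set_option autoImplicit false
set_option linter.unusedSectionVars false

namespace Pool.Agent.X21.Qd

open Pool.Agent.H302R2 Pool.Agent.X21.Sy Subgroup Equiv Equiv.Perm

/-- the nontrivial character of `ZMod 2` -/
def d2 (z : ZMod 2) : ℤˣ := if z = 0 then 1 else -1

lemma d2_add : ∀ z w : ZMod 2, d2 (z + w) = d2 z * d2 w := by decide

lemma d2_zero : d2 0 = 1 := rfl

lemma d2_one : d2 1 = -1 := by decide

lemma z2a : ∀ a b : ZMod 2, a + b = 0 → a = b := by decide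

lemma z2b : ∀ a b : ZMod 2, a + b = 1 → a = b + 1 := by decide

lemma z2c : ∀ z : ZMod 2, 1 + z = z → False := by decide

lemma d2_ne : d2 0 ≠ d2 1 := by decide

section chars

variable {B : Type} [Fintype B] [DecidableEq B] [Fact (Nat.Prime 2)]

/-- coordinates of an admissible vector -/
def co (x : Adm B 2) (i : B) : ZMod 2 := Multiplicative.toAdd (x : Multiplicative (B → ZMod 2)) i

lemma co_mul (x z : Adm B 2) (i : B) : co (x * z) i = co x i + co z i := rfl

lemma co_one (i : B) : co (1 : Adm B 2) i = 0 := rfl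

lemma co_sum (x : Adm B 2) : ∑ i, co x i = 0 := (sign_tr_two _).mp x.2

lemma co_ka (σ : Perm B) (x : Adm B 2) (i : B) : co (ka σ x) i = co x (σ⁻¹ i) := rfl

/-- the characters of the admissible vectors -/
def sy (y : B → ZMod 2) : Adm B 2 →* ℤˣ where
  toFun x := d2 (∑ i, y i * co x i)
  map_one' := by
    have : ∑ i, y i * co (1 : Adm B 2) i = 0 := Finset.sum_eq_zero fun i _ => by
      rw [co_one, mul_zero]
    rw [this]; rfl
  map_mul' x z := by
    rw [← d2_add, ← Finset.sum_add_distrib]
    congr 1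
    exact Finset.sum_congr rfl fun i _ => by rw [co_mul, mul_add]

lemma sy_apply (y : B → ZMod 2) (x : Adm B 2) : sy y x = d2 (∑ i, y i * co x i) := rfl

lemma sy_add (y z : B → ZMod 2) (x : Adm B 2) : sy (y + z) x = sy y x * sy z x := by
  rw [sy_apply, sy_apply, sy_apply, ← d2_add, ← Finset.sum_add_distrib]
  congr 1
  exact Finset.sum_congr rfl fun i _ => by rw [Pi.add_apply, add_mul]

lemma sy_single (k : B) (x : Adm B 2) : sy (Pi.single k 1) x = d2 (co x k) := by
  rw [sy_apply]
  congr 1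
  rw [Finset.sum_eq_single k]
  · simp
  · intro i _ hi; simp [hi]
  · intro h; exact absurd (Finset.mem_univ k) h

lemma sy_one (x : Adm B 2) : sy (1 : B → ZMod 2) x = 1 := by
  rw [sy_apply]
  have : ∑ i, (1 : B → ZMod 2) i * co x i = 0 := by
    rw [← co_sum x]
    exact Finset.sum_congr rfl fun i _ => by simp
  rw [this]; rfl

lemma sy_zero (x : Adm B 2) : sy (0 : B → ZMod 2) x = 1 := by
  rw [sy_apply]
  have : ∑ i, (0 : B → ZMod 2) i * co x i = 0 := Finset.sum_eq_zero fun i _ => by simp
  rw [this]; rfl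

/-- `δ_i + δ_j` -/
def dd (i j : B) : Adm B 2 := ⟨Multiplicative.ofAdd (Pi.single i 1 + Pi.single j 1), by
  have : Perm.sign (W (1 : Perm B) (Pi.single i 1 + Pi.single j 1 : B → ZMod 2)) = 1 := by
    rw [sign_tr_two]
    simp only [Pi.add_apply, Finset.sum_add_distrib, Finset.sum_pi_single', Finset.mem_univ,
      if_true]
    exact one_add_one_two
  exact this⟩

lemma co_dd (i j l : B) : co (dd i j) l
    = (Pi.single i 1 : B → ZMod 2) l + (Pi.single j 1 : B → ZMod 2) l := rfl

lemma co_dd_left {i j : B} (h : i ≠ j) : co (dd i j) i = 1 := by rw [co_dd]; simp [h]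

lemma co_dd_right {i j : B} (h : i ≠ j) : co (dd i j) j = 1 := by rw [co_dd]; simp [h.symm]

lemma co_dd_other {i j l : B} (h : l ≠ i) (h' : l ≠ j) : co (dd i j) l = 0 := by
  rw [co_dd]; simp [h, h']

lemma sum_shift (s : Adm B 2) (F : Adm B 2 → ℂ) (hF : ∀ x, F (x * s) = - F x) : ∑ x, F x = 0 := by
  have h1 : ∑ x, F x = ∑ x, F (x * s) := (Equiv.sum_comp (Equiv.mulRight s) F).symm
  rw [Finset.sum_congr rfl (fun x _ => hF x), Finset.sum_neg_distrib] at h1
  linear_combination h1 / 2

lemma sum_sy {y : B → ZMod 2} (h0 : y ≠ 0) (h1 : y ≠ 1) : ∑ x : Adm B 2, ((sy y x : ℤ) : ℂ) = 0 := by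
  obtain ⟨i, hi⟩ := Function.ne_iff.mp h0
  obtain ⟨j, hj⟩ := Function.ne_iff.mp h1
  have hi1 : y i = 1 := (zmod_two (y i)).resolve_left hi
  have hj0 : y j = 0 := (zmod_two (y j)).resolve_right hj
  have hij : i ≠ j := by rintro rfl; rw [hi1] at hj0; exact one_ne_zero hj0
  have hs : sy y (dd i j) = -1 := by
    rw [sy_apply]
    have : ∑ l, y l * co (dd i j) l = 1 := by
      rw [Finset.sum_eq_single i]
      · rw [co_dd_left hij, hi1, mul_one]
      · intro l _ hl
        by_cases hlj : l = j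
        · subst hlj; rw [hj0, zero_mul]
        · rw [co_dd_other hl hlj, mul_zero]
      · intro h; exact absurd (Finset.mem_univ i) h
    rw [this]; exact d2_one
  refine sum_shift (dd i j) _ fun x => ?_
  rw [map_mul, hs]
  push_cast
  ring

lemma sum_sy_zero {y : B → ZMod 2} (h : y = 0 ∨ y = 1) :
    ∑ x : Adm B 2, ((sy y x : ℤ) : ℂ) = Fintype.card (Adm B 2) := by
  have : ∀ x : Adm B 2, ((sy y x : ℤ) : ℂ) = 1 := by
    intro x
    rcases h with h | h
    · rw [h, sy_zero]; simp
    · rw [h, sy_one]; simp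
  rw [Finset.sum_congr rfl (fun x _ => this x), Finset.sum_const, Finset.card_univ, nsmul_eq_mul,
    mul_one]

lemma sum_all2 (x : Adm B 2) : ∑ y : B → ZMod 2, ((sy y x : ℤ) : ℂ)
    = if x = 1 then (2 : ℂ) ^ Fintype.card B else 0 := by
  by_cases hx : x = 1
  · subst hx
    simp only [map_one]
    rw [Finset.sum_const, Finset.card_univ, Fintype.card_fun, ZMod.card]
    simp
  · rw [if_neg hx]
    obtain ⟨i, hi⟩ : ∃ i, co x i ≠ 0 := by
      by_contra hcon
      push Not at hcon
      apply hx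
      apply Subtype.ext
      funext i
      exact hcon i
    have h1 : ∑ y : B → ZMod 2, ((sy y x : ℤ) : ℂ) = ∑ y : B → ZMod 2,
        ((sy (y + Pi.single i 1) x : ℤ) : ℂ) :=
      (Equiv.sum_comp (Equiv.addRight (Pi.single i 1 : B → ZMod 2))
        (fun y => ((sy y x : ℤ) : ℂ))).symm
    have h2 : ∀ y : B → ZMod 2, ((sy (y + Pi.single i 1) x : ℤ) : ℂ) = - ((sy y x : ℤ) : ℂ) := by
      intro y
      rw [sy_add, sy_single, (zmod_two (co x i)).resolve_left hi, d2_one]
      push_cast
      ring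
    rw [Finset.sum_congr rfl (fun y _ => h2 y), Finset.sum_neg_distrib] at h1
    linear_combination h1 / 2

lemma card_adm : 2 * (Fintype.card (Adm B 2) : ℂ) = (2 : ℂ) ^ Fintype.card B ∨ IsEmpty B := by
  rcases isEmpty_or_nonempty B with h | h
  · exact Or.inr h
  · left
    have h1 : ∑ y : B → ZMod 2, ∑ x : Adm B 2, ((sy y x : ℤ) : ℂ) = (2 : ℂ) ^ Fintype.card B := by
      rw [Finset.sum_comm, Finset.sum_congr rfl (fun x _ => sum_all2 x)]
      simp
    rw [← h1]
    have h01 : (0 : B → ZMod 2) ≠ 1 := by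
      intro h2
      obtain ⟨i⟩ := h
      have := congrFun h2 i
      simp at this
    have h2 : ∑ y : B → ZMod 2, ∑ x : Adm B 2, ((sy y x : ℤ) : ℂ)
        = ∑ y ∈ {(0 : B → ZMod 2), 1}, ∑ x : Adm B 2, ((sy y x : ℤ) : ℂ) := by
      symm
      refine Finset.sum_subset (Finset.subset_univ _) fun y _ hy => ?_
      simp only [Finset.mem_insert, Finset.mem_singleton, not_or] at hy
      exact sum_sy hy.1 hy.2
    rw [h2, Finset.sum_pair h01, sum_sy_zero (Or.inl rfl), sum_sy_zero (Or.inr rfl)]
    ring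

end chars

section expansion

variable {B : Type} [Fintype B] [DecidableEq B] [Fact (Nat.Prime 2)]
variable {α : Type} [Fintype α] [DecidableEq α] {θ : alternatingGroup α → ℂ}

lemma two_pow_ne : (2 : ℂ) ^ Fintype.card B ≠ 0 := pow_ne_zero _ two_ne_zero

/-- Fourier transform on `Adm` -/
noncomputable def Fh (F : Adm B 2 → ℂ) (y : B → ZMod 2) : ℂ := ∑ x, ((sy y x : ℤ) : ℂ) * F x

lemma Fh_add_one (F : Adm B 2 → ℂ) (y : B → ZMod 2) : Fh F (y + 1) = Fh F y := by
  unfold Fh
  refine Finset.sum_congr rfl fun x _ => ?_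
  rw [sy_add, sy_one, mul_one]

lemma Fh_inv (F : Adm B 2 → ℂ) (e : Adm B 2) :
    ∑ y : B → ZMod 2, ((sy y e : ℤ) : ℂ) * Fh F y = (2 : ℂ) ^ Fintype.card B * F e := by
  unfold Fh
  have h1 : ∀ y : B → ZMod 2, ((sy y e : ℤ) : ℂ) * ∑ x, ((sy y x : ℤ) : ℂ) * F x
      = ∑ x, ((sy y (e * x) : ℤ) : ℂ) * F x := by
    intro y
    rw [Finset.mul_sum]
    refine Finset.sum_congr rfl fun x _ => ?_
    rw [map_mul]
    push_cast
    ring
  rw [Finset.sum_congr rfl (fun y _ => h1 y), Finset.sum_comm]
  have h2 : ∀ x : Adm B 2, ∑ y : B → ZMod 2, ((sy y (e * x) : ℤ) : ℂ) * F x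
      = if x = e then (2 : ℂ) ^ Fintype.card B * F e else 0 := by
    intro x
    rw [← Finset.sum_mul, sum_all2]
    have h3 : e * x = 1 ↔ x = e := by
      have h4 : e * e = 1 := by
        apply Subtype.ext
        funext i
        change co e i + co e i = 0
        exact CharTwo.add_self_eq_zero _
      constructor
      · intro h
        have h5 : x = e⁻¹ := (inv_eq_of_mul_eq_one_right h).symm
        rw [h5]; exact inv_eq_of_mul_eq_one_right h4
      · rintro rfl; exact h4
    by_cases hx : x = e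
    · rw [if_pos (h3.mpr hx), if_pos hx, hx]
    · rw [if_neg (fun h => hx (h3.mp h)), if_neg hx, zero_mul]
  rw [Finset.sum_congr rfl (fun x _ => h2 x)]
  simp

/-- the Fourier transform of the formula -/
lemma Fh_base (f : B × ZMod 2 ↪ α) {r c : ℂ} (hF : Fml θ f r c) (y : B → ZMod 2) :
    Fh (fun x => θ (ph f x)) y = (r - c * Fintype.card B) * ∑ x : Adm B 2, ((sy y x : ℤ) : ℂ)
      + c * ∑ i, ∑ x : Adm B 2, ((sy (y + Pi.single i 1) x : ℤ) : ℂ) := by
  have hval : ∀ x : Adm B 2, θ (ph f x) = (r - c * Fintype.card B) + c * ∑ i, ((d2 (co x i) : ℤ) : ℂ) := by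
    intro x
    have h : Perm.sign (W 1 (Multiplicative.toAdd (x : Multiplicative (B → ZMod 2)))) = 1 := x.2
    rw [ev_ph (θ := θ) f x, hF _ h, wtB_eq]
    have h1 : ∀ i, ((d2 (co x i) : ℤ) : ℂ) = 1 - 2 * (if Multiplicative.toAdd
        (x : Multiplicative (B → ZMod 2)) i = 0 then (0 : ℂ) else 1) := by
      intro i
      change ((d2 (co x i) : ℤ) : ℂ) = 1 - 2 * (if co x i = 0 then (0 : ℂ) else 1)
      rcases zmod_two (co x i) with h | h
      · rw [h, d2_zero]; simp
      · rw [h, d2_one, if_neg one_ne_zero]; push_cast; ring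
    rw [Finset.sum_congr rfl (fun i _ => h1 i), Finset.sum_sub_distrib, Finset.sum_const,
      Finset.card_univ, nsmul_eq_mul, ← Finset.mul_sum]
    push_cast
    ring
  unfold Fh
  have h2 : ∀ x : Adm B 2, ((sy y x : ℤ) : ℂ) * θ (ph f x)
      = (r - c * Fintype.card B) * ((sy y x : ℤ) : ℂ)
        + c * ∑ i, ((sy (y + Pi.single i 1) x : ℤ) : ℂ) := by
    intro x
    rw [hval, mul_add, mul_comm _ (r - c * Fintype.card B), mul_left_comm, Finset.mul_sum]
    congr 2
    refine Finset.sum_congr rfl fun i _ => ?_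
    rw [sy_add, sy_single]
    push_cast
    ring
  rw [Finset.sum_congr rfl (fun x _ => h2 x), Finset.sum_add_distrib, ← Finset.mul_sum,
    ← Finset.mul_sum, Finset.sum_comm]

variable (f : B × ZMod 2 ↪ α)

/-- `W σ 0` as an even permutation -/
noncomputable def gW (f : B × ZMod 2 ↪ α) (σ : Perm B) : alternatingGroup α :=
  ⟨viaEmbeddingHom f (W σ 0), via_mem f (by rw [sign_W0]; exact Int.units_sq _)⟩

lemma gW_conj (σ : Perm B) (x : Adm B 2) : gW f σ * ph f x * (gW f σ)⁻¹ = ph f (ka σ x) := by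
  apply Subtype.ext
  change viaEmbeddingHom f (W σ 0) * viaEmbeddingHom f (W 1 _) * (viaEmbeddingHom f (W σ 0))⁻¹
    = viaEmbeddingHom f (W 1 _)
  rw [← map_inv, ← map_mul, ← map_mul, W_conj]
  rfl

/-- vanishing of the Fourier coefficients on the cosets -/
lemma Fh_zero (hθ : IsHeilbronn θ) (hB : 3 ≤ Fintype.card B) {r c : ℂ} (hF : Fml θ f r c)
    (σ : Perm B) {y : B → ZMod 2} (h0 : y ≠ 0) (h1 : y ≠ 1)
    (hk : ∀ k, σ k = k → y ≠ Pi.single k 1 ∧ y ≠ Pi.single k 1 + 1) :
    Fh (fun x => θ (gW f σ * ph f x)) y = 0 := by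
  classical
  by_cases hinv : ∀ x : Adm B 2, sy y (ka σ x) = sy y x
  · by_cases hy : ∃ k, y = Pi.single k 1 ∨ y = Pi.single k 1 + 1
    · -- not invariant
      exfalso
      obtain ⟨k, hyk⟩ := hy
      have hsy : ∀ x : Adm B 2, sy y x = d2 (co x k) := by
        intro x
        rcases hyk with h | h
        · rw [h, sy_single]
        · rw [h, sy_add, sy_single, sy_one, mul_one]
      have hσk : σ k ≠ k := by
        intro h
        rcases hyk with h' | h'
        · exact (hk k h).1 h'
        · exact (hk k h).2 h'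
      have hσk' : σ⁻¹ k ≠ k := by
        intro h
        apply hσk
        nth_rewrite 1 [← h]
        exact perm_mul_inv_apply σ k
      obtain ⟨l, hl⟩ : ∃ l, l ∉ ({k, σ⁻¹ k} : Finset B) := by
        by_contra hcon
        push Not at hcon
        have h1 : (Finset.univ : Finset B) ⊆ {k, σ⁻¹ k} := fun y _ => hcon y
        have h2 := Finset.card_le_card h1
        have h3 := Finset.card_le_two (a := k) (b := σ⁻¹ k)
        rw [Finset.card_univ] at h2
        omega
      simp only [Finset.mem_insert, Finset.mem_singleton, not_or] at hl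
      have h2 := hinv (dd k l)
      rw [hsy, hsy, co_ka, co_dd_left (Ne.symm hl.1), co_dd_other hσk' (Ne.symm hl.2)] at h2
      exact d2_ne h2
    · push Not at hy
      refine coset_van (ph f) (ka σ) hθ (gW_conj f σ) (sy y) hinv ?_
      have h2 := Fh_base f hF y
      unfold Fh at h2
      rw [h2, sum_sy h0 h1, mul_zero, zero_add]
      rw [Finset.sum_eq_zero, mul_zero]
      intro i _
      refine sum_sy ?_ ?_
      · intro h
        apply (hy i).1
        funext l
        exact z2a _ _ (congrFun h l)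
      · intro h
        apply (hy i).2
        funext l
        exact z2b _ _ (congrFun h l)
  · push Not at hinv
    obtain ⟨s, hs⟩ := hinv
    unfold Fh
    refine sum_shift (dl (ka σ) s) _ fun x => ?_
    have h2 : θ (gW f σ * ph f (x * dl (ka σ) s)) = θ (gW f σ * ph f x) := by
      rw [map_mul, ← mul_assoc]
      exact conj_coset (ph f) (ka σ) hθ (gW_conj f σ) x s
    have h3 : sy y (dl (ka σ) s) = -1 := by
      rw [dl_apply, map_mul, map_inv]
      rcases Int.units_eq_one_or (sy y s) with h4 | h4 <;>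
        rcases Int.units_eq_one_or (sy y (ka σ s)) with h5 | h5
      · rw [h4, h5] at hs; exact absurd rfl hs
      · rw [h4, h5]; decide
      · rw [h4, h5]; decide
      · rw [h4, h5] at hs; exact absurd rfl hs
    change ((sy y (x * dl (ka σ) s) : ℤ) : ℂ) * θ (gW f σ * ph f (x * dl (ka σ) s)) = _
    rw [h2, map_mul, h3]
    push_cast
    ring

/-- expansion of the values on a coset -/
lemma expand (hθ : IsHeilbronn θ) (hB : 3 ≤ Fintype.card B) {r c : ℂ} (hF : Fml θ f r c)
    (σ : Perm B) (e : Adm B 2) :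
    (2 : ℂ) ^ Fintype.card B * (θ (gW f σ * ph f e) - θ (gW f σ))
      = 2 * ∑ k : {k // σ k = k}, (((d2 (co e k) : ℤ) : ℂ) - 1) *
        Fh (fun x => θ (gW f σ * ph f x)) (Pi.single (k : B) 1) := by
  classical
  set F : Adm B 2 → ℂ := fun x => θ (gW f σ * ph f x) with hFdef
  have h1 := Fh_inv F e
  have h2 := Fh_inv F 1
  have h3 : F 1 = θ (gW f σ) := by rw [hFdef]; simp
  rw [h3] at h2
  rw [mul_sub, ← h2]
  change (2 : ℂ) ^ Fintype.card B * F e - _ = _
  rw [← h1, ← Finset.sum_sub_distrib]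
  let ι : {k // σ k = k} × ZMod 2 → (B → ZMod 2) := fun x => Pi.single (x.1 : B) 1 + (fun _ => x.2)
  have hι : Function.Injective ι := by
    rintro ⟨k, z⟩ ⟨l, w⟩ h
    simp only [ι] at h
    have hzw : z = w := by
      -- a coordinate off `k, l`
      obtain ⟨m, hm⟩ : ∃ m, m ∉ ({(k : B), (l : B)} : Finset B) := by
        by_contra hcon
        push Not at hcon
        have h1 : (Finset.univ : Finset B) ⊆ {(k : B), (l : B)} := fun y _ => hcon y
        have h2 := Finset.card_le_card h1
        have h3 := Finset.card_le_two (a := (k : B)) (b := (l : B))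
        rw [Finset.card_univ] at h2
        omega
      simp only [Finset.mem_insert, Finset.mem_singleton, not_or] at hm
      have := congrFun h m
      simp only [Pi.add_apply] at this
      rw [Pi.single_eq_of_ne hm.1, Pi.single_eq_of_ne hm.2, zero_add, zero_add] at this
      exact this
    subst hzw
    have hkl : (k : B) = l := by
      by_contra hne
      have := congrFun h k
      simp only [Pi.add_apply] at this
      rw [Pi.single_eq_same, Pi.single_eq_of_ne hne, zero_add] at this
      exact z2c _ this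
    rw [Subtype.ext hkl]
  have h4 := Fintype.sum_of_injective ι hι
    (fun x => (((sy (ι x) e : ℤ) : ℂ) - ((sy (ι x) 1 : ℤ) : ℂ)) * Fh F (ι x))
    (fun y => ((sy y e : ℤ) : ℂ) * Fh F y - ((sy y 1 : ℤ) : ℂ) * Fh F y) ?_ ?_
  · rw [← h4, Fintype.sum_prod_type, Finset.mul_sum]
    refine Finset.sum_congr rfl fun k _ => ?_
    have h5 : ∀ z : ZMod 2, sy (ι (k, z)) e = d2 (co e k) ∧ Fh F (ι (k, z))
        = Fh F (Pi.single (k : B) 1) := by
      intro z
      rcases zmod_two z with h | h
      · have : ι (k, z) = Pi.single (k : B) 1 := by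
          simp only [ι, h]
          funext i; simp
        rw [this]
        exact ⟨sy_single _ _, rfl⟩
      · have : ι (k, z) = Pi.single (k : B) 1 + 1 := by
          simp only [ι, h]
          rfl
        rw [this]
        exact ⟨by rw [sy_add, sy_single, sy_one, mul_one], Fh_add_one _ _⟩
    have h6 : ∀ z : ZMod 2, (((sy (ι (k, z)) e : ℤ) : ℂ) - ((sy (ι (k, z)) 1 : ℤ) : ℂ)) *
        Fh F (ι (k, z)) = (((d2 (co e k) : ℤ) : ℂ) - 1) * Fh F (Pi.single (k : B) 1) := by
      intro z
      rw [(h5 z).1, (h5 z).2, map_one]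
      simp
    rw [Finset.sum_congr rfl (fun z _ => h6 z), Finset.sum_const, Finset.card_univ, ZMod.card,
      nsmul_eq_mul]
    push_cast
    ring
  · intro y hy
    by_cases h01 : y = 0 ∨ y = 1
    · have h5 : sy y e = 1 ∧ sy y 1 = 1 := by
        rcases h01 with h | h
        · rw [h]; exact ⟨sy_zero _, sy_zero _⟩
        · rw [h]; exact ⟨sy_one _, sy_one _⟩
      rw [h5.1, h5.2, sub_self]
    · push Not at h01
      have h5 : Fh F y = 0 := by
        refine Fh_zero f hθ hB hF σ h01.1 h01.2 ?_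
        intro k hk
        constructor
        · rintro rfl
          apply hy
          refine ⟨(⟨k, hk⟩, 0), ?_⟩
          simp only [ι]
          funext i; simp
        · rintro rfl
          apply hy
          exact ⟨(⟨k, hk⟩, 1), rfl⟩
      rw [h5]; ring
  · intro x
    ring

end expansion

end Pool.Agent.X21.Qd
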