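import Mathlib
import Pool.Agent.X21.Qd.A6

/-!
# The formula on the wreath product for the prime two
-/

set_option autoImplicit false
set_option linter.unusedSectionVars false

namespace Pool.Agent.X21.Qd

open Pool.Agent.H302R2 Pool.Agent.X21.Sy Subgroup Equiv Equiv.Perm

variable {B : Type} [Fintype B] [DecidableEq B] [Fact (Nat.Prime 2)]
variable {α : Type} [Fintype α] [DecidableEq α] {θ : alternatingGroup α → ℂ}

/-- `σ ↦ W σ 0` -/
noncomputable def gWh (f : B × ZMod 2 ↪ α) : Perm B →* alternatingGroup α where
  toFun := gW f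
  map_one' := by
    apply Subtype.ext
    change viaEmbeddingHom f (W 1 0) = 1
    rw [W_one, map_one]
  map_mul' σ τ := by
    apply Subtype.ext
    change viaEmbeddingHom f (W (σ * τ) 0) = viaEmbeddingHom f (W σ 0) * viaEmbeddingHom f (W τ 0)
    rw [← map_mul, W_mul]
    congr 2

/-- the permutation action on the admissible vectors -/
def kaE : Perm B →* MulAut (Adm B 2) where
  toFun σ :=
    { toFun := ka σ
      invFun := ka σ⁻¹
      left_inv := fun x => by
        apply Subtype.ext
        funext i
        change co x (σ⁻¹ (σ⁻¹⁻¹ i)) = co x i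
        simp
      right_inv := fun x => by
        apply Subtype.ext
        funext i
        change co x (σ⁻¹⁻¹ (σ⁻¹ i)) = co x i
        simp
      map_mul' := map_mul _ }
  map_one' := by
    ext x
    rfl
  map_mul' σ τ := by
    refine MulEquiv.ext fun x => ?_
    apply Subtype.ext
    funext i
    change co x ((σ * τ)⁻¹ i) = co x (τ⁻¹ (σ⁻¹ i))
    rw [mul_inv_rev]; rfl

lemma exists_notMem3 (hB : 4 ≤ Fintype.card B) (i j k : B) : ∃ l, l ≠ i ∧ l ≠ j ∧ l ≠ k := by
  obtain ⟨l, hl⟩ : ∃ l, l ∉ ({i, j, k} : Finset B) := by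
    by_contra hcon
    push Not at hcon
    have h1 : (Finset.univ : Finset B) ⊆ {i, j, k} := fun y _ => hcon y
    have h2 := Finset.card_le_card h1
    have h3 := Finset.card_le_three (a := i) (b := j) (c := k)
    rw [Finset.card_univ] at h2
    omega
  simp only [Finset.mem_insert, Finset.mem_singleton, not_or] at hl
  exact ⟨l, hl.1, hl.2.1, hl.2.2⟩

/-- the value at a double transposition times translations elsewhere -/
lemma val_swap (f : B × ZMod 2 ↪ α) {r c : ℂ}
    (hF : ∀ f : B × ZMod 2 ↪ α, Fml θ f r c) {i j : B} (hij : i ≠ j) (e : B → ZMod 2)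
    (hei : e i = 0) (hej : e j = 0) (hs : Perm.sign (W (1 : Perm B) e) = 1) :
    ev θ (viaEmbeddingHom f (W (swap i j) e)) = r - 2 * c * (2 + wtB e) := by
  classical
  let s : Perm (B × ZMod 2) := swap (i, 1) (j, 0)
  let a : B → ZMod 2 := Pi.single i 1 + Pi.single j 1 + e
  have hai : a i = 1 := by simp [a, hij, hei]
  have haj : a j = 1 := by simp [a, hij.symm, hej]
  have hal : ∀ l, l ≠ i → l ≠ j → a l = e l := by
    intro l h1 h2
    simp [a, h1, h2]
  have h01 : (0 : ZMod 2) ≠ 1 := zero_ne_one
  have h10 : (1 : ZMod 2) ≠ 0 := one_ne_zero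
  have h11 : (1 : ZMod 2) + 1 = 0 := one_add_one_two
  have key : ∀ x, (W (swap i j) e) (s x) = s ((W 1 a) x) := by
    rintro ⟨l, z⟩
    by_cases hl : l = i
    · subst hl
      rcases zmod_two z with hz | hz
      · subst hz
        have e1 : s (l, 0) = (l, 0) := by
          apply swap_apply_of_ne_of_ne
          · intro h; exact h01 (congrArg Prod.snd h)
          · intro h; exact hij (congrArg Prod.fst h)
        rw [e1, W_apply, W_apply]
        simp only [swap_apply_left, Perm.one_apply, hei, hai, zero_add]
        exact (swap_apply_left _ _).symm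
      · subst hz
        have e1 : s (l, 1) = (j, 0) := swap_apply_left _ _
        rw [e1, W_apply, W_apply]
        simp only [swap_apply_right, Perm.one_apply, hej, hai, zero_add, h11]
        symm
        apply swap_apply_of_ne_of_ne
        · intro h; exact h01 (congrArg Prod.snd h)
        · intro h; exact hij (congrArg Prod.fst h)
    · by_cases hl' : l = j
      · subst hl'
        rcases zmod_two z with hz | hz
        · subst hz
          have e1 : s (l, 0) = (i, 1) := swap_apply_right _ _
          rw [e1, W_apply, W_apply]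
          simp only [swap_apply_left, Perm.one_apply, hei, haj, zero_add, add_zero]
          symm
          apply swap_apply_of_ne_of_ne
          · intro h; exact hl (congrArg Prod.fst h)
          · intro h; exact h10 (congrArg Prod.snd h)
        · subst hz
          have e1 : s (l, 1) = (l, 1) := by
            apply swap_apply_of_ne_of_ne
            · intro h; exact hl (congrArg Prod.fst h)
            · intro h; exact h10 (congrArg Prod.snd h)
          rw [e1, W_apply, W_apply]
          simp only [swap_apply_right, Perm.one_apply, hej, haj, add_zero, h11]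
          exact (swap_apply_right _ _).symm
      · have hs1 : ∀ w, s (l, w) = (l, w) := by
          intro w
          apply swap_apply_of_ne_of_ne
          · intro h; exact hl (congrArg Prod.fst h)
          · intro h; exact hl' (congrArg Prod.fst h)
        rw [hs1, W_apply, W_apply]
        simp only [swap_apply_of_ne_of_ne hl hl', Perm.one_apply, hal l hl hl']
        rw [hs1]
  rw [via_eq_of s f (W 1 a) (W (swap i j) e) key]
  have hsa : Perm.sign (W (1 : Perm B) a) = 1 := by
    rw [sign_tr_two] at hs ⊢
    simp only [a, Pi.add_apply, Finset.sum_add_distrib, Finset.sum_pi_single', Finset.mem_univ,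
      if_true, hs, add_zero]
    exact one_add_one_two
  rw [hF _ a hsa]
  have hw : wtB a = 2 + wtB e := by
    have h1 : (Finset.univ.filter fun l => a l ≠ 0) = {i, j} ∪ (Finset.univ.filter fun l => e l ≠ 0) := by
      ext l
      simp only [Finset.mem_filter, Finset.mem_univ, true_and, Finset.mem_union,
        Finset.mem_insert, Finset.mem_singleton]
      by_cases hl : l = i
      · subst hl; simp [hai]
      · by_cases hl' : l = j
        · subst hl'; simp [haj]
        · simp [hl, hl', hal l hl hl']
    rw [wtB, wtB, h1, Finset.card_union_of_disjoint, Finset.card_pair hij]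
    rw [Finset.disjoint_left]
    intro l hl hl'
    simp only [Finset.mem_insert, Finset.mem_singleton] at hl
    simp only [Finset.mem_filter, Finset.mem_univ, true_and] at hl'
    rcases hl with h | h
    · rw [h] at hl'; exact hl' hei
    · rw [h] at hl'; exact hl' hej
  rw [hw]
  push_cast
  ring

/-- the Fourier coefficients at the fixed blocks -/
theorem Fh_fixed (hθ : IsHeilbronn θ) (hB : 6 ≤ Fintype.card B) {r c : ℂ}
    (hF : ∀ f : B × ZMod 2 ↪ α, Fml θ f r c) (f : B × ZMod 2 ↪ α) (σ : Perm B) {k : B}
    (hk : σ k = k) :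
    Fh (fun x => θ (gW f σ * ph f x)) (Pi.single k 1) = Fintype.card (Adm B 2) * c := by
  classical
  set q : ℂ := (Fintype.card (Adm B 2) : ℂ) with hq
  have hq0 : q ≠ 0 := by
    rw [hq]
    exact_mod_cast Fintype.card_ne_zero
  have hcq : (Nat.card (Adm B 2) : ℂ) = q := by rw [hq, Nat.card_eq_fintype_card]
  have h2q : 2 * q = (2 : ℂ) ^ Fintype.card B := by
    rcases card_adm (B := B) with h | h
    · exact h
    · exact absurd (Fintype.card_eq_zero_iff.mpr h) (by omega)
  let φK : Perm {i // i ≠ k} →* alternatingGroup α := (gWh f).comp Perm.ofSubtype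
  let a : Perm {i // i ≠ k} →* MulAut (Adm B 2) := kaE.comp Perm.ofSubtype
  let l : Adm B 2 →* ℂˣ := signToC.comp (sy (Pi.single k 1))
  have hfixk : ∀ τ : Perm {i // i ≠ k}, (Perm.ofSubtype τ : Perm B) k = k := fun τ =>
    Perm.ofSubtype_apply_of_not_mem τ (by simp)
  have hfixk' : ∀ τ : Perm {i // i ≠ k}, (Perm.ofSubtype τ : Perm B)⁻¹ k = k := fun τ => by
    rw [Perm.inv_eq_iff_eq]
    exact (hfixk τ).symm
  have hl : ∀ x, (((l x)⁻¹ : ℂˣ) : ℂ) = ((sy (Pi.single k 1) x : ℤ) : ℂ) := by
    intro x
    change (((signToC (sy (Pi.single k 1) x))⁻¹ : ℂˣ) : ℂ) = _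
    rcases Int.units_eq_one_or (sy (Pi.single k 1) x) with h | h
    · rw [h]; simp
    · rw [h]; simp [signToC]
  have hT : IsHeilbronn (twist θ (ph f) φK l) := by
    refine twist_isHeilbronn hθ a (ph f) φK ?_ l ?_
    · intro τ m
      exact gW_conj f _ m
    · intro τ m
      change signToC (sy (Pi.single k 1) (ka (Perm.ofSubtype τ) m)) = signToC _
      rw [sy_single, sy_single, co_ka, hfixk']
  have hTF : ∀ τ : Perm {i // i ≠ k}, twist θ (ph f) φK l τ
      = q⁻¹ * Fh (fun x => θ (gW f (Perm.ofSubtype τ) * ph f x)) (Pi.single k 1) := by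
    intro τ
    unfold twist Fh
    rw [hcq]
    congr 1
    refine Finset.sum_congr rfl fun x _ => ?_
    rw [hl, mul_comm]
    congr 1
    have := hθ.conj (gW f (Perm.ofSubtype τ) * ph f x) (ph f x)
    change θ (ph f x * gW f (Perm.ofSubtype τ)) = θ (gW f (Perm.ofSubtype τ) * ph f x)
    rw [← this]
    congr 1
    group
  have hT1 : twist θ (ph f) φK l 1 = c := by
    rw [hTF, map_one]
    have h1 : gW f (1 : Perm B) = 1 := (gWh f).map_one
    simp only [h1, one_mul]
    rw [Fh_base f (hF f)]
    have h01 : (Pi.single k 1 : B → ZMod 2) ≠ 0 ∧ (Pi.single k 1 : B → ZMod 2) ≠ 1 := by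
      constructor
      · intro h
        have := congrFun h k
        simp at this
      · intro h
        obtain ⟨m, hm, -, -⟩ := exists_notMem3 (by omega) k k k
        have := congrFun h m
        rw [Pi.single_eq_of_ne hm] at this
        simp at this
    rw [sum_sy h01.1 h01.2, mul_zero, zero_add]
    rw [Finset.sum_eq_single k]
    · rw [sum_sy_zero]
      · rw [← hq]; field_simp
      · left
        funext m
        simp only [Pi.add_apply, Pi.zero_apply]
        exact CharTwo.add_self_eq_zero _
    · intro i _ hi
      refine sum_sy ?_ ?_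
      · intro h
        have := congrFun h k
        simp only [Pi.add_apply, Pi.zero_apply, Pi.single_eq_same] at this
        rw [Pi.single_eq_of_ne (Ne.symm hi)] at this
        simp at this
      · intro h
        obtain ⟨m, hm, hm', -⟩ := exists_notMem3 (by omega) k i i
        have := congrFun h m
        simp only [Pi.add_apply, Pi.one_apply] at this
        rw [Pi.single_eq_of_ne hm, Pi.single_eq_of_ne hm'] at this
        simp at this
    · intro h; exact absurd (Finset.mem_univ k) h
  have hTs : ∀ i j : {i // i ≠ k}, i ≠ j → twist θ (ph f) φK l (swap i j) = c := by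
    intro i j hij
    have hij' : (i : B) ≠ j := fun h => hij (Subtype.ext h)
    obtain ⟨m, hmi, hmj, hmk⟩ := exists_notMem3 (by omega) (i : B) j k
    rw [hTF, ofSubtype_swap_eq]
    have hkσ : swap (i : B) j k = k := swap_apply_of_ne_of_ne (Ne.symm i.2) (Ne.symm j.2)
    have hmσ : swap (i : B) j m = m := swap_apply_of_ne_of_ne hmi hmj
    have hex := expand f hθ (by omega) (hF f) (swap (i : B) j) (dd k m)
    -- the values
    have hv0 : θ (gW f (swap (i : B) j)) = r - 4 * c := by
      have h1 := val_swap f hF hij' 0 rfl rfl (by rw [W_one, Perm.sign_one])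
      rw [ev_of (via_mem f (by rw [sign_W0]; exact Int.units_sq _))] at h1
      have h2 : wtB (0 : B → ZMod 2) = 0 := by simp [wtB]
      rw [h2] at h1
      rw [gW, h1]
      push_cast
      ring
    have hv1 : θ (gW f (swap (i : B) j) * ph f (dd k m)) = r - 8 * c := by
      have hs : Perm.sign (W (1 : Perm B) (Pi.single k 1 + Pi.single m 1 : B → ZMod 2)) = 1 :=
        (dd k m).2
      have h1 := val_swap f hF hij'
        (Pi.single k 1 + Pi.single m 1 : B → ZMod 2) (by simp [i.2, Ne.symm hmi])
        (by simp [j.2, Ne.symm hmj]) hs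
      have h3 : Perm.sign (W (swap (i : B) j) (Pi.single k 1 + Pi.single m 1 : B → ZMod 2)) = 1 := by
        rw [W_split, Perm.sign_mul, hs, sign_W0, mul_one]; exact Int.units_sq _
      rw [ev_of (via_mem f h3)] at h1
      have h2 : wtB (Pi.single k 1 + Pi.single m 1 : B → ZMod 2) = 2 := by
        rw [wtB]
        have : (Finset.univ.filter fun l => (Pi.single k 1 + Pi.single m 1 : B → ZMod 2) l ≠ 0)
            = {k, m} := by
          ext l
          simp only [Finset.mem_filter, Finset.mem_univ, true_and, Finset.mem_insert,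
            Finset.mem_singleton, Pi.add_apply]
          by_cases hl : l = k
          · subst hl; simp [Ne.symm hmk]
          · by_cases hl' : l = m
            · subst hl'; simp [hl]
            · simp [hl, hl']
        rw [this, Finset.card_pair (Ne.symm hmk)]
      rw [h2] at h1
      have h4 : gW f (swap (i : B) j) * ph f (dd k m) = ⟨viaEmbeddingHom f (W (swap (i : B) j)
          (Pi.single k 1 + Pi.single m 1 : B → ZMod 2)), via_mem f h3⟩ := by
        apply Subtype.ext
        change viaEmbeddingHom f (W (swap (i : B) j) 0) * viaEmbeddingHom f (W 1 _)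
          = viaEmbeddingHom f (W (swap (i : B) j) _)
        rw [← map_mul, ← W_split]
        rfl
      rw [h4, h1]
      push_cast
      ring
    rw [hv0, hv1] at hex
    -- symmetry
    have hsym : Fh (fun x => θ (gW f (swap (i : B) j) * ph f x)) (Pi.single m 1)
        = Fh (fun x => θ (gW f (swap (i : B) j) * ph f x)) (Pi.single k 1) := by
      unfold Fh
      rw [← Equiv.sum_comp (kaE (swap k m)).toEquiv]
      refine Finset.sum_congr rfl fun x _ => ?_
      have e0 : (kaE (swap k m)).toEquiv x = ka (swap k m) x := rfl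
      rw [e0]
      have e1 : sy (Pi.single m 1) (ka (swap k m) x) = sy (Pi.single k 1) x := by
        rw [sy_single, sy_single, co_ka, swap_inv, swap_apply_right]
      rw [e1]
      congr 1
      have e2 := hθ.conj (gW f (swap (i : B) j) * ph f x) (gW f (swap k m))
      change θ (gW f (swap (i : B) j) * ph f (ka (swap k m) x)) = θ (gW f (swap (i : B) j) * ph f x)
      rw [← e2]
      congr 1
      have e3 : gW f (swap k m) * gW f (swap (i : B) j) = gW f (swap (i : B) j) * gW f (swap k m) := by
        have h1 : gW f (swap k m) * gW f (swap (i : B) j) = gWh f (swap k m * swap (i : B) j) :=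
          ((gWh f).map_mul _ _).symm
        have h2 : gW f (swap (i : B) j) * gW f (swap k m) = gWh f (swap (i : B) j * swap k m) :=
          ((gWh f).map_mul _ _).symm
        rw [h1, h2]
        congr 1
        have : Disjoint (swap k m) (swap (i : B) j) := by
          rw [disjoint_iff_disjoint_support, support_swap (Ne.symm hmk), support_swap hij']
          simp [i.2, j.2, Ne.symm hmi, Ne.symm hmj]
        exact this.commute.eq
      calc gW f (swap (i : B) j) * ph f (ka (swap k m) x)
          = gW f (swap (i : B) j) * (gW f (swap k m) * ph f x * (gW f (swap k m))⁻¹) := by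
            rw [gW_conj]
        _ = (gW f (swap (i : B) j) * gW f (swap k m)) * ph f x * (gW f (swap k m))⁻¹ := by group
        _ = _ := by rw [← e3]; group
    have hsum : ∑ x : {x // swap (i : B) j x = x}, (((d2 (co (dd k m) x) : ℤ) : ℂ) - 1) *
        Fh (fun x => θ (gW f (swap (i : B) j) * ph f x)) (Pi.single (x : B) 1)
        = -4 * Fh (fun x => θ (gW f (swap (i : B) j) * ph f x)) (Pi.single k 1) := by
      have hne : (⟨k, hkσ⟩ : {x // swap (i : B) j x = x}) ≠ ⟨m, hmσ⟩ := by
        intro h; exact hmk (congrArg Subtype.val h).symm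
      have h1 : ∑ x : {x // swap (i : B) j x = x}, (((d2 (co (dd k m) x) : ℤ) : ℂ) - 1) *
          Fh (fun x => θ (gW f (swap (i : B) j) * ph f x)) (Pi.single (x : B) 1)
          = ∑ x ∈ ({⟨k, hkσ⟩, ⟨m, hmσ⟩} : Finset {x // swap (i : B) j x = x}),
            (((d2 (co (dd k m) x) : ℤ) : ℂ) - 1) *
          Fh (fun x => θ (gW f (swap (i : B) j) * ph f x)) (Pi.single (x : B) 1) := by
        symm
        refine Finset.sum_subset (Finset.subset_univ _) fun x _ hx => ?_
        simp only [Finset.mem_insert, Finset.mem_singleton, not_or] at hx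
        rw [co_dd_other (fun h => hx.1 (Subtype.ext h)) (fun h => hx.2 (Subtype.ext h)), d2_zero]
        simp
      rw [h1, Finset.sum_pair hne]
      simp only
      rw [co_dd_left (Ne.symm hmk), co_dd_right (Ne.symm hmk), d2_one, hsym]
      push_cast
      ring
    rw [hsum, ← h2q] at hex
    have h5 : Fh (fun x => θ (gW f (swap (i : B) j) * ph f x)) (Pi.single k 1) = q * c := by
      linear_combination (1 / 8 : ℂ) * hex
    rw [h5]
    field_simp
  -- conclusion
  have hcardB : 5 ≤ Fintype.card {i // i ≠ k} := by
    have : Fintype.card {i // i ≠ k} = Fintype.card B - 1 := by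
      rw [Fintype.card_subtype_compl, Fintype.card_subtype_eq]
    omega
  have hmem : ∀ x, (σ x ≠ k) ↔ (x ≠ k) := by
    intro x
    rw [not_iff_not]
    constructor
    · intro h
      apply σ.injective
      rw [h, hk]
    · rintro rfl; exact hk
  have hof : Perm.ofSubtype (σ.subtypePerm (p := fun x => x ≠ k) hmem) = σ := by
    refine Perm.ofSubtype_subtypePerm (p := fun x => x ≠ k) hmem ?_
    rintro x hx rfl
    exact hx hk
  have h6 := const_of_swap hT hcardB (fun i j hij => by rw [hTs i j hij, hT1])
    (σ.subtypePerm (p := fun x => x ≠ k) hmem)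
  rw [hT1, hTF, hof] at h6
  rw [← h6]
  field_simp

/-- **The formula on the wreath product.** -/
theorem wreath_two (hθ : IsHeilbronn θ) (hB : 6 ≤ Fintype.card B) {r c : ℂ}
    (hF : ∀ f : B × ZMod 2 ↪ α, Fml θ f r c) (f : B × ZMod 2 ↪ α) (σ : Perm B) {a : B → ZMod 2}
    (ha : Perm.sign (W (1 : Perm B) a) = 1) :
    ev θ (viaEmbeddingHom f (W σ a)) = ev θ (viaEmbeddingHom f (W σ 0))
      - 2 * c * (Finset.univ.filter fun k => σ k = k ∧ a k ≠ 0).card := by
  classical
  have h0 : Perm.sign (W σ (0 : B → ZMod 2)) = 1 := by rw [sign_W0]; exact Int.units_sq _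
  have h1 : Perm.sign (W σ a) = 1 := by rw [W_split, Perm.sign_mul, ha, h0, mul_one]
  have h2q : 2 * (Fintype.card (Adm B 2) : ℂ) = (2 : ℂ) ^ Fintype.card B := by
    rcases card_adm (B := B) with h | h
    · exact h
    · exact absurd (Fintype.card_eq_zero_iff.mpr h) (by omega)
  have hq0 : (Fintype.card (Adm B 2) : ℂ) ≠ 0 := by exact_mod_cast Fintype.card_ne_zero
  let e : Adm B 2 := ⟨Multiplicative.ofAdd a, ha⟩
  have hex := expand f hθ (by omega) (hF f) σ e
  have h3 : ∑ k : {k // σ k = k}, (((d2 (co e k) : ℤ) : ℂ) - 1) *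
      Fh (fun x => θ (gW f σ * ph f x)) (Pi.single (k : B) 1)
      = (Fintype.card (Adm B 2) : ℂ) * c * (-2 * (Finset.univ.filter fun k => σ k = k ∧ a k ≠ 0).card) := by
    have h4 : ∀ k : {k // σ k = k}, (((d2 (co e k) : ℤ) : ℂ) - 1) *
        Fh (fun x => θ (gW f σ * ph f x)) (Pi.single (k : B) 1)
        = (Fintype.card (Adm B 2) : ℂ) * c * (-2 * if a k ≠ 0 then 1 else 0) := by
      intro k
      rw [Fh_fixed hθ hB hF f σ k.2]
      have : co e k = a k := rfl
      rw [this]
      rcases zmod_two (a k) with h | h
      · rw [h, d2_zero]; simp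
      · rw [h, d2_one, if_pos one_ne_zero]; push_cast; ring
    rw [Finset.sum_congr rfl (fun k _ => h4 k), ← Finset.mul_sum, ← Finset.mul_sum]
    congr 2
    rw [← Finset.sum_subtype (Finset.univ.filter fun k => σ k = k) (by simp)
      (fun k => if a k ≠ 0 then (1 : ℂ) else 0), ← Finset.sum_filter, Finset.filter_filter,
      Finset.sum_const, nsmul_eq_mul, mul_one]
  have h5 : gW f σ * ph f e = ⟨viaEmbeddingHom f (W σ a), via_mem f h1⟩ := by
    apply Subtype.ext
    change viaEmbeddingHom f (W σ 0) * viaEmbeddingHom f (W 1 _) = viaEmbeddingHom f (W σ _)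
    rw [← map_mul, ← W_split]
    rfl
  rw [h3, h5, ← h2q] at hex
  rw [ev_of (via_mem f h1), ev_of (via_mem f h0)]
  have h6 : gW f σ = ⟨viaEmbeddingHom f (W σ 0), via_mem f h0⟩ := rfl
  rw [h6] at hex
  apply mul_left_cancel₀ hq0
  linear_combination hex / 2

end Pool.Agent.X21.Qd
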