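import Mathlib
import Pool.Agent.X21.Qd.A7

/-!
# One constant for all small primes; stripping for all primes
-/

set_option autoImplicit false
set_option linter.unusedSectionVars false

namespace Pool.Agent.X21.Qd

open Pool.Agent.H302R2 Pool.Agent.X21.Sy Subgroup Equiv Equiv.Perm

variable {α : Type} [Fintype α] [DecidableEq α] {θ : alternatingGroup α → ℂ}

section gen

variable {B : Type} [Fintype B] [DecidableEq B] [Fact (Nat.Prime 2)]

/-- the formula on the wreath product, any number of blocks -/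
theorem wreath_two' (hθ : IsHeilbronn θ) (hn : 12 ≤ Fintype.card α) {r c : ℂ}
    (hP : PF θ 2 r c) (f : B × ZMod 2 ↪ α) (σ : Perm B) {a : B → ZMod 2}
    (ha : Perm.sign (W (1 : Perm B) a) = 1) :
    ev θ (viaEmbeddingHom f (W σ a)) = ev θ (viaEmbeddingHom f (W σ 0))
      - 2 * c * (Finset.univ.filter fun k => σ k = k ∧ a k ≠ 0).card := by
  classical
  set n := Fintype.card α with hnn
  have hcard : Fintype.card B * 2 ≤ n := by
    have := Fintype.card_le_of_embedding f
    rwa [Fintype.card_prod, ZMod.card 2] at this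
  obtain ⟨F, hF⟩ := exists_ext f (n / 2) (by omega) (by omega)
  have h1 : Perm.sign (W (1 : Perm (B ⊕ Fin (n / 2 - Fintype.card B))) (Sum.elim a 0)) = 1 := by
    have e2 : (Equiv.sumCongr (1 : Perm B) (1 : Perm (Fin (n / 2 - Fintype.card B)))) = 1 := by
      ext x; cases x <;> rfl
    have e1 := via_ext f F hF 1 a
    rw [e2] at e1
    rw [← viaEmb_sign F, ← e1, viaEmb_sign, ha]
  have hB6 : 6 ≤ Fintype.card (B ⊕ Fin (n / 2 - Fintype.card B)) := by
    rw [Fintype.card_sum, Fintype.card_fin]; omega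
  have h2 := wreath_two hθ hB6 (fun f => hP _ f) F (Equiv.sumCongr σ 1) h1
  rw [via_ext f F hF σ a, via_ext f F hF σ 0, h2]
  have h3 : (Sum.elim (0 : B → ZMod 2) (0 : Fin (n / 2 - Fintype.card B) → ZMod 2)) = 0 := by
    funext x; cases x <;> rfl
  rw [h3]
  congr 3
  symm
  refine Finset.card_bij (fun i _ => Sum.inl i) ?_ ?_ ?_
  · intro i hi
    simp only [Finset.mem_filter, Finset.mem_univ, true_and] at hi ⊢
    refine ⟨?_, hi.2⟩
    change Sum.inl (σ i) = _
    rw [hi.1]
  · intro i _ j _ hij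
    exact Sum.inl_injective hij
  · rintro (i | j) hj
    · simp only [Finset.mem_filter, Finset.mem_univ, true_and] at hj
      refine ⟨i, ?_, rfl⟩
      simp only [Finset.mem_filter, Finset.mem_univ, true_and]
      exact ⟨Sum.inl_injective hj.1, hj.2⟩
    · simp at hj

end gen

section link

variable {p : ℕ} [Fact p.Prime] [Fact (Nat.Prime 2)]

/-- **One constant.** -/
theorem link (hθ : IsHeilbronn θ) (hn : 12 ≤ Fintype.card α) {r c₂ c : ℂ} (h2 : PF θ 2 r c₂)
    (hp : p ≠ 2) (hc : PF θ p r c) (hpn : 2 * p + 2 ≤ Fintype.card α) : c = c₂ := by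
  classical
  have hpp : p.Prime := Fact.out
  have hodd : Odd p := hpp.odd_of_ne_two hp
  obtain ⟨f⟩ : Nonempty (Option (ZMod p) × ZMod 2 ↪ α) := by
    apply Function.Embedding.nonempty_of_card_le
    rw [Fintype.card_prod, Fintype.card_option, ZMod.card p, ZMod.card 2]
    omega
  let f' : ZMod 2 × ZMod p ↪ α := ⟨fun x => f (some x.2, x.1), fun x y hxy => by
    have h1 := f.injective hxy
    simp only [Prod.mk.injEq, Option.some.injEq] at h1
    exact Prod.ext h1.2 h1.1⟩
  have hf' : ∀ z i, f' (z, i) = f (some i, z) := fun _ _ => rfl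
  have hne : ∀ z x, f' x ≠ f (none, z) := by
    rintro z ⟨z', i⟩ h
    have := congrArg Prod.fst (f.injective h)
    simp at this
  let σ : Perm (Option (ZMod p)) := optionCongr (Equiv.addRight 1)
  have hσn : σ none = none := rfl
  have hσs : ∀ i, σ (some i) = some (i + 1) := fun _ => rfl
  let τ : Perm (ZMod 2) := Equiv.addRight 1
  have hτ : ∀ z, τ z = z + 1 := fun _ => rfl
  let t : Perm α := viaEmbeddingHom f (W 1 (Pi.single none 1))
  have htn : ∀ z, t (f (none, z)) = f (none, z + 1) := by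
    intro z
    change viaEmbeddingHom f (W 1 (Pi.single none 1)) _ = _
    rw [viaEmb_apply, W_apply]
    simp
  have hts : ∀ i z, t (f (some i, z)) = f (some i, z) := by
    intro i z
    change viaEmbeddingHom f (W 1 (Pi.single none 1)) _ = _
    rw [viaEmb_apply, W_apply]
    simp
  have hto : ∀ y, (∀ x, f x ≠ y) → t y = y := fun y hy => viaEmb_notMem f _ hy
  have hext : ∀ A C : Perm α, (∀ z, A (f (none, z)) = C (f (none, z))) →
      (∀ i z, A (f (some i, z)) = C (f (some i, z))) →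
      (∀ y, (∀ x, f x ≠ y) → A y = C y) → A = C := by
    intro A C h1 h2 h3
    ext y
    by_cases hy : ∃ x, f x = y
    · obtain ⟨⟨_ | i, z⟩, rfl⟩ := hy
      · exact h1 z
      · exact h2 i z
    · push Not at hy
      exact h3 y hy
  have hf'o : ∀ y, (∀ x, f x ≠ y) → ∀ x, f' x ≠ y := fun y hy x => hy _
  -- the three identities
  have E1 : viaEmbeddingHom f (W σ 1) = viaEmbeddingHom f' (W τ 1) * t := by
    refine hext _ _ ?_ ?_ ?_
    · intro z
      rw [Perm.mul_apply, htn, viaEmb_notMem f' _ (hne _), viaEmb_apply, W_apply, hσn]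
      rfl
    · intro i z
      rw [Perm.mul_apply, hts, viaEmb_apply, W_apply, ← hf', viaEmb_apply, W_apply, hf']
      simp only [hσs, hτ]
      rfl
    · intro y hy
      rw [Perm.mul_apply, hto y hy, viaEmb_notMem f _ hy, viaEmb_notMem f' _ (hf'o y hy)]
  have E2 : viaEmbeddingHom f' (W τ 0) * t = viaEmbeddingHom f (W 1 1) := by
    refine hext _ _ ?_ ?_ ?_
    · intro z
      rw [Perm.mul_apply, htn, viaEmb_notMem f' _ (hne _), viaEmb_apply, W_apply]
      rfl
    · intro i z
      rw [Perm.mul_apply, hts, ← hf', viaEmb_apply, W_apply, hf', hf', viaEmb_apply, W_apply]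
      simp only [hτ, Pi.zero_apply, add_zero]
      rfl
    · intro y hy
      rw [Perm.mul_apply, hto y hy, viaEmb_notMem f _ hy, viaEmb_notMem f' _ (hf'o y hy)]
  have E3 : viaEmbeddingHom f (W σ 0) = viaEmbeddingHom f' (W 1 1) := by
    refine hext _ _ ?_ ?_ ?_
    · intro z
      rw [viaEmb_notMem f' _ (hne _), viaEmb_apply, W_apply, hσn]
      simp
    · intro i z
      rw [viaEmb_apply, W_apply, ← hf', viaEmb_apply, W_apply, hf']
      simp only [hσs, Pi.zero_apply, add_zero]
      rfl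
    · intro y hy
      rw [viaEmb_notMem f _ hy, viaEmb_notMem f' _ (hf'o y hy)]
  -- signs
  have hsum1 : ∑ i : Option (ZMod p), (1 : Option (ZMod p) → ZMod 2) i = 0 := by
    simp only [Pi.one_apply, Finset.sum_const, Finset.card_univ, Fintype.card_option, ZMod.card p,
      nsmul_eq_mul, mul_one]
    obtain ⟨k, hk⟩ := hodd
    rw [hk]
    have : ((2 * k + 1 + 1 : ℕ) : ZMod 2) = ((2 * (k + 1) : ℕ) : ZMod 2) := by
      congr 1
    rw [this, Nat.cast_mul]
    have h20 : ((2 : ℕ) : ZMod 2) = 0 := ZMod.natCast_self 2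
    rw [h20, zero_mul]
  have hs1 : Perm.sign (W (1 : Perm (Option (ZMod p))) (1 : Option (ZMod p) → ZMod 2)) = 1 :=
    (sign_tr_two _).mpr hsum1
  have hsg : Perm.sign (viaEmbeddingHom f' (W τ 0) * t) = 1 := by
    rw [E2, viaEmb_sign, hs1]
  have hcomm : ∀ w : Perm (ZMod 2 × ZMod p), t * viaEmbeddingHom f' w
      = viaEmbeddingHom f' w * t := by
    intro w
    refine hext _ _ ?_ ?_ ?_
    · intro z
      rw [Perm.mul_apply, Perm.mul_apply, viaEmb_notMem f' _ (hne _), htn,
        viaEmb_notMem f' _ (hne _)]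
    · intro i z
      rw [Perm.mul_apply, Perm.mul_apply, hts, ← hf', viaEmb_apply]
      exact hts _ _
    · intro y hy
      rw [Perm.mul_apply, Perm.mul_apply, hto y hy, viaEmb_notMem f' _ (hf'o y hy), hto y hy]
  have hκ : ∀ x : ZMod 2 → ZMod p, (viaEmbeddingHom f' (W τ 0) * t) * viaEmbeddingHom f' (W 1 x) *
      (viaEmbeddingHom f' (W τ 0) * t)⁻¹ = viaEmbeddingHom f' (W 1 (fun i => x (τ⁻¹ i))) := by
    intro x
    rw [mul_inv_eq_iff_eq_mul, mul_assoc, hcomm, ← mul_assoc, ← mul_assoc, ← map_mul, ← map_mul]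
    congr 2
    have := W_conj τ x
    rw [mul_inv_eq_iff_eq_mul] at this
    exact this
  have hw := wr_moved hθ (Or.inr hp) f' (hc _ f') (σ := τ) (viaEmbeddingHom f' (W τ 0) * t) hsg hκ
    (a := 1) (sign_tr_odd hp _) (fun i hi => by
      exfalso
      rw [hτ] at hi
      exact z2c i (by rw [add_comm]; exact hi))
  have hx : viaEmbeddingHom f' (W τ 0) * t * viaEmbeddingHom f' (W 1 1)
      = viaEmbeddingHom f (W σ 1) := by
    rw [E1, mul_assoc, hcomm, ← mul_assoc, ← map_mul, ← W_split]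
  rw [hx, E2] at hw
  have hv1 := h2 _ f 1 hs1
  have hv2 := wreath_two' hθ hn h2 f σ hs1
  have hv3 := hc _ f' 1 (sign_tr_odd hp _)
  rw [E3, hv3] at hv2
  rw [hv2, hv1] at hw
  have hw1 : wtB (1 : Option (ZMod p) → ZMod 2) = p + 1 := by
    rw [wtB, Finset.filter_true_of_mem (fun i _ => by simp), Finset.card_univ,
      Fintype.card_option, ZMod.card]
  have hw2 : wtB (1 : ZMod 2 → ZMod p) = 2 := by
    rw [wtB, Finset.filter_true_of_mem (fun i _ => by simp), Finset.card_univ, ZMod.card]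
  have hw3 : (Finset.univ.filter fun k : Option (ZMod p) => σ k = k ∧
      (1 : Option (ZMod p) → ZMod 2) k ≠ 0).card = 1 := by
    rw [Finset.card_eq_one]
    refine ⟨none, ?_⟩
    ext k
    simp only [Finset.mem_filter, Finset.mem_univ, true_and, Finset.mem_singleton, Pi.one_apply,
      ne_eq, one_ne_zero, not_false_eq_true, and_true]
    cases k with
    | none => simp [hσn]
    | some i =>
      rw [hσs]
      simp
  rw [hw1, hw2, hw3] at hw
  have hp0 : (p : ℂ) ≠ 0 := by exact_mod_cast hpp.ne_zero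
  apply mul_left_cancel₀ hp0
  push_cast at hw
  linear_combination (-1 / 2 : ℂ) * hw

end link

section strips

/-- the effect of removing a cycle of length `p` -/
def Strip (θ : alternatingGroup α → ℂ) (p : ℕ) [Fact p.Prime] (c : ℂ) : Prop :=
  ∀ (f : Unit × ZMod p ↪ α) (h : Perm α), Perm.sign h = 1 → (∀ x, h (f x) = f x) →
    ∀ z : ZMod p, z ≠ 0 →
      ev θ (h * viaEmbeddingHom f (W 1 (fun _ => z))) = ev θ h - p * c

variable {p : ℕ} [Fact p.Prime]

lemma strip_small (hθ : IsHeilbronn θ) {r c : ℕ} (hr : θ 1 = r) (hn : 28 ≤ Fintype.card α)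
    (hlt : 18 * r < (Fintype.card α - 2) * (Fintype.card α - 2)) (hp : p ≠ 2)
    (hc : Fintype.card α / p * (p - 1) * c ≤ r) (hP : PF θ p r c)
    (hpn : 2 * p + 2 ≤ Fintype.card α) : Strip θ p c := by
  have hpp : p.Prime := Fact.out
  have hp2 := hpp.two_le
  intro f h hs hfix z hz
  have hd2 : Fintype.card α < p * (Fintype.card α / p + 1) :=
    Nat.lt_mul_div_succ _ (show 0 < p by omega)
  have hnum := num_strip (n := Fintype.card α) (b := Fintype.card α / p) (p := p) (by omega) hpn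
    (by omega) hc hlt
  refine strip hθ (by exact_mod_cast hr) hp f (c := c) ?_ (by omega) (by omega) hs hfix hz
  intro z hz
  rw [hP _ f _ (sign_tr_odd hp _)]
  have : wtB (fun _ : Unit => z) = 1 := by
    rw [wtB, Finset.filter_true_of_mem (fun i _ => hz)]
    simp
  rw [this]
  push_cast
  ring

/-- all cycles of length `p` have the same value -/
lemma cyc_indep (hθ : IsHeilbronn θ) (hpn : p + 2 ≤ Fintype.card α) (f f' : Unit × ZMod p ↪ α)
    (w : Perm (Unit × ZMod p)) :
    ev θ (viaEmbeddingHom f' w) = ev θ (viaEmbeddingHom f w) := by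
  classical
  obtain ⟨π, hπ⟩ := exists_perm_emb f f'
  have hcard : 1 < (Finset.univ \ Finset.univ.map f).card := by
    rw [Finset.card_sdiff_of_subset (Finset.subset_univ _), Finset.card_map, Finset.card_univ,
      Finset.card_univ, Fintype.card_prod, ZMod.card]
    simp only [Fintype.card_unit, one_mul]
    omega
  obtain ⟨u, hu, v, hv, huv⟩ := Finset.one_lt_card.mp hcard
  have hu' : ∀ x, f x ≠ u := by
    intro x hx
    rw [Finset.mem_sdiff] at hu
    exact hu.2 (Finset.mem_map.mpr ⟨x, Finset.mem_univ _, hx⟩)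
  have hv' : ∀ x, f x ≠ v := by
    intro x hx
    rw [Finset.mem_sdiff] at hv
    exact hv.2 (Finset.mem_map.mpr ⟨x, Finset.mem_univ _, hx⟩)
  rw [via_conj f f' hπ]
  refine ev_conj' hθ π _ (swap u v) (Perm.sign_swap huv) ?_
  have := Equiv.mul_swap_eq_swap_mul (viaEmbeddingHom f w) u v
  rw [viaEmb_notMem f _ hu', viaEmb_notMem f _ hv'] at this
  exact this.symm

/-- the constant of a large prime -/
lemma exists_big (hθ : IsHeilbronn θ) {r : ℕ} (hr : θ 1 = r) (hp : p ≠ 2)
    (hpn : p + 2 ≤ Fintype.card α) : ∃ c : ℕ, (p - 1) * c ≤ r ∧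
      ∀ (f : Unit × ZMod p ↪ α) (z : ZMod p), z ≠ 0 →
        ev θ (viaEmbeddingHom f (W 1 (fun _ => z))) = (r : ℂ) - p * c := by
  classical
  have hpp : p.Prime := Fact.out
  have hp2 := hpp.two_le
  have hp0 : (p : ℂ) ≠ 0 := by exact_mod_cast hpp.ne_zero
  obtain ⟨f₀⟩ : Nonempty (Unit × ZMod p ↪ α) := by
    apply Function.Embedding.nonempty_of_card_le
    rw [Fintype.card_prod, ZMod.card p]
    simp only [Fintype.card_unit, one_mul]
    omega
  set v := ev θ (viaEmbeddingHom f₀ (W 1 (fun _ => (1 : ZMod p)))) with hv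
  have hval : ∀ (f : Unit × ZMod p ↪ α) (z : ZMod p), z ≠ 0 →
      ev θ (viaEmbeddingHom f (W 1 (fun _ => z))) = v := by
    intro f z hz
    let m : Unit × ZMod p ≃ Unit × ZMod p := Equiv.prodCongrRight (fun _ => Equiv.mulLeft₀ z hz)
    have h1 : ∀ x, (W (1 : Perm Unit) (fun _ => z)) (m x) = m ((W 1 (fun _ => (1 : ZMod p))) x) := by
      rintro ⟨u, x⟩
      rw [W_apply]
      change (u, z * x + z) = (u, z * (x + 1))
      rw [mul_add, mul_one]
    rw [via_eq_of m f _ _ h1, hv]
    exact cyc_indep hθ hpn f₀ _ _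
  set e : AddChar (ZMod p) ℂ := AddChar.FiniteField.primitiveChar_to_Complex (ZMod p) with he
  have heprim : e.IsPrimitive := AddChar.FiniteField.primitiveChar_to_Complex_isPrimitive (ZMod p)
  let φ : Multiplicative (ZMod p) →* alternatingGroup α :=
    ((viaEmbeddingHom f₀).comp (trU p)).codRestrict (alternatingGroup α)
      (fun c => via_mem f₀ (sign_tr_odd hp _))
  have hφ : ∀ z, θ (φ (Multiplicative.ofAdd z)) = ev θ (viaEmbeddingHom f₀ (W 1 (fun _ => z))) := by
    intro z
    rw [ev_of (via_mem f₀ (sign_tr_odd hp _))]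
    rfl
  have hφ0 : θ (φ (Multiplicative.ofAdd 0)) = r := by
    rw [← hr]; congr 1; exact map_one φ
  have hcard : (Nat.card (Multiplicative (ZMod p)) : ℂ) = p := by
    have : Nat.card (Multiplicative (ZMod p)) = p := by
      rw [Nat.card_congr Multiplicative.toAdd, Nat.card_eq_fintype_card, ZMod.card]
    rw [this]
  let l : ZMod p → (Multiplicative (ZMod p) →* ℂˣ) := fun j =>
    MonoidHom.toHomUnits
      { toFun := fun a => e (j * Multiplicative.toAdd a)
        map_one' := by simp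
        map_mul' := fun a b => by
          rw [← AddChar.map_add_eq_mul, toAdd_mul, mul_add] }
  have hl' : ∀ j a, (((l j a)⁻¹ : ℂˣ) : ℂ) = e (-(j * Multiplicative.toAdd a)) := by
    intro j a
    have hl : ((l j a : ℂˣ) : ℂ) = e (j * Multiplicative.toAdd a) := rfl
    rw [Units.val_inv_eq_inv_val, hl, AddChar.map_neg_eq_inv]
  have hsum : ∀ j : ZMod p, ∑ a, θ (φ a) * (((l j a)⁻¹ : ℂˣ) : ℂ)
      = r + v * ((∑ x : ZMod p, e (-(j * x))) - 1) := by
    intro j
    rw [← Multiplicative.ofAdd.sum_comp, ← Finset.add_sum_erase _ _ (Finset.mem_univ (0 : ZMod p)),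
      hφ0, hl', ← Finset.add_sum_erase _ (fun x => e (-(j * x))) (Finset.mem_univ (0 : ZMod p))]
    simp only [toAdd_ofAdd, mul_zero, neg_zero, AddChar.map_zero_eq_one, add_sub_cancel_left,
      mul_one]
    congr 1
    rw [Finset.mul_sum]
    refine Finset.sum_congr rfl fun x hx => ?_
    rw [hφ, hval f₀ x (Finset.mem_erase.mp hx).1, hl']
    rfl
  obtain ⟨n₁, hn₁⟩ := hθ.mult_hom φ (l 1)
  obtain ⟨n₀, hn₀⟩ := hθ.mult_hom φ (l 0)
  rw [hsum, hcard] at hn₁ hn₀
  have hs1 : ∑ x : ZMod p, e (-(1 * x)) = 0 := by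
    have h4 := AddChar.sum_mulShift (-1 : ZMod p) heprim
    rw [if_neg (by simp)] at h4
    rw [← Nat.cast_zero (R := ℂ), ← h4]
    refine Finset.sum_congr rfl fun x _ => ?_
    congr 1; ring
  have hs0 : ∑ x : ZMod p, e (-(0 * x)) = p := by
    simp [ZMod.card]
  rw [hs1] at hn₁
  rw [hs0] at hn₀
  have hv' : v = r - p * n₁ := by linear_combination -hn₁
  refine ⟨n₁, ?_, fun f z hz => by rw [hval f z hz, hv']⟩
  rw [hv'] at hn₀
  have h5 : (r : ℂ) = n₀ + (p - 1) * n₁ := by
    apply mul_left_cancel₀ hp0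
    linear_combination hn₀
  have h6 : (((p - 1 : ℕ) : ℂ)) = (p : ℂ) - 1 := by
    rw [Nat.cast_sub (by omega)]; simp
  rw [← h6] at h5
  have h7 : r = n₀ + (p - 1) * n₁ := by exact_mod_cast h5
  omega

lemma strip_big (hθ : IsHeilbronn θ) {r : ℕ} (hr : θ 1 = r) (hp : p ≠ 2)
    (hpn : p + 14 ≤ Fintype.card α) (hlt : r < (p - 1) * (Fintype.card α - p - 2)) :
    ∃ c : ℕ, (p - 1) * c ≤ r ∧ Strip θ p c := by
  obtain ⟨c, hc, hv⟩ := exists_big hθ hr hp (by omega)
  refine ⟨c, hc, ?_⟩
  intro f h hs hfix z hz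
  have h1 : c < Fintype.card α - p - 2 := by
    have := lt_of_le_of_lt hc hlt
    exact Nat.lt_of_mul_lt_mul_left this
  exact strip hθ (by exact_mod_cast hr) hp f (c := c) (hv f) (by omega) (by omega) hs hfix hz

end strips

end Pool.Agent.X21.Qd
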