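import Mathlib
import Pool.Agent.X21.Qd.A8

/-!
# Wreath coordinates on the points of period divisible by `p`
-/

set_option autoImplicit false
set_option linter.unusedSectionVars false

namespace Pool.Agent.X21.Qd

open Pool.Agent.H302R2 Pool.Agent.X21.Sy Subgroup Equiv Equiv.Perm Function

section per

variable {Ω : Type} [Fintype Ω]

lemma per_dvd (g : Perm Ω) (x : Ω) (k : ℕ) : (g ^ k) x = x ↔ minimalPeriod g x ∣ k := by
  rw [← isPeriodicPt_iff_minimalPeriod_dvd, IsPeriodicPt, IsFixedPt, iterate_eq_pow]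

lemma per_pos (g : Perm Ω) (x : Ω) : 0 < minimalPeriod g x := by
  classical
  have h1 := (per_dvd g x (orderOf g)).mp (by rw [pow_orderOf_eq_one]; rfl)
  exact Nat.pos_of_dvd_of_pos h1 (orderOf_pos g)

lemma per_eq_of {Ω' : Type} [Fintype Ω'] (g : Perm Ω) (h : Perm Ω') (x : Ω) (y : Ω')
    (H : ∀ k : ℕ, (g ^ k) x = x ↔ (h ^ k) y = y) : minimalPeriod g x = minimalPeriod h y := by
  rw [minimalPeriod_eq_minimalPeriod_iff]
  intro k
  rw [IsPeriodicPt, IsFixedPt, IsPeriodicPt, IsFixedPt, iterate_eq_pow, iterate_eq_pow]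
  exact H k

lemma per_apply_pow (g : Perm Ω) (x : Ω) (j : ℕ) :
    minimalPeriod g ((g ^ j) x) = minimalPeriod g x := by
  refine per_eq_of g g _ _ fun k => ?_
  rw [← Perm.mul_apply, ← pow_add, add_comm, pow_add, Perm.mul_apply, (g ^ j).injective.eq_iff]

lemma per_apply (g : Perm Ω) (x : Ω) : minimalPeriod g (g x) = minimalPeriod g x := by
  have := per_apply_pow g x 1
  rwa [pow_one] at this

lemma per_le_card (g : Perm Ω) (x : Ω) : minimalPeriod g x ≤ Fintype.card Ω := by
  classical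
  have h1 := iterate_injOn_Iio_minimalPeriod (f := (g : Ω → Ω)) (x := x)
  have h2 : ((Finset.range (minimalPeriod g x)).image (fun n => (g : Ω → Ω)^[n] x)).card
      = minimalPeriod g x := by
    rw [Finset.card_image_of_injOn, Finset.card_range]
    intro a ha b hb hab
    exact h1 (by simpa using ha) (by simpa using hb) hab
  rw [← h2]
  exact Finset.card_le_univ _

variable {p : ℕ} [Fact p.Prime]

/-- coordinates -/
theorem exists_coord_p (g : Perm Ω) : ∃ (b : ℕ) (f : Fin b × ZMod p ↪ Ω) (σ : Perm (Fin b))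
    (a : Fin b → ZMod p), (∀ x, g (f x) = f (W σ a x)) ∧
      (∀ x, (g ^ (minimalPeriod g (f x) / p)) (f x) = f (x.1, x.2 + 1)) ∧
      (∀ y, (∃ x, f x = y) ↔ p ∣ minimalPeriod g y) := by
  classical
  have hpp : p.Prime := Fact.out
  let M := {x : Ω // p ∣ minimalPeriod g x}
  let gM : Perm M := g.subtypePerm (p := fun x => p ∣ minimalPeriod g x)
    (fun x => by rw [per_apply])
  have hgM : ∀ x : M, (gM x : Ω) = g x := fun _ => rfl
  let y0 : M → M := fun x => ⟨(g ^ (minimalPeriod g x / p)) x, by rw [per_apply_pow]; exact x.2⟩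
  have hy0 : ∀ x : M, (y0 x : Ω) = (g ^ (minimalPeriod g (x : Ω) / p)) x := fun _ => rfl
  have hinj : Injective y0 := by
    intro x z h
    have h1 := congrArg Subtype.val h
    rw [hy0, hy0] at h1
    have h2 : minimalPeriod g (x : Ω) = minimalPeriod g (z : Ω) := by
      rw [← per_apply_pow g x (minimalPeriod g (x : Ω) / p), h1, per_apply_pow]
    rw [h2] at h1
    exact Subtype.ext ((g ^ (minimalPeriod g (z : Ω) / p)).injective h1)
  let y : Perm M := Equiv.ofBijective y0 (Finite.injective_iff_bijective.mp hinj)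
  have hy : ∀ x : M, (y x : Ω) = (g ^ (minimalPeriod g (x : Ω) / p)) x := fun _ => rfl
  have hyk : ∀ (j : ℕ) (x : M), ((y ^ j) x : Ω) = (g ^ (j * (minimalPeriod g (x : Ω) / p))) x := by
    intro j
    induction j with
    | zero => intro x; simp
    | succ j ih =>
      intro x
      rw [pow_succ', Perm.mul_apply, hy, ih, per_apply_pow, ← Perm.mul_apply, ← pow_add]
      congr 2
      ring
  have hyp : y ^ p = 1 := by
    ext x
    rw [hyk, Nat.mul_div_cancel' x.2]
    exact (per_dvd g x _).mpr dvd_rfl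
  have hyf : ∀ x, y x ≠ x := by
    intro x h
    have h1 := congrArg Subtype.val h
    rw [hy, per_dvd] at h1
    have h2 := per_pos g (x : Ω)
    have h3 : 0 < minimalPeriod g (x : Ω) / p :=
      Nat.div_pos (Nat.le_of_dvd h2 x.2) hpp.pos
    have h4 := Nat.le_of_dvd h3 h1
    have h5 := Nat.div_lt_self h2 hpp.one_lt
    omega
  have hgy : gM * y = y * gM := by
    ext x
    rw [Perm.mul_apply, Perm.mul_apply, hgM, hy, hy, hgM, per_apply, ← Perm.mul_apply,
      ← Perm.mul_apply, ← pow_succ', pow_succ]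
  obtain ⟨b, e, σ, a, h1, h2⟩ := exists_coord hyp hyf hgy
  refine ⟨b, e.toEmbedding.trans (Function.Embedding.subtype _), σ, a, ?_, ?_, ?_⟩
  · intro x
    change g (e x : Ω) = (e (W σ a x) : Ω)
    rw [← h1, hgM]
  · intro x
    change (g ^ (minimalPeriod g (e x : Ω) / p)) (e x : Ω) = (e (x.1, x.2 + 1) : Ω)
    rw [← h2, hy]
  · intro z
    constructor
    · rintro ⟨x, rfl⟩
      exact (e x).2
    · intro hz
      exact ⟨e.symm ⟨z, hz⟩, by
        change ((e (e.symm ⟨z, hz⟩) : M) : Ω) = z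
        rw [Equiv.apply_symm_apply]⟩

end per

section reduce

variable {α : Type} [Fintype α] [DecidableEq α]
variable {p : ℕ} [Fact p.Prime] {b : ℕ}

/-- data of a permutation in wreath coordinates -/
structure RD (p : ℕ) [Fact p.Prime] (g : Perm α) (b : ℕ) (f : Fin b × ZMod p ↪ α)
    (σ : Perm (Fin b)) (a : Fin b → ZMod p) : Prop where
  h1 : ∀ x, g (f x) = f (W σ a x)
  h2 : ∀ x, (g ^ (minimalPeriod g (f x) / p)) (f x) = f (x.1, x.2 + 1)
  h3 : ∀ y, (∃ x, f x = y) ↔ p ∣ minimalPeriod g y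

variable {g : Perm α} {f : Fin b × ZMod p ↪ α} {σ : Perm (Fin b)} {a : Fin b → ZMod p}

/-- the permutation with the translations removed -/
noncomputable def red (g : Perm α) (f : Fin b × ZMod p ↪ α) (a : Fin b → ZMod p) : Perm α :=
  g * (viaEmbeddingHom f (W 1 a))⁻¹

lemma red_mul : red g f a * viaEmbeddingHom f (W 1 a) = g := by
  rw [red, inv_mul_cancel_right]

lemma via_inv_apply (x : Fin b × ZMod p) :
    (viaEmbeddingHom f (W 1 a))⁻¹ (f x) = f (x.1, x.2 - a x.1) := by
  rw [Perm.inv_eq_iff_eq, viaEmb_apply, W_apply]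
  simp

lemma via_inv_out {y : α} (hy : ∀ x, f x ≠ y) : (viaEmbeddingHom f (W 1 a))⁻¹ y = y := by
  rw [Perm.inv_eq_iff_eq, viaEmb_notMem f _ hy]

lemma RD.red_apply (H : RD p g b f σ a) (i : Fin b) (z : ZMod p) :
    red g f a (f (i, z)) = f (σ i, z) := by
  rw [red, Perm.mul_apply, via_inv_apply, H.h1, W_apply]
  simp

lemma red_out {y : α} (hy : ∀ x, f x ≠ y) : red g f a y = g y := by
  rw [red, Perm.mul_apply, via_inv_out hy]

lemma RD.out_apply (H : RD p g b f σ a) {y : α} (hy : ∀ x, f x ≠ y) : ∀ x, f x ≠ g y := by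
  intro x hx
  have h1 := (H.h3 (g y)).mp ⟨x, hx⟩
  rw [per_apply] at h1
  obtain ⟨z, hz⟩ := (H.h3 y).mpr h1
  exact hy z hz

lemma RD.red_pow (H : RD p g b f σ a) (k : ℕ) (i : Fin b) (z : ZMod p) :
    (red g f a ^ k) (f (i, z)) = f ((σ ^ k) i, z) := by
  induction k with
  | zero => simp
  | succ k ih => rw [pow_succ', Perm.mul_apply, ih, H.red_apply, pow_succ', Perm.mul_apply]

lemma RD.out_pow (H : RD p g b f σ a) (k : ℕ) {y : α} (hy : ∀ x, f x ≠ y) :
    (red g f a ^ k) y = (g ^ k) y ∧ ∀ x, f x ≠ (g ^ k) y := by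
  induction k with
  | zero => exact ⟨by simp, by simpa using hy⟩
  | succ k ih =>
    constructor
    · rw [pow_succ', Perm.mul_apply, ih.1, pow_succ', Perm.mul_apply, red_out ih.2]
    · rw [pow_succ', Perm.mul_apply]
      exact H.out_apply ih.2

lemma RD.per_in (H : RD p g b f σ a) (i : Fin b) (z : ZMod p) :
    minimalPeriod (red g f a) (f (i, z)) = minimalPeriod σ i := by
  refine per_eq_of _ _ _ _ fun k => ?_
  rw [H.red_pow]
  constructor
  · intro h
    exact congrArg Prod.fst (f.injective h)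
  · intro h; rw [h]

lemma RD.per_out (H : RD p g b f σ a) {y : α} (hy : ∀ x, f x ≠ y) :
    minimalPeriod (red g f a) y = minimalPeriod g y := by
  refine per_eq_of _ _ _ _ fun k => ?_
  rw [(H.out_pow k hy).1]

lemma RD.shift (H : RD p g b f σ a) (j : ℕ) (x : Fin b × ZMod p) :
    (g ^ (j * (minimalPeriod g (f x) / p))) (f x) = f (x.1, x.2 + j) := by
  induction j with
  | zero => simp
  | succ j ih =>
    have h1 : minimalPeriod g (f (x.1, x.2 + j)) = minimalPeriod g (f x) := by
      rw [← ih, per_apply_pow]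
    have h2 := H.h2 (x.1, x.2 + j)
    rw [h1, ← ih, ← Perm.mul_apply, ← pow_add] at h2
    have h3 : (j + 1) * (minimalPeriod g (f x) / p)
        = minimalPeriod g (f x) / p + j * (minimalPeriod g (f x) / p) := by ring
    rw [h3, h2]
    simp only [Nat.cast_succ, add_assoc]

/-- the order is divided by `p` -/
lemma RD.pow_red (H : RD p g b f σ a) {N : ℕ} (hN : g ^ N = 1) (hpN : p ∣ N) :
    red g f a ^ (N / p) = 1 := by
  have hpp : p.Prime := Fact.out
  ext y
  rw [Perm.one_apply]
  by_cases hy : ∃ x, f x = y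
  · obtain ⟨⟨i, z⟩, rfl⟩ := hy
    rw [H.red_pow]
    have h1 : minimalPeriod g (f (i, z)) ∣ N := by
      rw [← per_dvd, hN]; rfl
    obtain ⟨l, hl⟩ := (H.h3 _).mp ⟨(i, z), rfl⟩
    obtain ⟨m, hm⟩ := h1
    have h2 : N / p = m * (minimalPeriod g (f (i, z)) / p) := by
      rw [hm, hl, Nat.mul_div_cancel_left _ hpp.pos, mul_assoc, Nat.mul_div_cancel_left _ hpp.pos,
        mul_comm]
    have h3 := H.shift m (i, z)
    rw [← h2] at h3
    -- first coordinate
    have h4 : ∀ (k : ℕ) (x : Fin b × ZMod p), ∃ w, (g ^ k) (f x) = f ((σ ^ k) x.1, w) := by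
      intro k
      induction k with
      | zero => intro x; exact ⟨x.2, by simp⟩
      | succ k ih =>
        intro x
        obtain ⟨w, hw⟩ := ih x
        refine ⟨w + a ((σ ^ k) x.1), ?_⟩
        rw [pow_succ', Perm.mul_apply, hw, H.h1, W_apply, pow_succ', Perm.mul_apply]
    obtain ⟨w, hw⟩ := h4 (N / p) (i, z)
    rw [hw] at h3
    have h5 := congrArg Prod.fst (f.injective h3)
    simp only at h5
    rw [h5]
  · push Not at hy
    rw [(H.out_pow _ hy).1, per_dvd]
    have h1 : minimalPeriod g y ∣ N := by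
      rw [← per_dvd, hN]; rfl
    have h2 : ¬ p ∣ minimalPeriod g y := by
      intro h
      obtain ⟨x, hx⟩ := (H.h3 y).mpr h
      exact hy x hx
    have h3 : (minimalPeriod g y).Coprime p := (hpp.coprime_iff_not_dvd.mpr h2).symm
    obtain ⟨m, hm⟩ := hpN
    rw [hm, Nat.mul_div_cancel_left _ hpp.pos]
    rw [hm] at h1
    exact h3.dvd_of_dvd_mul_left h1

/-- fixed blocks are the cycles of length `p` -/
lemma RD.per_fixed (H : RD p g b f σ a) {i : Fin b} (hi : σ i = i) (z : ZMod p) :
    minimalPeriod g (f (i, z)) = p ∧ a i ≠ 0 := by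
  have hpp : p.Prime := Fact.out
  have hdvd : p ∣ minimalPeriod g (f (i, z)) := (H.h3 _).mp ⟨_, rfl⟩
  have hk : ∀ k : ℕ, (g ^ k) (f (i, z)) = f (i, z + k * a i) := by
    intro k
    induction k with
    | zero => simp
    | succ k ih =>
      rw [pow_succ', Perm.mul_apply, ih, H.h1, W_apply]
      simp only [hi]
      congr 2
      push_cast
      ring
  constructor
  · refine Nat.dvd_antisymm ?_ hdvd
    rw [← per_dvd, hk]
    simp
  · intro h0
    have h1 := hk 1
    rw [h0, mul_zero, add_zero, per_dvd] at h1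
    have h2 := hdvd.trans h1
    exact hpp.one_lt.ne' (Nat.dvd_one.mp h2)

/-- a moved block does not lie on a cycle of prime length -/
lemma RD.per_moved (H : RD p g b f σ a) {i : Fin b} (hi : σ i ≠ i) (z : ZMod p) :
    ¬ (minimalPeriod g (f (i, z))).Prime ∧ 2 ≤ minimalPeriod g (f (i, z)) := by
  have hpp : p.Prime := Fact.out
  have hdvd : p ∣ minimalPeriod g (f (i, z)) := (H.h3 _).mp ⟨_, rfl⟩
  constructor
  · intro h
    have h1 : p = minimalPeriod g (f (i, z)) := (Nat.prime_dvd_prime_iff_eq hpp h).mp hdvd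
    have h2 := H.h2 (i, z)
    rw [← h1, Nat.div_self hpp.pos, pow_one, H.h1, W_apply] at h2
    exact hi (congrArg Prod.fst (f.injective h2))
  · exact hpp.two_le.trans (Nat.le_of_dvd (per_pos g _) hdvd)

/-- conjugation of translations -/
lemma RD.conj_tr (H : RD p g b f σ a) (x : Fin b → ZMod p) :
    red g f a * viaEmbeddingHom f (W 1 x) * (red g f a)⁻¹
      = viaEmbeddingHom f (W 1 (fun i => x (σ⁻¹ i))) := by
  rw [mul_inv_eq_iff_eq_mul]
  ext y
  rw [Perm.mul_apply, Perm.mul_apply]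
  by_cases hy : ∃ x, f x = y
  · obtain ⟨⟨i, z⟩, rfl⟩ := hy
    rw [viaEmb_apply, W_apply]
    simp only [Perm.one_apply]
    rw [H.red_apply, H.red_apply, viaEmb_apply, W_apply]
    simp
  · push Not at hy
    rw [viaEmb_notMem f _ hy, red_out hy, viaEmb_notMem f _ (H.out_apply hy)]

end reduce

end Pool.Agent.X21.Qd
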