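import Mathlib
import Pool.Agent.X21.Qd.A9

/-!
# The structure theorem in the quadratic range
-/

set_option autoImplicit false
set_option linter.unusedSectionVars false

namespace Pool.Agent.X21.Qd

open Pool.Agent.H302R2 Pool.Agent.X21.Sy Subgroup Equiv Equiv.Perm Function

variable {α : Type} [Fintype α] [DecidableEq α] {θ : alternatingGroup α → ℂ}

section strips

variable {p : ℕ} [Fact p.Prime] {b : ℕ}

/-- translations supported on a set of blocks -/
def resV (s : Finset (Fin b)) (a : Fin b → ZMod p) : Fin b → ZMod p :=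
  fun i => if i ∈ s then a i else 0

lemma via_tr_mul (f : Fin b × ZMod p ↪ α) (x y : Fin b → ZMod p) :
    viaEmbeddingHom f (W 1 x) * viaEmbeddingHom f (W 1 y) = viaEmbeddingHom f (W 1 (x + y)) := by
  rw [← map_mul, W_mul, mul_one]
  congr 2
  funext i
  simp [add_comm]

lemma strip_many (hp : p ≠ 2) {c : ℂ} (hS : Strip θ p c) (f : Fin b × ZMod p ↪ α) (h : Perm α)
    (hs : Perm.sign h = 1) (a : Fin b → ZMod p) (s : Finset (Fin b))
    (hfix : ∀ i ∈ s, ∀ z, h (f (i, z)) = f (i, z)) (ha : ∀ i ∈ s, a i ≠ 0) :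
    ev θ (h * viaEmbeddingHom f (W 1 (resV s a))) = ev θ h - p * c * s.card := by
  classical
  induction s using Finset.induction_on with
  | empty =>
    have : resV (∅ : Finset (Fin b)) a = 0 := by funext i; simp [resV]
    rw [this, W_one, map_one, mul_one]
    simp
  | insert k s hk ih =>
    have ih' := ih (fun i hi => hfix i (Finset.mem_insert_of_mem hi))
      (fun i hi => ha i (Finset.mem_insert_of_mem hi))
    let fk : Unit × ZMod p ↪ α := ⟨fun x => f (k, x.2), fun x y hxy => by
      have h1 := f.injective hxy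
      simp only [Prod.mk.injEq, true_and] at h1
      exact Prod.ext rfl h1⟩
    have hfk : ∀ u z, fk (u, z) = f (k, z) := fun _ _ => rfl
    have e1 : viaEmbeddingHom f (W 1 (resV (insert k s) a))
        = viaEmbeddingHom f (W 1 (resV s a)) * viaEmbeddingHom fk (W 1 (fun _ => a k)) := by
      have e2 : viaEmbeddingHom fk (W 1 (fun _ => a k))
          = viaEmbeddingHom f (W 1 (Pi.single k (a k))) := by
        ext y
        by_cases hy : ∃ x, f x = y
        · obtain ⟨⟨i, z⟩, rfl⟩ := hy
          rw [viaEmb_apply, W_apply]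
          by_cases hi : i = k
          · subst hi
            rw [← hfk (), viaEmb_apply, W_apply, hfk]
            simp
          · rw [viaEmb_notMem]
            · simp [hi]
            · rintro ⟨u, w⟩ hw
              rw [hfk] at hw
              exact hi (congrArg Prod.fst (f.injective hw)).symm
        · push Not at hy
          rw [viaEmb_notMem f _ hy, viaEmb_notMem]
          rintro ⟨u, w⟩ hw
          exact hy _ hw
      rw [e2, via_tr_mul]
      congr 2
      funext i
      simp only [resV, Pi.add_apply, Finset.mem_insert]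
      by_cases hi : i = k
      · subst hi; simp [hk]
      · simp [hi]
    rw [e1, ← mul_assoc]
    have hs' : Perm.sign (h * viaEmbeddingHom f (W 1 (resV s a))) = 1 := by
      rw [Perm.sign_mul, hs, viaEmb_sign, sign_tr_odd hp, one_mul]
    have h3 := hS fk (h * viaEmbeddingHom f (W 1 (resV s a))) hs' ?_ (a k)
      (ha k (Finset.mem_insert_self k s))
    · rw [h3, ih', Finset.card_insert_of_notMem hk]
      push_cast
      ring
    · rintro ⟨u, z⟩
      rw [hfk, Perm.mul_apply, viaEmb_apply, W_apply]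
      simp only [resV, Perm.one_apply, if_neg hk, add_zero]
      exact hfix k (Finset.mem_insert_self k s) z

/-- **Removing the translations**, odd primes. -/
theorem step_odd (hθ : IsHeilbronn θ) (hp : p ≠ 2) {r : ℂ} {g : Perm α} (hg : Perm.sign g = 1)
    {f : Fin b × ZMod p ↪ α} {σ : Perm (Fin b)} {a : Fin b → ZMod p} (H : RD p g b f σ a)
    (hPF : (∃ i, σ i ≠ i) → ∃ c : ℂ, Fml θ f r c) {c : ℂ} (hS : (∃ i, σ i = i) → Strip θ p c) :
    ev θ g = ev θ (red g f a) - p * c * (Finset.univ.filter fun i => σ i = i).card := by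
  classical
  set s := Finset.univ.filter (fun i => σ i = i) with hsdef
  have hsred : Perm.sign (red g f a) = 1 := by
    rw [red, Perm.sign_mul, Perm.sign_inv, viaEmb_sign, sign_tr_odd hp, hg, one_mul]
  have e0 : g = (red g f a * viaEmbeddingHom f (W 1 (resV s a))) *
      viaEmbeddingHom f (W 1 (resV sᶜ a)) := by
    rw [mul_assoc, via_tr_mul]
    have : resV s a + resV sᶜ a = a := by
      funext i
      simp only [resV, Pi.add_apply, Finset.mem_compl]
      by_cases hi : i ∈ s <;> simp [hi]
    rw [this, red_mul]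
  have hs1 : Perm.sign (red g f a * viaEmbeddingHom f (W 1 (resV s a))) = 1 := by
    rw [Perm.sign_mul, hsred, viaEmb_sign, sign_tr_odd hp, one_mul]
  -- the moved blocks
  have h1 : ev θ g = ev θ (red g f a * viaEmbeddingHom f (W 1 (resV s a))) := by
    by_cases hmv : ∃ i, σ i ≠ i
    · obtain ⟨c', hc'⟩ := hPF hmv
      nth_rewrite 1 [e0]
      refine wr_moved hθ (Or.inr hp) f hc' (σ := σ) _ hs1 ?_ (sign_tr_odd hp _) ?_
      · intro x
        have h2 := H.conj_tr x
        rw [mul_inv_eq_iff_eq_mul] at h2 ⊢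
        rw [mul_assoc, via_tr_mul, add_comm, ← via_tr_mul, ← mul_assoc, h2, mul_assoc]
      · intro i hi
        simp [resV, hsdef, hi]
    · push Not at hmv
      nth_rewrite 1 [e0]
      have : resV sᶜ a = 0 := by
        funext i
        simp [resV, hsdef, hmv i]
      rw [this, W_one, map_one, mul_one]
  rw [h1]
  by_cases hfx : ∃ i, σ i = i
  · refine strip_many hp (hS hfx) f _ hsred a s ?_ ?_
    · intro i hi z
      rw [H.red_apply, (Finset.mem_filter.mp hi).2]
    · intro i hi
      exact (H.per_fixed (Finset.mem_filter.mp hi).2 0).2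
  · push Not at hfx
    have hse : s = ∅ := Finset.filter_eq_empty_iff.mpr (fun i _ => hfx i)
    have : resV s a = 0 := by funext i; simp [resV, hse]
    rw [this, W_one, map_one, mul_one, hse]
    simp

end strips

section stepTwo

variable [Fact (Nat.Prime 2)] {b : ℕ}

/-- **Removing the translations** from an element of `2`-power order. -/
theorem step_two (hθ : IsHeilbronn θ) (hn : 12 ≤ Fintype.card α) {r c : ℂ} (hP : PF θ 2 r c)
    {g : Perm α} (hg : Perm.sign g = 1) {f : Fin b × ZMod 2 ↪ α} {σ : Perm (Fin b)}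
    {a : Fin b → ZMod 2} (H : RD 2 g b f σ a) (hall : ∀ y, (∀ x, f x ≠ y) → g y = y) :
    ev θ g = ev θ (red g f a) - 2 * c * (Finset.univ.filter fun i => σ i = i).card := by
  classical
  have e1 : g = viaEmbeddingHom f (W σ a) := by
    ext y
    by_cases hy : ∃ x, f x = y
    · obtain ⟨x, rfl⟩ := hy
      rw [viaEmb_apply, H.h1]
    · push Not at hy
      rw [viaEmb_notMem f _ hy, hall y hy]
  have e2 : red g f a = viaEmbeddingHom f (W σ 0) := by
    ext y
    by_cases hy : ∃ x, f x = y
    · obtain ⟨⟨i, z⟩, rfl⟩ := hy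
      rw [viaEmb_apply, H.red_apply, W_apply]
      simp
    · push Not at hy
      rw [viaEmb_notMem f _ hy, red_out hy, hall y hy]
  have hs0 : Perm.sign (W σ (0 : Fin b → ZMod 2)) = 1 := by rw [sign_W0]; exact Int.units_sq _
  have hsa : Perm.sign (W (1 : Perm (Fin b)) a) = 1 := by
    rw [e1, viaEmb_sign, W_split, Perm.sign_mul, hs0, one_mul] at hg
    exact hg
  rw [e2]
  nth_rewrite 1 [e1]
  rw [wreath_two' hθ hn hP f σ hsa]
  congr 3
  refine congrArg Finset.card (Finset.filter_congr fun i _ => ?_)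
  exact ⟨fun h => h.1, fun h => ⟨h, (H.per_fixed h 0).2⟩⟩

end stepTwo

/-- the sum of the weights of the periods -/
noncomputable def Wt (γ : ℕ → ℂ) (g : Perm α) : ℂ := ∑ x, γ (minimalPeriod g x)

lemma Wt_red {p : ℕ} [Fact p.Prime] {b : ℕ} {g : Perm α} {f : Fin b × ZMod p ↪ α}
    {σ : Perm (Fin b)} {a : Fin b → ZMod p} (H : RD p g b f σ a) {γ : ℕ → ℂ} {c : ℂ}
    (h1 : γ 1 = 0) (hm : ∀ i, σ i ≠ i → ∀ z, γ (minimalPeriod g (f (i, z))) = c ∧
      γ (minimalPeriod σ i) = c) :
    Wt γ g = Wt γ (red g f a) + p * γ p * (Finset.univ.filter fun i => σ i = i).card := by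
  classical
  have h2 : Wt γ g - Wt γ (red g f a) = ∑ x : Fin b × ZMod p, if σ x.1 = x.1 then γ p else 0 := by
    unfold Wt
    rw [← Finset.sum_sub_distrib]
    symm
    refine Fintype.sum_of_injective f f.injective _ _ ?_ ?_
    · intro y hy
      have hy' : ∀ x, f x ≠ y := fun x hx => hy ⟨x, hx⟩
      rw [H.per_out hy', sub_self]
    · rintro ⟨i, z⟩
      rw [H.per_in]
      by_cases hi : σ i = i
      · simp only [hi, if_true]
        rw [(H.per_fixed hi z).1]
        have : minimalPeriod σ i = 1 := minimalPeriod_eq_one_iff_isFixedPt.mpr hi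
        rw [this, h1, sub_zero]
      · simp only [hi, if_false]
        rw [(hm i hi z).1, (hm i hi z).2, sub_self]
  have h3 : ∑ x : Fin b × ZMod p, (if σ x.1 = x.1 then γ p else 0)
      = p * γ p * (Finset.univ.filter fun i => σ i = i).card := by
    rw [Fintype.sum_prod_type]
    have h5 : ∀ i : Fin b, ∑ _z : ZMod p, (if σ i = i then γ p else 0)
        = p * (if σ i = i then γ p else 0) := by
      intro i
      rw [Finset.sum_const, Finset.card_univ, ZMod.card, nsmul_eq_mul]
    rw [Finset.sum_congr rfl (fun i _ => h5 i), ← Finset.mul_sum, ← Finset.sum_filter,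
      Finset.sum_const, nsmul_eq_mul]
    ring
  rw [← h3, ← h2]
  ring

/-- **The induction.** -/
theorem induct [Fact (Nat.Prime 2)] (hθ : IsHeilbronn θ) (hn : 12 ≤ Fintype.card α) {r c : ℂ}
    (hr : θ 1 = r)
    (hP2 : PF θ 2 r c) (γ : ℕ → ℂ) (hγ1 : γ 1 = 0)
    (hγ : ∀ l, 2 ≤ l → (l.Prime → 2 * l + 2 ≤ Fintype.card α) → γ l = c)
    (Bad : ℕ → Prop) (hBad : ∀ l, Bad l → l.Prime ∧ Fintype.card α < 2 * l + 2)
    (hS : ∀ (p : ℕ) [Fact p.Prime], p ≠ 2 → ¬ Bad p → Strip θ p (γ p))
    (hPF : ∀ (p : ℕ) [Fact p.Prime], 2 * p ≤ Fintype.card α → ∃ c' : ℂ, PF θ p r c') :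
    ∀ (N : ℕ), 0 < N → ∀ g : Perm α, Perm.sign g = 1 → g ^ N = 1 →
      (∀ x, ¬ Bad (minimalPeriod g x)) → ev θ g = r - Wt γ g := by
  classical
  intro N
  induction N using Nat.strong_induction_on with
  | _ N ih =>
  intro hN g hg hgN hgood
  rcases Nat.lt_or_ge 1 N with h1N | h1N
  swap
  · have : N = 1 := by omega
    rw [this, pow_one] at hgN
    subst hgN
    rw [ev_of (one_mem _)]
    have h1 : θ ⟨1, one_mem _⟩ = r := hr
    rw [h1]
    have h2 : Wt γ (1 : Perm α) = 0 := by
      unfold Wt
      refine Finset.sum_eq_zero fun x _ => ?_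
      have : minimalPeriod (1 : Perm α) x = 1 := minimalPeriod_eq_one_iff_isFixedPt.mpr rfl
      rw [this, hγ1]
    rw [h2, sub_zero]
  · -- a prime divisor, odd if possible
    obtain ⟨p, hpp, hpN, hp2⟩ : ∃ p : ℕ, p.Prime ∧ p ∣ N ∧ (p = 2 → ∃ t, N = 2 ^ t) := by
      by_cases h : ∃ p : ℕ, p.Prime ∧ p ∣ N ∧ p ≠ 2
      · obtain ⟨p, h1, h2, h3⟩ := h
        exact ⟨p, h1, h2, fun h => absurd h h3⟩
      · push Not at h
        have h2N : ∃ t, N = 2 ^ t := by
          obtain ⟨t, m, hm, rfl⟩ := exists_odd_part N (by omega)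
          rcases eq_or_ne m 1 with h1 | h1
          · exact ⟨t, by rw [h1, mul_one]⟩
          · exfalso
            have h2 := h m.minFac (Nat.minFac_prime h1)
              ((Nat.minFac_dvd m).trans (dvd_mul_left _ _))
            have h3 := Nat.minFac_dvd m
            rw [h2] at h3
            rcases hm with ⟨k, hk⟩
            omega
        exact ⟨N.minFac, Nat.minFac_prime (by omega), Nat.minFac_dvd N, fun _ => h2N⟩
    have : Fact p.Prime := ⟨hpp⟩
    obtain ⟨b, f, σ, a, H1, H2, H3⟩ := exists_coord_p (p := p) g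
    have H : RD p g b f σ a := ⟨H1, H2, H3⟩
    have hbp : b * p ≤ Fintype.card α := by
      have := Fintype.card_le_of_embedding f
      rwa [Fintype.card_prod, ZMod.card p, Fintype.card_fin] at this
    have hperb : ∀ i, minimalPeriod σ i * p ≤ Fintype.card α := by
      intro i
      refine le_trans (Nat.mul_le_mul_right _ ?_) hbp
      have := per_le_card σ i
      rwa [Fintype.card_fin] at this
    have hdvdN : ∀ i, minimalPeriod σ i ∣ N / p := by
      intro i
      rw [← H.per_in i 0, ← per_dvd, H.pow_red hgN hpN]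
      rfl
    -- periods of the blocks
    have hper : ∀ i, (minimalPeriod σ i).Prime → 2 * minimalPeriod σ i + 2 ≤ Fintype.card α := by
      intro i hi
      by_cases h2 : p = 2
      · obtain ⟨t, ht⟩ := hp2 h2
        have h3 : minimalPeriod σ i ∣ 2 ^ t := by
          refine (hdvdN i).trans ?_
          rw [← ht]
          exact Nat.div_dvd_of_dvd hpN
        have h4 := (Nat.prime_dvd_prime_iff_eq hi Nat.prime_two).mp (hi.dvd_of_dvd_pow h3)
        omega
      · have h3 : 3 ≤ p := by
          have := hpp.two_le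
          omega
        have h4 := hperb i
        have h5 := hi.two_le
        nlinarith
    have hm : ∀ i, σ i ≠ i → ∀ z, γ (minimalPeriod g (f (i, z))) = c ∧
        γ (minimalPeriod σ i) = c := by
      intro i hi z
      have h1 := H.per_moved hi z
      refine ⟨hγ _ h1.2 (fun h => absurd h h1.1), hγ _ ?_ (hper i)⟩
      have h2 := per_pos σ i
      have h3 : minimalPeriod σ i ≠ 1 := by
        rw [Ne, minimalPeriod_eq_one_iff_isFixedPt]
        exact hi
      omega
    have hW := Wt_red H hγ1 hm
    have hgood' : ∀ x, ¬ Bad (minimalPeriod (red g f a) x) := by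
      intro x
      by_cases hx : ∃ u, f u = x
      · obtain ⟨⟨i, z⟩, rfl⟩ := hx
        rw [H.per_in]
        intro hbad
        obtain ⟨h1, h2⟩ := hBad _ hbad
        have := hper i h1
        omega
      · push Not at hx
        rw [H.per_out hx]
        exact hgood x
    have hNp : N / p < N := Nat.div_lt_self (by omega) hpp.one_lt
    have hNp0 : 0 < N / p := Nat.div_pos (Nat.le_of_dvd (by omega) hpN) hpp.pos
    by_cases h2 : p = 2
    · subst h2
      obtain ⟨t, ht⟩ := hp2 rfl
      have hall : ∀ y, (∀ x, f x ≠ y) → g y = y := by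
        intro y hy
        have h1 : minimalPeriod g y ∣ 2 ^ t := by
          rw [← ht, ← per_dvd, hgN]; rfl
        obtain ⟨s, -, hs⟩ := (Nat.dvd_prime_pow Nat.prime_two).mp h1
        rcases Nat.eq_zero_or_pos s with h3 | h3
        · rw [h3, pow_zero, minimalPeriod_eq_one_iff_isFixedPt] at hs
          exact hs
        · exfalso
          obtain ⟨x, hx⟩ := (H.h3 y).mpr (by rw [hs]; exact dvd_pow_self 2 (by omega))
          exact hy x hx
      have h3 := step_two hθ hn hP2 hg H hall
      have hs' : Perm.sign (red g f a) = 1 := by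
        have e2 : red g f a = viaEmbeddingHom f (W σ 0) := by
          ext y
          by_cases hy : ∃ x, f x = y
          · obtain ⟨⟨i, z⟩, rfl⟩ := hy
            rw [viaEmb_apply, H.red_apply, W_apply]
            simp
          · push Not at hy
            rw [viaEmb_notMem f _ hy, red_out hy, hall y hy]
        rw [e2, viaEmb_sign, sign_W0]
        exact Int.units_sq _
      have h4 := ih (N / 2) hNp hNp0 (red g f a) hs' (H.pow_red hgN hpN) hgood'
      have hγ2 : γ 2 = c := hγ 2 le_rfl (fun _ => by omega)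
      rw [h3, h4, hW, hγ2]
      push_cast
      ring
    · have h3 := step_odd (r := r) (c := γ p) hθ h2 hg H ?_ ?_
      · have hs' : Perm.sign (red g f a) = 1 := by
          rw [red, Perm.sign_mul, Perm.sign_inv, viaEmb_sign, sign_tr_odd h2, hg, one_mul]
        have h4 := ih (N / p) hNp hNp0 (red g f a) hs' (H.pow_red hgN hpN) hgood'
        rw [h3, h4, hW]
        ring
      · rintro ⟨i, hi⟩
        have hb2 : 2 ≤ b := by
          by_contra hcon
          apply hi
          have : Subsingleton (Fin b) := by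
            rw [← Fintype.card_le_one_iff_subsingleton, Fintype.card_fin]
            omega
          exact Subsingleton.elim _ _
        obtain ⟨c', hc'⟩ := hPF p (by nlinarith)
        exact ⟨c', hc' _ f⟩
      · rintro ⟨i, hi⟩
        refine hS p h2 ?_
        have := hgood (f (i, 0))
        rwa [(H.per_fixed hi 0).1] at this

/-- **Structure theorem** for the Heilbronn functions of degree `< (n - 2)² / 18` on `A_n`. -/
theorem quad (hn : 28 ≤ Fintype.card α) (hθ : IsHeilbronn θ) {r : ℕ} (hr : θ 1 = r)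
    (hlt : 18 * r < (Fintype.card α - 2) * (Fintype.card α - 2)) :
    ∃ (c : ℕ) (γ : ℕ → ℕ), γ 1 = 0 ∧
      (∀ l, 2 ≤ l → (l.Prime → 2 * l + 2 ≤ Fintype.card α) → γ l = c) ∧
      (∀ l, l.Prime → Fintype.card α < 2 * l + 2 → (l - 1) * γ l ≤ r) ∧
      ∀ g : alternatingGroup α, (∀ x, (minimalPeriod (g : Perm α) x).Prime →
          2 * minimalPeriod (g : Perm α) x + 2 ≤ Fintype.card α ∨
          (minimalPeriod (g : Perm α) x + 14 ≤ Fintype.card α ∧
            r < (minimalPeriod (g : Perm α) x - 1) *
              (Fintype.card α - minimalPeriod (g : Perm α) x - 2))) →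
        θ g = r - ∑ x, (γ (minimalPeriod (g : Perm α) x) : ℂ) := by
  classical
  have : Fact (Nat.Prime 2) := ⟨Nat.prime_two⟩
  set n := Fintype.card α with hnn
  obtain ⟨c, -, hc⟩ := exists_PF (p := 2) hθ hr (by omega) hlt (by omega)
  let Big : ℕ → Prop := fun p => p.Prime ∧ n < 2 * p + 2
  let OK : ℕ → Prop := fun p => p + 14 ≤ n ∧ r < (p - 1) * (n - p - 2)
  have hbig : ∀ p, ∃ c' : ℕ, (p - 1) * c' ≤ r ∧
      (Big p → OK p → ∀ (hp : Fact p.Prime), Strip θ p c') := by
    intro p
    by_cases h : Big p ∧ OK p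
    · have hp : Fact p.Prime := ⟨h.1.1⟩
      obtain ⟨c', h1, h2⟩ := strip_big (p := p) hθ hr (by have := h.1.2; omega) h.2.1 h.2.2
      exact ⟨c', h1, fun _ _ _ => h2⟩
    · exact ⟨0, by omega, fun h1 h2 => absurd ⟨h1, h2⟩ h⟩
  choose C hC1 hC2 using hbig
  let γ : ℕ → ℕ := fun l => if l ≤ 1 then 0 else if Big l then C l else c
  have hγ1 : γ 1 = 0 := by simp [γ]
  have hγ : ∀ l, 2 ≤ l → (l.Prime → 2 * l + 2 ≤ n) → γ l = c := by
    intro l h1 h2
    have h3 : ¬ Big l := fun h => by have := h2 h.1; have := h.2; omega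
    simp only [γ]
    rw [if_neg (by omega), if_neg h3]
  have hγB : ∀ l, l.Prime → n < 2 * l + 2 → γ l = C l := by
    intro l h1 h2
    simp only [γ]
    have := h1.two_le
    rw [if_neg (by omega), if_pos ⟨h1, h2⟩]
  refine ⟨c, γ, hγ1, hγ, ?_, ?_⟩
  · intro l h1 h2
    rw [hγB l h1 h2]
    exact hC1 l
  · intro g hg
    have key := induct hθ (by omega) (c := c) hr hc (fun l => (γ l : ℂ)) (by simp [hγ1])
      (fun l h1 h2 => by rw [hγ l h1 h2]) (fun l => Big l ∧ ¬ OK l)
      (fun l h => h.1) ?_ ?_ (orderOf (g : Perm α)) (orderOf_pos _) (g : Perm α)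
      (mem_alternatingGroup.mp g.2) (pow_orderOf_eq_one _) ?_
    · rw [ev_of g.2] at key
      exact key
    · intro p hp hp2 hnb
      have hpp : p.Prime := hp.out
      by_cases hB : Big p
      · have hOK : OK p := by
          by_contra h
          exact hnb ⟨hB, h⟩
        rw [hγB p hB.1 hB.2]
        exact hC2 p hB hOK hp
      · have h2 : 2 * p + 2 ≤ n := by
          by_contra h
          exact hB ⟨hpp, by omega⟩
        rw [hγ p hpp.two_le (fun _ => h2)]
        obtain ⟨c', h3, h4⟩ := exists_PF (p := p) hθ hr (by omega) hlt (by omega)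
        have h5 := link hθ (by omega) hc hp2 h4 h2
        have h6 : c' = c := by exact_mod_cast h5
        rw [h6] at h3 h4
        exact strip_small hθ hr hn hlt hp2 (h3 hp2) h4 h2
    · intro p hp h2
      obtain ⟨c', h3, h4⟩ := exists_PF (p := p) hθ hr (by omega) hlt h2
      exact ⟨c', h4⟩
    · rintro x ⟨hB, hOK⟩
      rcases hg x hB.1 with h | h
      · have := hB.2
        omega
      · exact hOK h

end Pool.Agent.X21.Qd
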