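import Mathlib

/-!
# Multiplicities of linear characters in a permutation character
-/

set_option autoImplicit false
set_option linter.unusedSectionVars false

namespace Pool.Agent.X21.Qd

open MulAction

/-- the number of orbits of `H` on `X` on whose point stabilizers `ψ` is trivial -/
noncomputable def orbNum (H X : Type) [Group H] [MulAction H X] (ψ : H →* ℂˣ) : ℕ :=
  Nat.card {q : orbitRel.Quotient H X //
    ∀ x : X, (Quotient.mk _ x : orbitRel.Quotient H X) = q → ∀ h : H, h • x = x → ψ h = 1}

section

variable {H X : Type} [Group H] [MulAction H X]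

lemma good_iff (ψ : H →* ℂˣ) (x : X) :
    (∀ y : X, (Quotient.mk _ y : orbitRel.Quotient H X) = Quotient.mk _ x →
      ∀ h : H, h • y = y → ψ h = 1) ↔ ∀ h : H, h • x = x → ψ h = 1 := by
  constructor
  · intro h
    exact h x rfl
  · intro h y hy k hk
    obtain ⟨g, hg⟩ : y ∈ MulAction.orbit H x := Quotient.exact hy
    have hg' : g • x = y := hg
    have h1 : (g⁻¹ * k * g) • x = x := by
      rw [mul_smul, mul_smul, hg', hk, ← hg', inv_smul_smul]
    have h2 := h _ h1
    rw [map_mul, map_mul, map_inv, mul_comm, ← mul_assoc, mul_inv_cancel, one_mul] at h2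
    exact h2

lemma sum_stab [Fintype H] [DecidableEq X] (ψ : H →* ℂˣ) (x : X)
    [Decidable (∀ h : H, h • x = x → ψ h = 1)] [Fintype (stabilizer H x)] :
    ∑ h : H, (if h • x = x then (((ψ h)⁻¹ : ℂˣ) : ℂ) else 0)
      = if ∀ h : H, h • x = x → ψ h = 1 then (Fintype.card (stabilizer H x) : ℂ) else 0 := by
  classical
  let f : stabilizer H x →* ℂ := (Units.coeHom ℂ).comp ((ψ⁻¹).comp (stabilizer H x).subtype)
  have h1 := sum_hom_units f
  have h2 : ∑ h : H, (if h • x = x then (((ψ h)⁻¹ : ℂˣ) : ℂ) else 0) = ∑ h, f h := by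
    rw [← Finset.sum_filter]
    refine Finset.sum_subtype (p := fun h => h ∈ stabilizer H x) _ (fun h => by simp [mem_stabilizer_iff]) _
  rw [h2, h1]
  have h3 : f = 1 ↔ ∀ h : H, h • x = x → ψ h = 1 := by
    constructor
    · intro hf h hh
      have h4 := DFunLike.congr_fun hf ⟨h, hh⟩
      have h5 : (((ψ h)⁻¹ : ℂˣ) : ℂ) = 1 := h4
      rw [Units.val_eq_one] at h5
      exact inv_eq_one.mp h5
    · intro h
      ext k
      change (((ψ k)⁻¹ : ℂˣ) : ℂ) = 1
      rw [h k k.2]
      simp
  by_cases h4 : f = 1
  · rw [if_pos h4, if_pos (h3.mp h4)]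
  · rw [if_neg h4, if_neg (fun h => h4 (h3.mpr h))]
    simp

/-- the multiplicity of a linear character in a permutation character -/
theorem sum_fix [Fintype H] [Fintype X] [DecidableEq X] (ψ : H →* ℂˣ) :
    ∑ h : H, ((Finset.univ.filter fun x : X => h • x = x).card : ℂ) * (((ψ h)⁻¹ : ℂˣ) : ℂ)
      = (orbNum H X ψ : ℂ) * Nat.card H := by
  classical
  have : Fintype (orbitRel.Quotient H X) := Fintype.ofFinite _
  have h1 : ∀ h : H, ((Finset.univ.filter fun x : X => h • x = x).card : ℂ)
      * (((ψ h)⁻¹ : ℂˣ) : ℂ) = ∑ x : X, (if h • x = x then (((ψ h)⁻¹ : ℂˣ) : ℂ) else 0) := by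
    intro h
    rw [← Finset.sum_filter, Finset.sum_const, nsmul_eq_mul]
  rw [Finset.sum_congr rfl (fun h _ => h1 h), Finset.sum_comm]
  simp_rw [sum_stab]
  rw [← Finset.sum_fiberwise (g := fun x : X => (Quotient.mk _ x : orbitRel.Quotient H X))]
  have h2 : ∀ q : orbitRel.Quotient H X,
      ∑ x ∈ Finset.univ.filter (fun x : X => (Quotient.mk _ x : orbitRel.Quotient H X) = q),
        (if ∀ h : H, h • x = x → ψ h = 1 then (Fintype.card (stabilizer H x) : ℂ) else 0)
      = if (∀ x : X, (Quotient.mk _ x : orbitRel.Quotient H X) = q →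
          ∀ h : H, h • x = x → ψ h = 1) then (Nat.card H : ℂ) else 0 := by
    intro q
    induction q using Quotient.inductionOn with | _ y => ?_
    by_cases hg : ∀ h : H, h • y = y → ψ h = 1
    · rw [if_pos ((good_iff ψ y).mpr hg)]
      have h3 : ∀ x ∈ Finset.univ.filter (fun x : X =>
          (Quotient.mk _ x : orbitRel.Quotient H X) = Quotient.mk _ y),
          (if ∀ h : H, h • x = x → ψ h = 1 then (Fintype.card (stabilizer H x) : ℂ) else 0)
            = (Fintype.card (stabilizer H y) : ℂ) := by
        intro x hx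
        have hx' : (Quotient.mk _ x : orbitRel.Quotient H X) = Quotient.mk _ y :=
          (Finset.mem_filter.mp hx).2
        rw [if_pos ((good_iff ψ y).mpr hg x hx')]
        obtain ⟨g, hg'⟩ : x ∈ MulAction.orbit H y := Quotient.exact hx'
        have h5 : g • y = x := hg'
        have h6 := card_orbit_mul_card_stabilizer_eq_card_group H x
        have h7 := card_orbit_mul_card_stabilizer_eq_card_group H y
        have h8 : MulAction.orbit H x = MulAction.orbit H y := by
          rw [← h5, orbit_smul]
        have h9 : Fintype.card (MulAction.orbit H x) = Fintype.card (MulAction.orbit H y) := by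
          rw [← Nat.card_eq_fintype_card, ← Nat.card_eq_fintype_card, h8]
        rw [h9, ← h7] at h6
        have hpos : 0 < Fintype.card (MulAction.orbit H y) :=
          Fintype.card_pos_iff.mpr ⟨⟨y, mem_orbit_self y⟩⟩
        exact_mod_cast Nat.eq_of_mul_eq_mul_left hpos h6
      rw [Finset.sum_congr rfl h3, Finset.sum_const, nsmul_eq_mul]
      have h7 := card_orbit_mul_card_stabilizer_eq_card_group H y
      have h10 : (Finset.univ.filter (fun x : X =>
          (Quotient.mk _ x : orbitRel.Quotient H X) = Quotient.mk _ y)).card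
          = Fintype.card (MulAction.orbit H y) := by
        rw [Fintype.card_of_subtype]
        intro x
        rw [Finset.mem_filter]
        constructor
        · rintro ⟨-, h⟩
          exact Quotient.exact h
        · intro h
          exact ⟨Finset.mem_univ _, Quotient.sound h⟩
      rw [h10, Nat.card_eq_fintype_card, ← h7]
      push_cast
      ring
    · rw [if_neg (fun h => hg ((good_iff ψ y).mp h))]
      refine Finset.sum_eq_zero fun x hx => ?_
      have hx' : (Quotient.mk _ x : orbitRel.Quotient H X) = Quotient.mk _ y :=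
        (Finset.mem_filter.mp hx).2
      rw [if_neg]
      intro h
      exact hg ((good_iff ψ x).mpr h y hx'.symm)
  rw [Finset.sum_congr rfl (fun q _ => h2 q), ← Finset.sum_filter, Finset.sum_const, nsmul_eq_mul,
    orbNum, Nat.card_eq_fintype_card (α := {q : orbitRel.Quotient H X // _}), Fintype.card_subtype]

end

end Pool.Agent.X21.Qd
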