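import Mathlib
import Pool.Agent.X21.Qd.A10
import Pool.Agent.X21.Qd.Orb
import Pool.Agent.X21.Sy.Ded
import Pool.Agent.TH820.KerArt

/-!
# Artin L-functions of `A_n`-extensions at zeros of order `< (n - 2)² / 18`
-/

set_option autoImplicit false
set_option linter.unusedSectionVars false

namespace Pool.Agent.X21.Qd

open Pool.Agent.H302R2 Pool.Agent.H541R3.ART Pool.Agent.X21.Sy Equiv Equiv.Perm Function Filter
  Topology

section rel

variable {G : Type} [Group G]

/-- `F` is, near `s₀`, the L-function of the character `η` of the subgroup `H`: the product of the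
`L χ ^ ⟨χ|_H, η⟩` -/
def IsRel {s₀ : ℂ} (A : ArtinData G s₀) (H : Subgroup G) (η : H → ℂ) (F : ℂ → ℂ) : Prop :=
  ∃ m : (G → ℂ) → ℕ,
    (∀ χ ∈ Irr G, ∑ᶠ h : H, χ h * η h⁻¹ = (m χ : ℂ) * (Nat.card H : ℂ)) ∧
    F =ᶠ[𝓝[≠] s₀] fun s => ∏ᶠ χ ∈ Irr G, A.L χ s ^ m χ

variable [Finite G] {s₀ : ℂ} (A : ArtinData G s₀)

lemma exists_mult' {V : Type} [AddCommGroup V] [Module ℂ V] [FiniteDimensional ℂ V]
    (ρ : Representation ℂ G V) (H : Subgroup G) {η : H → ℂ} (hη : η ∈ Irr H) :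
    ∃ m : ℕ, ∑ᶠ h : H, ρ.character h * η h⁻¹ = (m : ℂ) * (Nat.card H : ℂ) := by
  classical
  have : Fintype H := Fintype.ofFinite H
  obtain ⟨n', τ, hτ, rfl⟩ := hη
  have hH : (Nat.card H : ℂ) ≠ 0 := by exact_mod_cast Nat.card_pos.ne'
  have : Invertible (Nat.card H : ℂ) := invertibleOfNonzero hH
  let σ : Representation ℂ H V := ρ.comp H.subtype
  have h := Representation.card_inv_mul_sum_char_mul_char_eq_finrank τ σ
  refine ⟨Module.finrank ℂ (Representation.IntertwiningMap τ σ), ?_⟩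
  rw [← h, finsum_eq_sum_of_fintype]
  have h2 : ∀ x : H, σ.character x * τ.character x⁻¹
      = ρ.character (x : G) * τ.character x⁻¹ := fun x => rfl
  rw [Finset.sum_congr rfl (fun x _ => h2 x)]
  field_simp

/-- every character of every subgroup has an L-function -/
lemma exists_rel (H : Subgroup G) {η : H → ℂ} (hη : η ∈ Irr H) : ∃ F, IsRel A H η F := by
  classical
  have h1 : ∀ χ : G → ℂ, ∃ m : ℕ, χ ∈ Irr G →
      ∑ᶠ h : H, χ h * η h⁻¹ = (m : ℂ) * (Nat.card H : ℂ) := by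
    intro χ
    by_cases hχ : χ ∈ Irr G
    · obtain ⟨n, ρ, hρ, rfl⟩ := hχ
      obtain ⟨m, hm⟩ := exists_mult' ρ H hη
      exact ⟨m, fun _ => hm⟩
    · exact ⟨0, fun h => absurd h hχ⟩
  choose m hm using h1
  exact ⟨_, m, hm, EventuallyEq.rfl⟩

lemma rel_lin (H : Subgroup G) (ψ : H →* ℂˣ) :
    IsRel A H (fun h => ((ψ h : ℂˣ) : ℂ)) (A.Lin H ψ) := by
  classical
  have h1 : ∀ χ : G → ℂ, ∃ m : ℕ, χ ∈ Irr G →
      ∑ᶠ h : H, χ h * (((ψ h)⁻¹ : ℂˣ) : ℂ) = (m : ℂ) * (Nat.card H : ℂ) := by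
    intro χ
    by_cases hχ : χ ∈ Irr G
    · obtain ⟨m, hm⟩ := exists_mult hχ H ψ
      exact ⟨m, fun _ => hm⟩
    · exact ⟨0, fun h => absurd h hχ⟩
  choose m hm using h1
  refine ⟨m, ?_, A.induce H ψ m hm⟩
  intro χ hχ
  rw [← hm χ hχ]
  simp only [map_inv]

lemma rel_top {χ : G → ℂ} (hχ : χ ∈ Irr G) :
    IsRel A ⊤ (fun h : (⊤ : Subgroup G) => χ h) (A.L χ) := by
  classical
  have : Fintype G := Fintype.ofFinite G
  have : Fintype (⊤ : Subgroup G) := Fintype.ofFinite _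
  refine ⟨fun χ' => if χ' = χ then 1 else 0, ?_, ?_⟩
  · intro χ' hχ'
    rw [finsum_eq_sum_of_fintype]
    have h1 : ∑ h : (⊤ : Subgroup G), χ' h * χ ((h⁻¹ : (⊤ : Subgroup G)) : G)
        = ∑ g : G, χ' g * χ g⁻¹ := by
      refine Fintype.sum_equiv Subgroup.topEquiv.toEquiv _ _ fun h => rfl
    rw [h1, Subgroup.card_top]
    beta_reduce
    by_cases h : χ' = χ
    · rw [if_pos h, h, pair_self hχ]
      simp
    · rw [if_neg h, pair_ne hχ' hχ h]
      simp
  · refine Filter.Eventually.of_forall fun s => ?_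
    beta_reduce
    rw [finprod_mem_eq_finite_toFinset_prod _ (irr_finite (G := G)), Finset.prod_eq_single χ]
    · simp
    · intro b _ hb
      rw [if_neg hb, pow_zero]
    · intro h
      exact absurd (by simpa using hχ) h

lemma order_rel {H : Subgroup G} [Fintype H] {η : H → ℂ} {F : ℂ → ℂ} (hF : IsRel A H η F) {k : ℤ}
    (h : ∑ x : H, (theta A.ord : G → ℂ) x * η x⁻¹ = (k : ℂ) * Nat.card H) :
    meromorphicOrderAt F s₀ = (k : WithTop ℤ) := by
  classical
  obtain ⟨m, hm, hF⟩ := hF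
  rw [meromorphicOrderAt_congr hF]
  have h1 : (fun s => ∏ᶠ χ ∈ Irr G, A.L χ s ^ m χ)
      = fun s => ∏ χ ∈ irrF G, (A.L χ ^ m χ) s := by
    funext s
    rw [finprod_mem_eq_finite_toFinset_prod _ (irr_finite (G := G))]
    rfl
  rw [h1, meromorphicOrderAt_fun_prod (fun χ hχ => ((A.mero χ (mem_irrF.mp hχ)).1).pow _)]
  have h2 : ∀ χ ∈ irrF G, meromorphicOrderAt (A.L χ ^ m χ) s₀
      = (((m χ : ℤ) * A.ord χ : ℤ) : WithTop ℤ) := by
    intro χ hχ
    rw [meromorphicOrderAt_pow ((A.mero χ (mem_irrF.mp hχ)).1), ← A.coe_ord (mem_irrF.mp hχ)]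
    push_cast
    rfl
  rw [Finset.sum_congr rfl h2, ← WithTop.coe_sum]
  congr 1
  have hH : (Nat.card H : ℂ) ≠ 0 := by exact_mod_cast Nat.card_pos.ne'
  have h3 : ((∑ χ ∈ irrF G, (m χ : ℤ) * A.ord χ : ℤ) : ℂ) * (Nat.card H : ℂ)
      = (k : ℂ) * Nat.card H := by
    rw [← h]
    unfold theta
    simp_rw [Finset.sum_mul]
    rw [Finset.sum_comm, Int.cast_sum, Finset.sum_mul]
    refine Finset.sum_congr rfl fun χ hχ => ?_
    have h4 := hm χ (mem_irrF.mp hχ)
    rw [finsum_eq_sum_of_fintype] at h4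
    simp_rw [mul_assoc]
    rw [← Finset.mul_sum, h4]
    push_cast
    ring
  exact_mod_cast mul_right_cancel₀ hH h3

end rel

/-- no cycle of prime length `p` with `n < 2p + 2` -/
def Small (n : ℕ) (g : Perm (Fin n)) : Prop :=
  ∀ x, (minimalPeriod g x).Prime → 2 * minimalPeriod g x + 2 ≤ n

/-- the only cycles of prime length `p` with `n < 2p + 2` are of length `p ≤ n - 14` with
`r < (p - 1)(n - p - 2)` -/
def Good (n r : ℕ) (g : Perm (Fin n)) : Prop :=
  ∀ x, (minimalPeriod g x).Prime → 2 * minimalPeriod g x + 2 ≤ n ∨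
    (minimalPeriod g x + 14 ≤ n ∧ r < (minimalPeriod g x - 1) * (n - minimalPeriod g x - 2))

variable {n r : ℕ}

lemma Small.good {g : Perm (Fin n)} (h : Small n g) : Good n r g :=
  fun x hx => Or.inl (h x hx)

lemma small_of_order {g : Perm (Fin n)} {N : ℕ} (h : orderOf g ∣ N)
    (hN : ∀ p : ℕ, p.Prime → n < 2 * p + 2 → ¬ p ∣ N) : Small n g := by
  intro x hx
  by_contra hcon
  refine hN _ hx (by omega) (dvd_trans ?_ h)
  rw [← per_dvd, pow_orderOf_eq_one]
  rfl

lemma per_inv (g : Perm (Fin n)) (x : Fin n) :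
    minimalPeriod (g⁻¹ : Perm (Fin n)) x = minimalPeriod g x := by
  refine per_eq_of _ _ _ _ fun k => ?_
  rw [inv_pow, Perm.inv_eq_iff_eq]
  exact eq_comm

lemma Small.inv {g : Perm (Fin n)} (h : Small n g) : Small n g⁻¹ := by
  intro x hx
  rw [per_inv] at hx ⊢
  exact h x hx

lemma Good.inv {g : Perm (Fin n)} (h : Good n r g) : Good n r g⁻¹ := by
  intro x hx
  rw [per_inv] at hx ⊢
  exact h x hx

lemma sum_small {c : ℕ} {γ : ℕ → ℕ} (h1 : γ 1 = 0)
    (h2 : ∀ l, 2 ≤ l → (l.Prime → 2 * l + 2 ≤ n) → γ l = c) {g : Perm (Fin n)}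
    (hg : Small n g) : ∑ x, (γ (minimalPeriod g x) : ℂ) = c * n - c * fx g := by
  classical
  have h3 : ∀ x, (γ (minimalPeriod g x) : ℂ) = c - if g x = x then (c : ℂ) else 0 := by
    intro x
    by_cases h : g x = x
    · have : minimalPeriod g x = 1 := minimalPeriod_eq_one_iff_isFixedPt.mpr h
      rw [this, h1, if_pos h]
      simp
    · have h4 : minimalPeriod g x ≠ 1 := fun h' => h (minimalPeriod_eq_one_iff_isFixedPt.mp h')
      have h5 := per_pos g x
      rw [h2 _ (by omega) (fun hp => hg x hp), if_neg h, sub_zero]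
  rw [Finset.sum_congr rfl (fun x _ => h3 x), Finset.sum_sub_distrib, ← Finset.sum_filter,
    Finset.sum_const, Finset.sum_const, Finset.card_univ, Fintype.card_fin, nsmul_eq_mul,
    nsmul_eq_mul, fx]
  ring

lemma sum_inv_irr {H : Type} [Group H] [Fintype H] {η : H → ℂ} (hη : η ∈ Irr H)
    (h1 : η ≠ 1) : ∑ h : H, η h⁻¹ = 0 := by
  have h6 := Pool.Agent.TH820.lin_irr (1 : H →* ℂˣ)
  have h7 : (fun g : H => (((1 : H →* ℂˣ) g : ℂˣ) : ℂ)) ≠ η := by
    intro h
    apply h1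
    rw [← h]
    funext g
    simp
  have h8 := pair_ne h6 hη h7
  simpa using h8

open scoped Classical in
/-- The orders in the quadratic range. -/
theorem artin_quad (hn : 28 ≤ n) {s₀ : ℂ} (A : ArtinData (alternatingGroup (Fin n)) s₀)
    (hr : meromorphicOrderAt (A.Lin ⊥ 1) s₀ = (r : WithTop ℤ))
    (hlt : 18 * r < (n - 2) * (n - 2)) :
    ∃ (c : ℕ) (γ : ℕ → ℕ),
      (∀ (H : Subgroup (alternatingGroup (Fin n))) (η : H → ℂ), η ∈ Irr H →
        (∀ h : H, ¬ Small n (h : alternatingGroup (Fin n)) → η h = 0) →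
        ∃ d : ℕ, ∑ᶠ h : H, (fx ((h : alternatingGroup (Fin n)) : Perm (Fin n)) : ℂ) * η h⁻¹
            = (d : ℂ) * Nat.card H ∧
          0 ≤ (if η = 1 then (r : ℤ) - c * n else 0) + c * d ∧
          ∀ F : ℂ → ℂ, IsRel A H η F → meromorphicOrderAt F s₀
            = (((if η = 1 then (r : ℤ) - c * n else 0) + c * d : ℤ) : WithTop ℤ)) ∧
      (∀ (H : Subgroup (alternatingGroup (Fin n))) (ψ : H →* ℂˣ),
        (∀ p : ℕ, p.Prime → n < 2 * p + 2 → ¬ p ∣ Nat.card H) →
        meromorphicOrderAt (A.Lin H ψ) s₀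
          = (((if ψ = 1 then (r : ℤ) - c * n else 0) + c * orbNum H (Fin n) ψ : ℤ)
            : WithTop ℤ)) ∧
      (γ 1 = 0 ∧ (∀ l, 2 ≤ l → (l.Prime → 2 * l + 2 ≤ n) → γ l = c) ∧
        ∀ l, l.Prime → n < 2 * l + 2 → (l - 1) * γ l ≤ r) ∧
      ∀ (H : Subgroup (alternatingGroup (Fin n))) (η : H → ℂ), η ∈ Irr H →
        (∀ h : H, ¬ Good n r (h : alternatingGroup (Fin n)) → η h = 0) →
        ∃ k : ℤ, (k : ℂ) * Nat.card H = ∑ᶠ h : H,
            (r - ∑ x, (γ (minimalPeriod ((h : alternatingGroup (Fin n)) : Perm (Fin n)) x) : ℂ))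
              * η h⁻¹ ∧
          ∀ F : ℂ → ℂ, IsRel A H η F → meromorphicOrderAt F s₀ = (k : WithTop ℤ) := by
  have hθ := A.isHeilbronn
  have h1 := A.theta_one hr
  obtain ⟨c, γ, hg1, hg2, hg3, hg4⟩ := quad (by rwa [Fintype.card_fin]) hθ h1
    (by rwa [Fintype.card_fin])
  rw [Fintype.card_fin] at hg2 hg3 hg4
  have hsm : ∀ g : alternatingGroup (Fin n), Small n g →
      (theta A.ord : alternatingGroup (Fin n) → ℂ) g = (r - c * n) + c * fx (g : Perm (Fin n)) := by
    intro g hg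
    rw [hg4 g (Small.good (r := r) hg), sum_small hg1 hg2 hg]
    ring
  have main : ∀ (H : Subgroup (alternatingGroup (Fin n))) [Fintype H] (η : H → ℂ), η ∈ Irr H →
      (∀ h : H, ¬ Small n (h : alternatingGroup (Fin n)) → η h = 0) →
      ∀ d : ℕ, ∑ h : H, (fx ((h : alternatingGroup (Fin n)) : Perm (Fin n)) : ℂ) * η h⁻¹
            = (d : ℂ) * Nat.card H →
        ∀ δ : ℤ, (η = 1 → δ = (r : ℤ) - c * n) → (η ≠ 1 → δ = 0) →
        ∑ h : H, (theta A.ord : alternatingGroup (Fin n) → ℂ) h * η h⁻¹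
          = ((δ + c * d : ℤ) : ℂ) * Nat.card H := by
    intro H _ η hη hv d hd δ hδ1 hδ2
    have h2 : ∀ h : H, (theta A.ord : alternatingGroup (Fin n) → ℂ) h * η h⁻¹
        = (r - c * n) * η h⁻¹
          + c * ((fx ((h : alternatingGroup (Fin n)) : Perm (Fin n)) : ℂ) * η h⁻¹) := by
      intro h
      by_cases hh : Small n (h : alternatingGroup (Fin n))
      · rw [hsm _ hh]; ring
      · rw [hv h⁻¹ (fun h' => hh (by have := h'.inv; simpa using this))]
        ring
    rw [Finset.sum_congr rfl (fun h _ => h2 h), Finset.sum_add_distrib, ← Finset.mul_sum,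
      ← Finset.mul_sum, hd]
    by_cases h7 : η = 1
    · rw [hδ1 h7, h7]
      simp only [Pi.one_apply, Finset.sum_const, Finset.card_univ, nsmul_eq_mul,
        Nat.card_eq_fintype_card]
      push_cast
      ring
    · rw [hδ2 h7, sum_inv_irr hη h7]
      push_cast
      ring
  refine ⟨c, γ, ?_, ?_, ⟨hg1, hg2, hg3⟩, ?_⟩
  · intro H η hη hv
    have : Fintype H := Fintype.ofFinite _
    obtain ⟨d, hd⟩ := exists_mult' ((permRep (Fin n)).comp (alternatingGroup (Fin n)).subtype) H hη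
    have hd' : ∑ᶠ h : H, (fx ((h : alternatingGroup (Fin n)) : Perm (Fin n)) : ℂ) * η h⁻¹
        = (d : ℂ) * Nat.card H := by
      rw [← hd]
      refine finsum_congr fun h => ?_
      rw [← permRep_char]
      rfl
    have hd2 := hd'
    rw [finsum_eq_sum_of_fintype] at hd2
    have h3 := main H η hη hv d hd2 (if η = 1 then (r : ℤ) - c * n else 0)
      (fun h => if_pos h) (fun h => if_neg h)
    refine ⟨d, hd', ?_, fun F hF => ?_⟩
    · by_cases h7 : η = 1
      · have h4 := A.hecke H 1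
        rw [if_pos h7] at h3 ⊢
        rw [order_rel A (rel_lin A H 1) (k := ((r : ℤ) - c * n) + c * d)] at h4
        · exact_mod_cast h4
        · rw [← h3]
          refine Finset.sum_congr rfl fun h _ => ?_
          rw [h7]
          simp
      · rw [if_neg h7]
        positivity
    · rw [order_rel A hF h3]
      by_cases h7 : η = 1
      · rw [if_pos h7, if_pos h7]
      · rw [if_neg h7, if_neg h7]
  · intro H ψ hH
    have : Fintype H := Fintype.ofFinite _
    have hA : ∀ h : H, ¬ Small n (h : alternatingGroup (Fin n)) → ((ψ h : ℂˣ) : ℂ) = 0 := by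
      intro h hh
      refine absurd (small_of_order (N := Nat.card H) ?_ hH) hh
      have h3 : orderOf ((h : alternatingGroup (Fin n)) : Perm (Fin n)) = orderOf h := by
        rw [Subgroup.orderOf_coe, Subgroup.orderOf_coe]
      rw [h3]
      exact orderOf_dvd_natCard h
    have hB : ∑ h : H, (fx ((h : alternatingGroup (Fin n)) : Perm (Fin n)) : ℂ)
        * ((ψ h⁻¹ : ℂˣ) : ℂ) = (orbNum H (Fin n) ψ : ℂ) * Nat.card H := by
      have h5 := sum_fix (H := H) (X := Fin n) ψ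
      rw [← h5]
      refine Finset.sum_congr rfl fun h _ => ?_
      rw [map_inv]
      rfl
    have h4 : ((fun h : H => ((ψ h : ℂˣ) : ℂ)) = 1) ↔ ψ = 1 := by
      constructor
      · intro h
        ext x
        exact congrFun h x
      · intro h
        rw [h]
        funext x
        simp
    have h3 := main H (fun h => ((ψ h : ℂˣ) : ℂ)) (Pool.Agent.TH820.lin_irr ψ) hA
      (orbNum H (Fin n) ψ) hB (if ψ = 1 then (r : ℤ) - c * n else 0)
      (fun h => if_pos (h4.mp h)) (fun h => if_neg (fun h' => h (h4.mpr h')))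
    rw [order_rel A (rel_lin A H ψ) h3]
    by_cases h7 : ψ = 1
    · rw [if_pos h7, if_pos h7]
    · rw [if_neg h7, if_neg h7]
  · intro H η hη hv
    have : Fintype H := Fintype.ofFinite _
    have h2 : ∃ k : ℤ, ∑ h : H, (theta A.ord : alternatingGroup (Fin n) → ℂ) h * η h⁻¹
        = (k : ℂ) * Nat.card H := by
      have h3 : ∀ χ : alternatingGroup (Fin n) → ℂ, ∃ m : ℕ, χ ∈ Irr (alternatingGroup (Fin n)) →
          ∑ᶠ h : H, χ h * η h⁻¹ = (m : ℂ) * (Nat.card H : ℂ) := by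
        intro χ
        by_cases hχ : χ ∈ Irr (alternatingGroup (Fin n))
        · obtain ⟨n, ρ, hρ, rfl⟩ := hχ
          obtain ⟨m, hm⟩ := exists_mult' ρ H hη
          exact ⟨m, fun _ => hm⟩
        · exact ⟨0, fun h => absurd h hχ⟩
      choose m hm using h3
      refine ⟨∑ χ ∈ irrF (alternatingGroup (Fin n)), (m χ : ℤ) * A.ord χ, ?_⟩
      unfold theta
      simp_rw [Finset.sum_mul]
      rw [Finset.sum_comm, Int.cast_sum, Finset.sum_mul]
      refine Finset.sum_congr rfl fun χ hχ => ?_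
      have h4 := hm χ (mem_irrF.mp hχ)
      rw [finsum_eq_sum_of_fintype] at h4
      simp_rw [mul_assoc]
      rw [← Finset.mul_sum, h4]
      push_cast
      ring
    obtain ⟨k, hk⟩ := h2
    refine ⟨k, ?_, fun F hF => order_rel A hF hk⟩
    rw [← hk, finsum_eq_sum_of_fintype]
    refine Finset.sum_congr rfl fun h _ => ?_
    by_cases hg : Good n r (h : alternatingGroup (Fin n))
    · rw [hg4 _ hg]
    · rw [hv h⁻¹ (fun h' => hg (by have := h'.inv; simpa using this)), mul_zero, mul_zero]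

end Pool.Agent.X21.Qd
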