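import Mathlib
import Pool.Agent.X21.Qd.Ar

/-!
# Quotients of zeta functions in the quadratic range
-/

set_option autoImplicit false
set_option linter.unusedSectionVars false

namespace Pool.Agent.X21.Qd

open Pool.Agent.H302R2 Pool.Agent.H541R3.ART Pool.Agent.X21.Sy Equiv Equiv.Perm Function Filter
  Topology MulAction

section

variable {U M X : Type} [Group U] [Group M] [MulAction U X] [MulAction M X] [Finite X]

lemma smul_mk {U X : Type} [Group U] [MulAction U X] (u : U) (x : X) :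
    (Quotient.mk _ (u • x) : orbitRel.Quotient U X) = Quotient.mk _ x :=
  Quotient.sound ⟨u, rfl⟩

lemma orb_le (f : U →* M) (hf : ∀ (u : U) (x : X), f u • x = u • x) (ρ : M →* ℂˣ) :
    orbNum M X ρ ≤ orbNum U X (ρ.comp f) := by
  classical
  refine Nat.card_le_card_of_injective (fun q => ⟨Quotient.mk _ q.1.out, ?_⟩) ?_
  · rw [good_iff]
    intro u hu
    rw [← hf] at hu
    exact q.2 q.1.out (Quotient.out_eq _) (f u) hu
  · intro q q' h
    have h1 := congrArg Subtype.val h
    obtain ⟨u, hu⟩ : q.1.out ∈ MulAction.orbit U q'.1.out := Quotient.exact h1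
    have hu' : u • q'.1.out = q.1.out := hu
    apply Subtype.ext
    rw [← Quotient.out_eq q.1, ← Quotient.out_eq q'.1, ← hu', ← hf, smul_mk]

lemma orb_two_le (f : U →* M) (hf : ∀ (u : U) (x : X), f u • x = u • x) (ρ : M →* ℂˣ)
    (h1 : ρ ≠ 1) (hU : ρ.comp f = 1) :
    orbNum M X 1 + orbNum M X ρ ≤ orbNum U X 1 := by
  classical
  obtain ⟨m₀, h0⟩ : ∃ m, ρ m ≠ 1 := by
    by_contra hcon
    push Not at hcon
    exact h1 (MonoidHom.ext fun x => by simpa using hcon x)
  rw [orbNum, orbNum, ← Nat.card_sum]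
  refine Nat.card_le_card_of_injective (Sum.elim (fun q => ⟨Quotient.mk _ q.1.out, fun _ _ _ _ => rfl⟩)
    (fun q => ⟨Quotient.mk _ (m₀ • q.1.out), fun _ _ _ _ => rfl⟩)) ?_
  have key : ∀ (x y : X), (Quotient.mk _ x : orbitRel.Quotient U X) = Quotient.mk _ y →
      ∃ u : U, f u • y = x := by
    intro x y h
    obtain ⟨u, hu⟩ : x ∈ MulAction.orbit U y := Quotient.exact h
    exact ⟨u, by rw [hf]; exact hu⟩
  have hfu : ∀ u, ρ (f u) = 1 := fun u => by
    have := DFunLike.congr_fun hU u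
    simpa using this
  rintro (q | q) (q' | q') h
  · have h2 := congrArg Subtype.val h
    obtain ⟨u, hu⟩ := key _ _ h2
    congr 1
    apply Subtype.ext
    rw [← Quotient.out_eq q.1, ← Quotient.out_eq q'.1, ← hu, smul_mk]
  · exfalso
    have h2 := congrArg Subtype.val h
    obtain ⟨u, hu⟩ := key _ _ h2
    have h3 : q.1 = q'.1 := by
      rw [← Quotient.out_eq q.1, ← Quotient.out_eq q'.1, ← hu, smul_mk, smul_mk]
    rw [h3] at hu
    have h4 := q'.2 q'.1.out (Quotient.out_eq _) (f u * m₀) (by rw [mul_smul, hu])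
    rw [map_mul, hfu, one_mul] at h4
    exact h0 h4
  · exfalso
    have h2 := congrArg Subtype.val h
    obtain ⟨u, hu⟩ := key _ _ h2
    have h3 : q.1 = q'.1 := by
      rw [← Quotient.out_eq q.1, ← Quotient.out_eq q'.1, ← smul_mk m₀ q.1.out, ← hu, smul_mk]
    rw [← h3] at hu
    have h4 := q.2 q.1.out (Quotient.out_eq _) (m₀⁻¹ * f u) (by
      rw [mul_smul, hu, inv_smul_smul])
    rw [map_mul, hfu, mul_one, map_inv, inv_eq_one] at h4
    exact h0 h4
  · have h2 := congrArg Subtype.val h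
    obtain ⟨u, hu⟩ := key _ _ h2
    congr 1
    apply Subtype.ext
    rw [← Quotient.out_eq q.1, ← Quotient.out_eq q'.1, ← smul_mk m₀ q.1.out, ← hu, smul_mk, smul_mk]

lemma orbNum_one : orbNum M X 1 = Nat.card (orbitRel.Quotient M X) := by
  classical
  rw [orbNum]
  exact Nat.card_congr (Equiv.subtypeUnivEquiv fun q => fun _ _ _ _ => rfl)

end

variable {n r : ℕ}

/-- Quotients of Hecke L-functions in the quadratic range. -/
theorem ded_quad (hn : 28 ≤ n) {s₀ : ℂ} (A : ArtinData (alternatingGroup (Fin n)) s₀)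
    (hr : meromorphicOrderAt (A.Lin ⊥ 1) s₀ = (r : WithTop ℤ))
    (hlt : 18 * r < (n - 2) * (n - 2)) :
    ∃ c : ℕ, ∀ (U M : Subgroup (alternatingGroup (Fin n))) (hUM : U ≤ M),
      (∀ p : ℕ, p.Prime → n < 2 * p + 2 → ¬ p ∣ Nat.card M) →
      meromorphicOrderAt (A.Lin U 1) s₀ = meromorphicOrderAt (A.Lin M 1) s₀ +
        ((c * (Nat.card (orbitRel.Quotient U (Fin n)) - Nat.card (orbitRel.Quotient M (Fin n))) : ℕ)
          : WithTop ℤ) ∧
      ∀ ρ : M →* ℂˣ, meromorphicOrderAt (A.Lin M ρ) s₀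
        ≤ meromorphicOrderAt (A.Lin U (ρ.comp (Subgroup.inclusion hUM))) s₀ := by
  classical
  obtain ⟨c, γ, -, h2, -, -⟩ := artin_quad hn A hr hlt
  refine ⟨c, fun U M hUM hM => ?_⟩
  have hU : ∀ p : ℕ, p.Prime → n < 2 * p + 2 → ¬ p ∣ Nat.card U := fun p h1 h3 h4 =>
    hM p h1 h3 (h4.trans (Subgroup.card_dvd_of_le hUM))
  have hf : ∀ (u : U) (x : Fin n), (Subgroup.inclusion hUM) u • x = u • x := fun _ _ => rfl
  have hle : Nat.card (orbitRel.Quotient M (Fin n)) ≤ Nat.card (orbitRel.Quotient U (Fin n)) := by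
    rw [← orbNum_one, ← orbNum_one]
    have := orb_le (Subgroup.inclusion hUM) hf 1
    simpa using this
  constructor
  · rw [h2 U 1 hU, h2 M 1 hM, if_pos rfl, if_pos rfl, orbNum_one, orbNum_one]
    have : (((c * (Nat.card (orbitRel.Quotient U (Fin n))
        - Nat.card (orbitRel.Quotient M (Fin n))) : ℕ)) : WithTop ℤ)
        = ((((c * (Nat.card (orbitRel.Quotient U (Fin n))
        - Nat.card (orbitRel.Quotient M (Fin n))) : ℕ)) : ℤ) : WithTop ℤ) := rfl
    rw [this, ← WithTop.coe_add]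
    congr 1
    push_cast [Nat.cast_sub hle]
    ring
  · intro ρ
    rw [h2 M ρ hM, h2 U _ hU]
    have h3 := orb_le (Subgroup.inclusion hUM) hf ρ
    have h3' : (c : ℤ) * orbNum M (Fin n) ρ
        ≤ c * orbNum U (Fin n) (ρ.comp (Subgroup.inclusion hUM)) := by
      exact_mod_cast Nat.mul_le_mul_left c h3
    by_cases h4 : ρ = 1
    · have h5 : ρ.comp (Subgroup.inclusion hUM) = 1 := by rw [h4]; rfl
      rw [if_pos h4, if_pos h5]
      exact_mod_cast add_le_add_right h3' _
    · by_cases h5 : ρ.comp (Subgroup.inclusion hUM) = 1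
      · rw [if_neg h4, if_pos h5, h5]
        have h6 := orb_two_le (Subgroup.inclusion hUM) hf ρ h4 h5
        have h7 := A.hecke M 1
        rw [h2 M 1 hM, if_pos rfl] at h7
        have h8 : (0 : ℤ) ≤ (r : ℤ) - c * n + c * orbNum M (Fin n) 1 := by exact_mod_cast h7
        have h9 : (c : ℤ) * orbNum M (Fin n) 1 + c * orbNum M (Fin n) ρ
            ≤ c * orbNum U (Fin n) 1 := by
          have := Nat.mul_le_mul_left c h6
          rw [mul_add] at this
          exact_mod_cast this
        have h10 : (0 : ℤ) + c * orbNum M (Fin n) ρ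
            ≤ ((r : ℤ) - c * n) + c * orbNum U (Fin n) 1 := by linarith
        exact_mod_cast h10
      · rw [if_neg h4, if_neg h5]
        have h10 : (0 : ℤ) + c * orbNum M (Fin n) ρ
            ≤ 0 + c * orbNum U (Fin n) (ρ.comp (Subgroup.inclusion hUM)) := by linarith
        exact_mod_cast h10

end Pool.Agent.X21.Qd
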